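import Pool.Agent.H92.Desc.Defs

/-!
Uniform first-order definability over a class of structures.
-/

namespace Pool.Agent.H92.Desc

open FirstOrder FirstOrder.Language

/-- A class of `L`-structures. -/
structure Cls (L : FirstOrder.Language.{0, 0}) where
  ι : Type 1
  car : ι → Type
  str : ∀ i, L.Structure (car i)

attribute [instance] Cls.str

/-- The family of relations `P` is uniformly first-order definable over the class. -/
def UDef {L : FirstOrder.Language.{0, 0}} (𝒞 : Cls L) {α : Type} (P : ∀ c, (α → 𝒞.car c) → Prop) : Prop :=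
  ∃ φ : L.Formula α, ∀ c v, @Formula.Realize L (𝒞.car c) (𝒞.str c) α φ v ↔ P c v

namespace UDef

variable {L : FirstOrder.Language.{0, 0}} {𝒞 : Cls L} {α β : Type} {P Q : ∀ c, (α → 𝒞.car c) → Prop}

theorem congr (h : UDef 𝒞 P) (h' : ∀ c v, P c v ↔ Q c v) : UDef 𝒞 Q := by
  obtain ⟨φ, hφ⟩ := h
  exact ⟨φ, fun c v => (hφ c v).trans (h' c v)⟩

theorem const (p : Prop) : UDef 𝒞 (fun _ (_ : α → _) => p) := by
  by_cases hp : p
  · refine ⟨⊤, fun c v => ?_⟩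
    simp [hp]
  · refine ⟨⊥, fun c v => ?_⟩
    simp [hp]

theorem not (h : UDef 𝒞 P) : UDef 𝒞 (fun c v => ¬ P c v) := by
  obtain ⟨φ, hφ⟩ := h
  refine ⟨φ.not, fun c v => ?_⟩
  beta_reduce
  rw [← hφ c v]
  exact Formula.realize_not

theorem and (h : UDef 𝒞 P) (h' : UDef 𝒞 Q) : UDef 𝒞 (fun c v => P c v ∧ Q c v) := by
  obtain ⟨φ, hφ⟩ := h
  obtain ⟨ψ, hψ⟩ := h'
  refine ⟨φ ⊓ ψ, fun c v => ?_⟩
  beta_reduce
  rw [← hφ c v, ← hψ c v]
  exact Formula.realize_inf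

theorem or (h : UDef 𝒞 P) (h' : UDef 𝒞 Q) : UDef 𝒞 (fun c v => P c v ∨ Q c v) := by
  obtain ⟨φ, hφ⟩ := h
  obtain ⟨ψ, hψ⟩ := h'
  refine ⟨φ ⊔ ψ, fun c v => ?_⟩
  beta_reduce
  rw [← hφ c v, ← hψ c v]
  exact Formula.realize_sup

theorem imp (h : UDef 𝒞 P) (h' : UDef 𝒞 Q) : UDef 𝒞 (fun c v => P c v → Q c v) := by
  refine (h.not.or h').congr fun c v => ?_
  tauto

theorem iff (h : UDef 𝒞 P) (h' : UDef 𝒞 Q) : UDef 𝒞 (fun c v => P c v ↔ Q c v) := by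
  refine ((h.imp h').and (h'.imp h)).congr fun c v => ?_
  tauto

theorem comp {P : ∀ c, (β → 𝒞.car c) → Prop} (h : UDef 𝒞 P) (g : β → α) :
    UDef 𝒞 (fun c v => P c (v ∘ g)) := by
  obtain ⟨φ, hφ⟩ := h
  refine ⟨φ.relabel g, fun c v => ?_⟩
  beta_reduce
  rw [← hφ c (v ∘ g)]
  exact Formula.realize_relabel

theorem all [Finite β] {P : ∀ c, (α → 𝒞.car c) → (β → 𝒞.car c) → Prop}
    (h : UDef 𝒞 (fun c (u : α ⊕ β → 𝒞.car c) => P c (u ∘ Sum.inl) (u ∘ Sum.inr))) :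
    UDef 𝒞 (fun c v => ∀ w, P c v w) := by
  obtain ⟨φ, hφ⟩ := h
  refine ⟨φ.iAlls β, fun c v => ?_⟩
  rw [@Formula.realize_iAlls]
  refine forall_congr' fun w => ?_
  have := hφ c (Sum.elim v w)
  beta_reduce at this
  rw [Sum.elim_comp_inl, Sum.elim_comp_inr] at this
  exact this

theorem ex [Finite β] {P : ∀ c, (α → 𝒞.car c) → (β → 𝒞.car c) → Prop}
    (h : UDef 𝒞 (fun c (u : α ⊕ β → 𝒞.car c) => P c (u ∘ Sum.inl) (u ∘ Sum.inr))) :
    UDef 𝒞 (fun c v => ∃ w, P c v w) := by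
  refine (all (P := fun c v w => ¬ P c v w) h.not).not.congr fun c v => ?_
  push Not
  rfl

theorem all1 {P : ∀ c, (α → 𝒞.car c) → 𝒞.car c → Prop}
    (h : UDef 𝒞 (fun c (u : α ⊕ Unit → 𝒞.car c) => P c (u ∘ Sum.inl) (u (Sum.inr ())))) :
    UDef 𝒞 (fun c v => ∀ x, P c v x) := by
  refine (all (P := fun c v w => P c v (w ())) h).congr fun c v => ?_
  exact ⟨fun h x => h fun _ => x, fun h w => h _⟩

theorem ex1 {P : ∀ c, (α → 𝒞.car c) → 𝒞.car c → Prop}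
    (h : UDef 𝒞 (fun c (u : α ⊕ Unit → 𝒞.car c) => P c (u ∘ Sum.inl) (u (Sum.inr ())))) :
    UDef 𝒞 (fun c v => ∃ x, P c v x) := by
  refine (ex (P := fun c v w => P c v (w ())) h).congr fun c v => ?_
  exact ⟨fun ⟨w, h⟩ => ⟨_, h⟩, fun ⟨x, h⟩ => ⟨fun _ => x, h⟩⟩

theorem forallFin {ι : Type} [Finite ι] {P : ι → ∀ c, (α → 𝒞.car c) → Prop}
    (h : ∀ i, UDef 𝒞 (P i)) : UDef 𝒞 (fun c v => ∀ i, P i c v) := by
  choose φ hφ using h
  refine ⟨(BoundedFormula.iInf φ : L.BoundedFormula α 0), fun c v => ?_⟩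
  have := 𝒞.str c
  refine (@BoundedFormula.realize_iInf L (𝒞.car c) (𝒞.str c) _ _ _ _ φ _ _).trans ?_
  exact forall_congr' fun i => hφ i c v

theorem existsFin {ι : Type} [Finite ι] {P : ι → ∀ c, (α → 𝒞.car c) → Prop}
    (h : ∀ i, UDef 𝒞 (P i)) : UDef 𝒞 (fun c v => ∃ i, P i c v) := by
  refine (forallFin (fun i => (h i).not)).not.congr fun c v => ?_
  push Not
  rfl

theorem eq (a b : α) : UDef 𝒞 (fun _ v => v a = v b) := by
  refine ⟨Term.equal (Term.var a) (Term.var b), fun c v => ?_⟩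
  exact Formula.realize_equal

theorem rel {n : ℕ} (R : L.Relations n) (t : Fin n → α) :
    UDef 𝒞 (fun c v => @Structure.RelMap L _ (𝒞.str c) _ R (v ∘ t)) := by
  refine ⟨R.formula (fun i => Term.var (t i)), fun c v => ?_⟩
  exact Formula.realize_rel

/-- equality of tuples -/
theorem eqT {N : Type} [Finite N] (g h : N → α) : UDef 𝒞 (fun _ v => v ∘ g = v ∘ h) := by
  refine (forallFin (fun i => eq (𝒞 := 𝒞) (g i) (h i))).congr fun c v => ?_
  exact ⟨fun h => funext h, fun h i => congrFun h i⟩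

end UDef

end Pool.Agent.H92.Desc
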