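import Pool.Agent.H92.Desc.AltTr

/-!
A calculus of uniformly definable relations on families of sets that are coded by tuples.
-/

set_option linter.unusedSectionVars false

namespace Pool.Agent.H92.Desc

open FirstOrder FirstOrder.Language Click

/-- A coding of the family of sets `X` by sorted tuples. -/
structure Cd (σ : FirstOrder.Language.{0, 0}) (X : (ordCls σ).ι → Type) where
  S : Type
  fin : Finite S
  C : S → Type
  cfin : ∀ s, Finite (C s)
  dec : ∀ c (s : S), (C s → (ordCls σ).car c) → X c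
  inj : ∀ c s v s' v', dec c s v = dec c s' v' →
    (⟨s, v⟩ : Σ s : S, (C s → (ordCls σ).car c)) = ⟨s', v'⟩
  surj : ∀ c x, ∃ s v, x = dec c s v

variable {σ : FirstOrder.Language.{0, 0}} {X Y Z : (ordCls σ).ι → Type}

namespace Cd

/-- constant families -/
abbrev const (σ : FirstOrder.Language.{0, 0}) (F : Type) [h : Finite F] : Cd σ (fun _ => F) where
  S := F
  fin := h
  C := fun _ => Empty
  cfin := fun _ => inferInstance
  dec := fun _ s _ => s
  inj := fun c s v s' v' h => by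
    subst h
    have : v = v' := funext fun i => i.elim
    rw [this]
  surj := fun c x => ⟨x, Empty.elim, rfl⟩

/-- tuples -/
abbrev pow (σ : FirstOrder.Language.{0, 0}) (ν : Type) [h : Finite ν] :
    Cd σ (fun c => ν → (ordCls σ).car c) where
  S := Unit
  fin := inferInstance
  C := fun _ => ν
  cfin := fun _ => h
  dec := fun _ _ v => v
  inj := fun c s v s' v' h => by
    subst h
    rfl
  surj := fun _ x => ⟨(), x, rfl⟩

/-- products -/
abbrev prod (D : Cd σ X) (E : Cd σ Y) : Cd σ (fun c => X c × Y c) where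
  S := D.S × E.S
  fin := by
    have := D.fin
    have := E.fin
    exact inferInstance
  C := fun s => D.C s.1 ⊕ E.C s.2
  cfin := fun s => by
    have := D.cfin s.1
    have := E.cfin s.2
    exact inferInstance
  dec := fun c s v => (D.dec c s.1 (v ∘ Sum.inl), E.dec c s.2 (v ∘ Sum.inr))
  inj := fun c s v s' v' h => by
    obtain ⟨s, t⟩ := s
    obtain ⟨s', t'⟩ := s'
    simp only [Prod.mk.injEq] at h
    have h1 := D.inj _ _ _ _ _ h.1
    have h2 := E.inj _ _ _ _ _ h.2
    simp only [Sigma.mk.injEq] at h1 h2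
    obtain ⟨rfl, h1⟩ := h1
    obtain ⟨rfl, h2⟩ := h2
    have h1 := eq_of_heq h1
    have h2 := eq_of_heq h2
    have : v = v' := by
      funext i
      rcases i with i | i
      · exact congrFun h1 i
      · exact congrFun h2 i
    rw [this]
  surj := fun c x => by
    obtain ⟨s, v, h⟩ := D.surj c x.1
    obtain ⟨t, w, h'⟩ := E.surj c x.2
    exact ⟨(s, t), Sum.elim v w, Prod.ext h h'⟩

/-- decoding in a sum -/
def sdec (D : Cd σ X) (E : Cd σ Y) (c : (ordCls σ).ι) : ∀ s : D.S ⊕ E.S,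
    (Sum.elim D.C E.C s → (ordCls σ).car c) → X c ⊕ Y c
  | .inl s, v => .inl (D.dec c s v)
  | .inr s, v => .inr (E.dec c s v)

/-- sums -/
abbrev sum (D : Cd σ X) (E : Cd σ Y) : Cd σ (fun c => X c ⊕ Y c) where
  S := D.S ⊕ E.S
  fin := by
    have := D.fin
    have := E.fin
    exact inferInstance
  C := Sum.elim D.C E.C
  cfin := fun s => by
    rcases s with s | s
    · exact D.cfin s
    · exact E.cfin s
  dec := sdec D E
  inj := fun c s v s' v' h => by
    rcases s with s | s <;> rcases s' with s' | s'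
    · have h1 := D.inj _ _ _ _ _ (Sum.inl.inj h)
      simp only [Sigma.mk.injEq] at h1
      obtain ⟨rfl, h1⟩ := h1
      have h1 := eq_of_heq h1
      rw [h1]
    · exact absurd h (by simp [sdec])
    · exact absurd h (by simp [sdec])
    · have h1 := E.inj _ _ _ _ _ (Sum.inr.inj h)
      simp only [Sigma.mk.injEq] at h1
      obtain ⟨rfl, h1⟩ := h1
      have h1 := eq_of_heq h1
      rw [h1]
  surj := fun c x => by
    rcases x with x | y
    · obtain ⟨s, v, h⟩ := D.surj c x
      exact ⟨.inl s, v, congrArg Sum.inl h⟩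
    · obtain ⟨s, v, h⟩ := E.surj c y
      exact ⟨.inr s, v, congrArg Sum.inr h⟩

/-- the decoding bijection -/
noncomputable def e (D : Cd σ X) (c : (ordCls σ).ι) :
    (Σ s : D.S, (D.C s → (ordCls σ).car c)) ≃ X c :=
  Equiv.ofBijective (fun p => D.dec c p.1 p.2)
    ⟨fun p p' h => D.inj c _ _ _ _ h, fun x => by
      obtain ⟨s, v, h⟩ := D.surj c x
      exact ⟨⟨s, v⟩, h.symm⟩⟩

end Cd

/-- uniformly definable families of sets -/
def DDef (D : Cd σ X) (P : ∀ c, X c → Prop) : Prop :=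
  ∀ s, UDef (ordCls σ) (fun c (v : D.C s → (ordCls σ).car c) => P c (D.dec c s v))

/-- coordinate maps -/
def TM (D : Cd σ X) (E : Cd σ Y) (f : ∀ c, X c → Y c) : Prop :=
  ∃ (φ : D.S → E.S) (ψ : ∀ s, E.C (φ s) → D.C s), ∀ c s v,
    f c (D.dec c s v) = E.dec c (φ s) (v ∘ ψ s)

variable {D : Cd σ X} {E : Cd σ Y} {G : Cd σ Z}

namespace TM

theorem id (D : Cd σ X) : TM D D (fun _ x => x) := ⟨fun s => s, fun _ => fun i => i, fun _ _ _ => rfl⟩

theorem comp {f : ∀ c, X c → Y c} {g : ∀ c, Y c → Z c} (hg : TM E G g) (hf : TM D E f) :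
    TM D G (fun c x => g c (f c x)) := by
  obtain ⟨φ, ψ, h⟩ := hf
  obtain ⟨φ', ψ', h'⟩ := hg
  refine ⟨fun s => φ' (φ s), fun s => ψ s ∘ ψ' (φ s), fun c s v => ?_⟩
  beta_reduce
  rw [h, h']
  rfl

theorem fst : TM (D.prod E) D (fun _ p => p.1) :=
  ⟨fun s => s.1, fun _ => Sum.inl, fun _ _ _ => rfl⟩

theorem snd : TM (D.prod E) E (fun _ p => p.2) :=
  ⟨fun s => s.2, fun _ => Sum.inr, fun _ _ _ => rfl⟩

theorem pair {f : ∀ c, X c → Y c} {g : ∀ c, X c → Z c} (hf : TM D E f) (hg : TM D G g) :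
    TM D (E.prod G) (fun c x => (f c x, g c x)) := by
  obtain ⟨φ, ψ, h⟩ := hf
  obtain ⟨φ', ψ', h'⟩ := hg
  refine ⟨fun s => (φ s, φ' s), fun s => Sum.elim (ψ s) (ψ' s), fun c s v => ?_⟩
  beta_reduce
  rw [h, h']
  rfl

theorem inl : TM D (D.sum E) (fun _ x => Sum.inl x) :=
  ⟨Sum.inl, fun _ => fun i => i, fun _ _ _ => rfl⟩

theorem inr : TM E (D.sum E) (fun _ x => Sum.inr x) :=
  ⟨Sum.inr, fun _ => fun i => i, fun _ _ _ => rfl⟩

theorem const {F : Type} [Finite F] (a : F) : TM D (Cd.const σ F) (fun _ _ => a) :=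
  ⟨fun _ => a, fun _ => Empty.elim, fun _ _ _ => rfl⟩

theorem fn {F F' : Type} [Finite F] [Finite F'] (f : F → F') :
    TM (Cd.const σ F) (Cd.const σ F') (fun _ x => f x) :=
  ⟨f, fun _ => Empty.elim, fun _ _ _ => rfl⟩

theorem tup {ν μ : Type} [Finite ν] [Finite μ] (g : μ → ν) :
    TM (Cd.pow σ ν) (Cd.pow σ μ) (fun _ x => x ∘ g) :=
  ⟨fun _ => (), fun _ => g, fun _ _ _ => rfl⟩

end TM

namespace DDef

variable {P Q : ∀ c, X c → Prop}

theorem congr (h : DDef D P) (h' : ∀ c x, P c x ↔ Q c x) : DDef D Q :=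
  fun s => (h s).congr fun c _ => h' c _

theorem const (p : Prop) : DDef D (fun _ _ => p) := fun _ => UDef.const p


theorem not (h : DDef D P) : DDef D (fun c x => ¬ P c x) := fun s => (h s).not

theorem and (h : DDef D P) (h' : DDef D Q) : DDef D (fun c x => P c x ∧ Q c x) :=
  fun s => (h s).and (h' s)

theorem or (h : DDef D P) (h' : DDef D Q) : DDef D (fun c x => P c x ∨ Q c x) :=
  fun s => (h s).or (h' s)

theorem imp (h : DDef D P) (h' : DDef D Q) : DDef D (fun c x => P c x → Q c x) :=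
  fun s => (h s).imp (h' s)

theorem comp {P : ∀ c, Y c → Prop} (h : DDef E P) {f : ∀ c, X c → Y c} (hf : TM D E f) :
    DDef D (fun c x => P c (f c x)) := by
  obtain ⟨φ, ψ, hh⟩ := hf
  intro s
  refine ((h (φ s)).comp (ψ s)).congr fun c v => ?_
  change P c _ ↔ P c (f c (D.dec c s v))
  rw [hh]

/-- binary relations -/
theorem comp₂ {P : ∀ c, Y c → Z c → Prop} (h : DDef (E.prod G) (fun c p => P c p.1 p.2))
    {f : ∀ c, X c → Y c} (hf : TM D E f) {g : ∀ c, X c → Z c} (hg : TM D G g) :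
    DDef D (fun c x => P c (f c x) (g c x)) := comp h (hf.pair hg)

theorem cases {f : ∀ c, X c → Y c ⊕ Z c} (hf : TM D (E.sum G) f)
    {Q : ∀ c, X c → Y c → Prop} {R : ∀ c, X c → Z c → Prop}
    (hQ : DDef (D.prod E) (fun c p => Q c p.1 p.2))
    (hR : DDef (D.prod G) (fun c p => R c p.1 p.2)) :
    DDef D (fun c x => Sum.elim (Q c x) (R c x) (f c x)) := by
  obtain ⟨φ, ψ, hh⟩ := hf
  intro s
  rcases hs : φ s with t | t
  · have h1 : ∃ ψ' : E.C t → D.C s, ∀ c v, f c (D.dec c s v) = Sum.inl (E.dec c t (v ∘ ψ')) := by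
      have h2 := fun c v => hh c s v
      revert h2
      generalize ψ s = ψs
      revert ψs
      rw [hs]
      intro ψs h2
      exact ⟨ψs, h2⟩
    obtain ⟨ψ', h1⟩ := h1
    refine ((hQ (s, t)).comp (Sum.elim (fun i => i) ψ')).congr fun c v => ?_
    change _ ↔ Sum.elim (Q c (D.dec c s v)) (R c (D.dec c s v)) (f c (D.dec c s v))
    rw [h1]
    exact Iff.rfl
  · have h1 : ∃ ψ' : G.C t → D.C s, ∀ c v, f c (D.dec c s v) = Sum.inr (G.dec c t (v ∘ ψ')) := by
      have h2 := fun c v => hh c s v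
      revert h2
      generalize ψ s = ψs
      revert ψs
      rw [hs]
      intro ψs h2
      exact ⟨ψs, h2⟩
    obtain ⟨ψ', h1⟩ := h1
    refine ((hR (s, t)).comp (Sum.elim (fun i => i) ψ')).congr fun c v => ?_
    change _ ↔ Sum.elim (Q c (D.dec c s v)) (R c (D.dec c s v)) (f c (D.dec c s v))
    rw [h1]
    exact Iff.rfl

theorem casesF {F : Type} [Finite F] {f : ∀ c, X c → F} (hf : TM D (Cd.const σ F) f)
    {P : F → ∀ c, X c → Prop} (hP : ∀ a, DDef D (P a)) :
    DDef D (fun c x => P (f c x) c x) := by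
  obtain ⟨φ, ψ, hh⟩ := hf
  intro s
  refine ((hP (φ s)) s).congr fun c v => ?_
  change _ ↔ P (f c (D.dec c s v)) c (D.dec c s v)
  rw [hh]

theorem ex {P : ∀ c, X c → Y c → Prop} (h : DDef (D.prod E) (fun c p => P c p.1 p.2)) :
    DDef D (fun c x => ∃ y, P c x y) := by
  intro s
  have := E.fin
  have h1 : ∀ t : E.S, UDef (ordCls σ) (fun c (v : D.C s → (ordCls σ).car c) =>
      ∃ w, P c (D.dec c s v) (E.dec c t w)) := by
    intro t
    have := E.cfin t
    exact UDef.ex (β := E.C t) (P := fun c v w => P c (D.dec c s v) (E.dec c t w))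
      ((h (s, t)).congr fun c v => Iff.rfl)
  refine (UDef.existsFin h1).congr fun c v => ?_
  constructor
  · rintro ⟨t, w, h⟩
    exact ⟨_, h⟩
  · rintro ⟨y, h⟩
    obtain ⟨t, w, rfl⟩ := E.surj c y
    exact ⟨t, w, h⟩

theorem all {P : ∀ c, X c → Y c → Prop} (h : DDef (D.prod E) (fun c p => P c p.1 p.2)) :
    DDef D (fun c x => ∀ y, P c x y) :=
  (ex (P := fun c x y => ¬ P c x y) h.not).not.congr fun c x => by simp

theorem eq' (D : Cd σ X) : DDef (D.prod D) (fun _ p => p.1 = p.2) := by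
  rintro ⟨s, t⟩
  by_cases hst : s = t
  · subst hst
    have := D.cfin s
    refine (UDef.eqT (𝒞 := ordCls σ) (N := D.C s) Sum.inl Sum.inr).congr fun c v => ?_
    change _ ↔ D.dec c s (v ∘ Sum.inl) = D.dec c s (v ∘ Sum.inr)
    constructor
    · intro h
      rw [h]
    · intro h
      have := D.inj _ _ _ _ _ h
      simpa using this
  · refine (UDef.const False).congr fun c v => ?_
    change _ ↔ D.dec c s (v ∘ Sum.inl) = D.dec c t (v ∘ Sum.inr)
    simp only [false_iff]
    intro h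
    exact hst (congrArg Sigma.fst (D.inj _ _ _ _ _ h))

theorem eq {f g : ∀ c, X c → Y c} (hf : TM D E f) (hg : TM D E g) :
    DDef D (fun c x => f c x = g c x) := comp₂ (P := fun _ x y => x = y) (eq' E) hf hg

end DDef

namespace DDef

theorem exQ {Q : ∀ c, X c × Y c → Prop} (h : DDef (D.prod E) Q) :
    DDef D (fun c x => ∃ y, Q c (x, y)) :=
  ex (P := fun c x y => Q c (x, y)) (h.congr fun _ _ => Iff.rfl)

theorem allQ {Q : ∀ c, X c × Y c → Prop} (h : DDef (D.prod E) Q) :
    DDef D (fun c x => ∀ y, Q c (x, y)) :=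
  all (P := fun c x y => Q c (x, y)) (h.congr fun _ _ => Iff.rfl)

theorem sumU {P : ∀ c, X c ⊕ Y c → Prop} (h1 : DDef D (fun c x => P c (.inl x)))
    (h2 : DDef E (fun c x => P c (.inr x))) : DDef (D.sum E) P := by
  rintro (s | s)
  · exact h1 s
  · exact h2 s

theorem sumL {P : ∀ c, X c ⊕ Y c → Z c → Prop}
    (h1 : DDef (D.prod G) (fun c q => P c (.inl q.1) q.2))
    (h2 : DDef (E.prod G) (fun c q => P c (.inr q.1) q.2)) :
    DDef ((D.sum E).prod G) (fun c q => P c q.1 q.2) := by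
  rintro ⟨s | s, t⟩
  · exact h1 (s, t)
  · exact h2 (s, t)

theorem sumR {P : ∀ c, Z c → X c ⊕ Y c → Prop}
    (h1 : DDef (G.prod D) (fun c q => P c q.1 (.inl q.2)))
    (h2 : DDef (G.prod E) (fun c q => P c q.1 (.inr q.2))) :
    DDef (G.prod (D.sum E)) (fun c q => P c q.1 q.2) := by
  rintro ⟨t, s | s⟩
  · exact h1 (t, s)
  · exact h2 (t, s)

theorem existsFin {F : Type} [Finite F] {P : F → ∀ c, X c → Prop} (h : ∀ a, DDef D (P a)) :
    DDef D (fun c x => ∃ a, P a c x) := fun s => UDef.existsFin fun a => h a s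

theorem iff {P Q : ∀ c, X c → Prop} (h : DDef D P) (h' : DDef D Q) :
    DDef D (fun c x => P c x ↔ Q c x) := fun s => (h s).iff (h' s)

end DDef

/-! orders -/

/-- lexicographic order of a product -/
def prodLt {X Y : Type*} (r : X → X → Prop) (q : Y → Y → Prop) (p p' : X × Y) : Prop :=
  r p.1 p'.1 ∨ (p.1 = p'.1 ∧ q p.2 p'.2)

/-- the order of a sum -/
def sumLt {X Y : Type*} (r : X → X → Prop) (q : Y → Y → Prop) : X ⊕ Y → X ⊕ Y → Prop
  | .inl x, .inl x' => r x x'
  | .inl _, .inr _ => True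
  | .inr _, .inl _ => False
  | .inr y, .inr y' => q y y'

theorem slo_prodLt {X Y : Type*} {r : X → X → Prop} {q : Y → Y → Prop} (hr : SLO r)
    (hq : SLO q) : SLO (prodLt r q) := by
  refine ⟨?_, ?_, ?_⟩
  · rintro ⟨x, y⟩ (h | ⟨_, h⟩)
    · exact hr.irr _ h
    · exact hq.irr _ h
  · rintro ⟨x, y⟩ ⟨x', y'⟩ ⟨x'', y''⟩ (h | ⟨h, h1⟩) (h' | ⟨h', h1'⟩)
    · exact Or.inl (hr.tr _ _ _ h h')
    · exact Or.inl (by rw [← h']; exact h)
    · exact Or.inl (by rw [h]; exact h')
    · exact Or.inr ⟨h.trans h', hq.tr _ _ _ h1 h1'⟩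
  · rintro ⟨x, y⟩ ⟨x', y'⟩
    rcases hr.tri x x' with h | h | h
    · exact Or.inl (Or.inl h)
    · subst h
      rcases hq.tri y y' with h | h | h
      · exact Or.inl (Or.inr ⟨rfl, h⟩)
      · exact Or.inr (Or.inl (by rw [h]))
      · exact Or.inr (Or.inr (Or.inr ⟨rfl, h⟩))
    · exact Or.inr (Or.inr (Or.inl h))

theorem slo_sumLt {X Y : Type*} {r : X → X → Prop} {q : Y → Y → Prop} (hr : SLO r)
    (hq : SLO q) : SLO (sumLt r q) := by
  refine ⟨?_, ?_, ?_⟩
  · rintro (x | y)
    · exact hr.irr _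
    · exact hq.irr _
  · rintro (x | y) (x' | y') (x'' | y'')
    · exact hr.tr _ _ _
    · exact fun _ _ => trivial
    · exact fun _ h => h.elim
    · exact fun _ _ => trivial
    · exact fun h _ => h.elim
    · exact fun h _ => h.elim
    · exact fun _ h => h.elim
    · exact hq.tr _ _ _
  · rintro (x | y) (x' | y')
    · rcases hr.tri x x' with h | h | h
      · exact Or.inl h
      · exact Or.inr (Or.inl (by rw [h]))
      · exact Or.inr (Or.inr h)
    · exact Or.inl trivial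
    · exact Or.inr (Or.inr trivial)
    · rcases hq.tri y y' with h | h | h
      · exact Or.inl h
      · exact Or.inr (Or.inl (by rw [h]))
      · exact Or.inr (Or.inr h)

/-- uniformly definable strict linear orders -/
structure DLO (D : Cd σ X) where
  r : ∀ c, X c → X c → Prop
  slo : ∀ c, SLO (r c)
  df : DDef (D.prod D) (fun c p => r c p.1 p.2)

namespace DLO

/-- product -/
def prod (R : DLO D) (Q : DLO E) : DLO (D.prod E) where
  r c := prodLt (R.r c) (Q.r c)
  slo c := slo_prodLt (R.slo c) (Q.slo c)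
  df := by
    refine DDef.or (R.df.comp₂ (TM.fst.comp TM.fst) (TM.fst.comp TM.snd))
      (DDef.and (DDef.eq (TM.fst.comp TM.fst) (TM.fst.comp TM.snd))
        (Q.df.comp₂ (TM.snd.comp TM.fst) (TM.snd.comp TM.snd)))

/-- sum -/
def sum (R : DLO D) (Q : DLO E) : DLO (D.sum E) where
  r c := sumLt (R.r c) (Q.r c)
  slo c := slo_sumLt (R.slo c) (Q.slo c)
  df := by
    refine (DDef.cases (D := (D.sum E).prod (D.sum E)) (E := D) (G := E) TM.fst
      (Q := fun c (p : (X c ⊕ Y c) × (X c ⊕ Y c)) x =>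
        Sum.elim (fun x' => R.r c x x') (fun _ => True) p.2)
      (R := fun c (p : (X c ⊕ Y c) × (X c ⊕ Y c)) y =>
        Sum.elim (fun _ => False) (fun y' => Q.r c y y') p.2) ?_ ?_).congr ?_
    · exact DDef.cases (D := ((D.sum E).prod (D.sum E)).prod D) (E := D) (G := E)
        (TM.snd.comp TM.fst)
        (Q := fun c (p : ((X c ⊕ Y c) × (X c ⊕ Y c)) × X c) x' => R.r c p.2 x')
        (R := fun _ _ _ => True)
        (R.df.comp₂ (TM.snd.comp TM.fst) TM.snd) (DDef.const True)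
    · exact DDef.cases (D := ((D.sum E).prod (D.sum E)).prod E) (E := D) (G := E)
        (TM.snd.comp TM.fst)
        (Q := fun _ _ _ => False)
        (R := fun c (p : ((X c ⊕ Y c) × (X c ⊕ Y c)) × Y c) y' => Q.r c p.2 y')
        (DDef.const False) (Q.df.comp₂ (TM.snd.comp TM.fst) TM.snd)
    · rintro c ⟨x | y, x' | y'⟩ <;> exact Iff.rfl

/-- constant families -/
def const (σ : FirstOrder.Language.{0, 0}) {F : Type} [Finite F] {r : F → F → Prop}
    (hr : SLO r) : DLO (Cd.const σ F) where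
  r _ := r
  slo _ := hr
  df := by
    refine (DDef.casesF (D := (Cd.const σ F).prod (Cd.const σ F)) (F := F) TM.fst
      (P := fun a _ (p : F × F) => r a p.2) fun a => ?_)
    exact DDef.casesF (D := (Cd.const σ F).prod (Cd.const σ F)) (F := F) TM.snd
      (P := fun b _ (_ : F × F) => r a b) fun b => DDef.const _

end DLO

end Pool.Agent.H92.Desc
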