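import Pool.Agent.H92.Desc.Defs

/-!
Descriptive complexity: PSPACE as alternating polynomial time, and completeness for PSPACE under
first-order reductions.
-/

namespace Pool.Agent.H92.Desc

open FirstOrder FirstOrder.Language

/-- The two-player game with move relation `μ` in which at most `t` moves of each player are
left: the player to move wins iff she has a move such that she wins again after every reply. A
player who has no move loses, and the first player loses when the time is over. -/
def GWin {P : Type} (μ : P → P → Prop) : ℕ → P → Prop
  | 0, _ => False
  | t + 1, p => ∃ p', μ p p' ∧ ∀ p'', μ p' p'' → GWin μ t p''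

/-- The `σ'`-structure on `A` all of whose relations are empty. -/
@[instance_reducible]
def emptyStr {σ' : FirstOrder.Language.{0, 0}} (h : σ'.IsRelational) (A : Type) :
    σ'.Structure A where
  funMap := fun {n} f => ((h n).false f).elim
  RelMap := fun _ _ => False

/-- The relation between two `σ'`-structures on the universe of `A` defined by a first-order
sentence `φ`, which may also speak about `A` and the order `o`. -/
def stepRel {σ σ' : FirstOrder.Language.{0, 0}}
    (φ : ((σ.sum FirstOrder.Language.order).sum (σ'.sum σ')).Sentence) (A : FinStr σ)
    (o : LinearOrder A.carrier) (R R' : σ'.Structure A.carrier) : Prop :=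
  @Sentence.Realize _ A.carrier
    (@sumStructure (σ.sum FirstOrder.Language.order) (σ'.sum σ') A.carrier (ordStr A.str o)
      (@sumStructure σ' σ' A.carrier R R')) φ

/-- PSPACE as alternating polynomial time (Chandra, Kozen, Stockmeyer): `A ∈ K` iff the first
player wins the game whose positions are the `σ'`-structures on the universe of `A`, for a fixed
finite relational vocabulary `σ'`, which starts from the structure with empty relations, whose
moves are defined by a fixed first-order sentence, and in which each player has at most `n ^ s`
moves, where `n` is the size of `A`. -/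
def InPSPACE {σ : FirstOrder.Language.{0, 0}} (K : Prob σ) : Prop :=
  ∃ (σ' : FirstOrder.Language.{0, 0}) (h : FinRel σ') (s : ℕ)
    (φ : ((σ.sum FirstOrder.Language.order).sum (σ'.sum σ')).Sentence),
    ∀ (A : FinStr σ) (o : LinearOrder A.carrier),
      K A ↔ GWin (stepRel φ A o) (Nat.card A.carrier ^ s) (emptyStr h.1 A.carrier)

/-- `K` is PSPACE-hard under first-order reductions: every PSPACE problem `K'` on the finite
structures of a finite relational vocabulary reduces to `K` by a first-order interpretation in
ordered structures. -/
def PSPACEHard {τ : FirstOrder.Language.{0, 0}} (hτ : τ.IsRelational) (K : Prob τ) : Prop :=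
  ∀ σ : FirstOrder.Language.{0, 0}, FinRel σ → ∀ K' : Prob σ, InPSPACE K' →
    ∃ I : Interp (σ.sum FirstOrder.Language.order) τ,
      ∀ (A : FinStr σ) (o : LinearOrder A.carrier), K' A ↔ K (I.image hτ A o)

/-- `K` is PSPACE-complete. -/
def PSPACEComplete {τ : FirstOrder.Language.{0, 0}} (hτ : τ.IsRelational) (K : Prob τ) : Prop :=
  InPSPACE K ∧ PSPACEHard hτ K

end Pool.Agent.H92.Desc
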