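import Pool.Agent.H92.Desc.Sat

/-!
Every existential second-order property has a uniform 3-CNF encoding
(a Cook-Levin theorem for first-order reductions).
-/

namespace Pool.Agent.H92.Desc

open FirstOrder FirstOrder.Language

variable {σ σ' : FirstOrder.Language.{0, 0}} {N : ℕ}

/-- a bound for the variables used in a formula -/
def bd {L : FirstOrder.Language.{0, 0}} : ∀ {n : ℕ}, L.BoundedFormula Empty n → ℕ
  | n, .falsum => n
  | n, .equal _ _ => n
  | n, .rel _ _ => n
  | _, .imp φ ψ => max (bd φ) (bd ψ)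
  | _, .all φ => bd φ

theorem le_bd {L : FirstOrder.Language.{0, 0}} {n : ℕ} (φ : L.BoundedFormula Empty n) :
    n ≤ bd φ := by
  induction φ with
  | falsum => exact le_rfl
  | equal _ _ => exact le_rfl
  | rel _ _ => exact le_rfl
  | imp _ _ h1 h2 => exact h1.trans (le_max_left _ _)
  | all _ h => exact (Nat.le_succ _).trans h

/-- padding a tuple by the least element -/
noncomputable def padT (N : ℕ) (c : (ordCls σ).ι) {n : ℕ} (x : Fin n → (ordCls σ).car c) :
    Fin N → (ordCls σ).car c :=
  fun i => if h : i.1 < n then x ⟨i.1, h⟩ else mn c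

theorem DefMap.pad {n : ℕ} (s : Fin n → Fin N) :
    DefMap (fun (c : (ordCls σ).ι) (v : Fin N → (ordCls σ).car c) => padT N c (v ∘ s)) := by
  refine (UDef.forallFin (ι := Fin N) (𝒞 := ordCls σ) (P := fun i c (u : Fin N ⊕ Fin N → _) =>
      padT N c ((u ∘ Sum.inl) ∘ s) i = u (Sum.inr i)) (fun i => ?_)).congr fun c u => ?_
  · by_cases h : i.1 < n
    · refine (UDef.eq (𝒞 := ordCls σ) (Sum.inl (s ⟨i.1, h⟩)) (Sum.inr i)).congr fun c u => ?_
      simp only [padT, dif_pos h]
      rfl
    · refine (UDef.isMn (σ := σ) (Sum.inr i)).congr fun c u => ?_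
      simp only [padT, dif_neg h]
      exact eq_comm
  · exact ⟨fun h => funext h, fun h i => congrFun h i⟩

/-- the structure coded by a base assignment -/
@[instance_reducible]
noncomputable def strOf (hσ' : σ'.IsRelational) (c : (ordCls σ).ι)
    (γ₀ : (Σ n, σ'.Relations n) × (Fin N → (ordCls σ).car c) → Bool) :
    σ'.Structure ((ordCls σ).car c) where
  funMap := fun {n} f => ((hσ' n).false f).elim
  RelMap := fun {n} R x => γ₀ (⟨n, R⟩, padT N c x) = true

/-- realization in the expansion coded by a base assignment -/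
def Real (hσ' : σ'.IsRelational) {n : ℕ} (φ : (σ.sum σ').BoundedFormula Empty n)
    (c : (ordCls σ).ι) (γ₀ : (Σ n, σ'.Relations n) × (Fin N → (ordCls σ).car c) → Bool)
    (x : Fin n → (ordCls σ).car c) : Prop :=
  @BoundedFormula.Realize (σ.sum σ') ((ordCls σ).car c)
    (@sumStructure σ σ' ((ordCls σ).car c) c.1.str (strOf hσ' c γ₀)) Empty n φ
    (fun e => e.elim) x

theorem term_var {L : FirstOrder.Language.{0, 0}} (hL : L.IsRelational) {n : ℕ}
    (t : L.Term (Empty ⊕ Fin n)) : ∃ i : Fin n, t = Term.var (Sum.inr i) := by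
  cases t with
  | var x =>
    rcases x with e | i
    · exact e.elim
    · exact ⟨i, rfl⟩
  | func f _ => exact ((hL _).false f).elim

theorem enc_formula (hσ : σ.IsRelational) (hσ' : FinRel σ') {n : ℕ}
    (φ : (σ.sum σ').BoundedFormula Empty n) :
    ∀ hn : bd φ ≤ N, Enc (σ := σ) (N := N) (B := Σ n, σ'.Relations n) (fun c γ₀ v =>
      Real hσ'.1 φ c γ₀ (fun i => v (Fin.castLE ((le_bd φ).trans hn) i))) := by
  have hrel : (σ.sum σ').IsRelational := fun n =>
    ⟨fun f => by
      rcases f with f | f
      · exact (hσ n).false f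
      · exact (hσ'.1 n).false f⟩
  have hB : Finite (Σ n, σ'.Relations n) := hσ'.2
  induction φ with
  | falsum =>
    intro hn
    refine (Enc.ofDef (UDef.const (𝒞 := ordCls σ) False)).congr fun c γ v => ?_
    exact Iff.rfl
  | @equal n t₁ t₂ =>
    intro hn
    obtain ⟨i, rfl⟩ := term_var hrel t₁
    obtain ⟨j, rfl⟩ := term_var hrel t₂
    refine (Enc.ofDef (UDef.eq (𝒞 := ordCls σ) (Fin.castLE hn i) (Fin.castLE hn j))).congr
      fun c γ v => ?_
    exact Iff.rfl
  | @rel n l R ts =>
    intro hn
    have hts : ∀ k, ∃ i, ts k = Term.var (Sum.inr i) := fun k => term_var hrel (ts k)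
    choose t ht using hts
    obtain rfl : ts = fun k => Term.var (Sum.inr (t k)) := funext ht
    rcases R with R | R
    · refine (Enc.ofDef (UDef.srel (σ := σ) R (fun k => Fin.castLE hn (t k)))).congr
        fun c γ v => ?_
      exact Iff.rfl
    · refine (Enc.atom (σ := σ) (B := Σ n, σ'.Relations n) ⟨l, R⟩
        (DefMap.pad (fun k => Fin.castLE hn (t k)))).congr fun c γ v => ?_
      exact Iff.rfl
  | @imp n φ ψ h1 h2 =>
    intro hn
    exact (Enc.imp (h1 ((le_max_left _ _).trans hn)) (h2 ((le_max_right _ _).trans hn))).congr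
      fun c γ v => Iff.rfl
  | @all n φ ih =>
    intro hn
    have hn' : bd φ ≤ N := hn
    have hlt : n < N := lt_of_lt_of_le (Nat.lt_succ_self n) ((le_bd φ).trans hn')
    refine (Enc.all ⟨n, hlt⟩ (ih hn')).congr fun c γ v => ?_
    refine forall_congr' fun x => ?_
    have : (fun i : Fin (n + 1) => Function.update v (⟨n, hlt⟩ : Fin N) x
        (Fin.castLE ((le_bd φ).trans hn') i)) =
        Fin.snoc (α := fun _ => (ordCls σ).car c)
          (fun i : Fin n => v (Fin.castLE (Nat.le_of_lt hlt) i)) x := by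
      funext i
      refine Fin.lastCases ?_ (fun i => ?_) i
      · rw [Fin.snoc_last]
        have : Fin.castLE ((le_bd φ).trans hn') (Fin.last n) = (⟨n, hlt⟩ : Fin N) := rfl
        rw [this, Function.update_self]
      · rw [Fin.snoc_castSucc]
        rw [Function.update_of_ne]
        · rfl
        · intro h
          have := congrArg Fin.val h
          simp at this
          omega
    rw [this]
    exact Iff.rfl

/-- Uniform 3-CNF encoding of NP problems. -/
theorem np_cnf (hσ : σ.IsRelational) {K' : Prob σ} (hK : InNP K') :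
    ∃ (N : ℕ) (K J : Type) (_ : Finite K) (_ : Finite J) (_ : Nonempty J)
      (lit : J → Fin 3 → LitF σ N K), (∀ j p, DefLit (lit j p)) ∧
      ∀ c : (ordCls σ).ι, K' c.1 ↔ ∃ γ, SatF lit c γ := by
  classical
  obtain ⟨σ', hσ', φ, hφ⟩ := hK
  have hfin := hσ'.2
  -- bound on arities
  have hfin' := Fintype.ofFinite (Σ n, σ'.Relations n)
  let N := max (bd φ) (Finset.univ.sup (fun r : Σ n, σ'.Relations n => r.1))
  have hN1 : bd φ ≤ N := le_max_left _ _
  have hN2 : ∀ n (R : σ'.Relations n), n ≤ N := fun n R =>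
    (Finset.le_sup (f := fun r : Σ n, σ'.Relations n => r.1)
      (Finset.mem_univ (⟨n, R⟩ : Σ n, σ'.Relations n))).trans (le_max_right _ _)
  obtain ⟨I, J, hI, hJ, lit, ref, h1, h2, h3⟩ := enc_formula (N := N) hσ hσ' φ hN1
  refine ⟨N, (Σ n, σ'.Relations n) ⊕ I, J ⊕ Unit, inferInstance, inferInstance, inferInstance,
    Sum.elim lit (fun _ _ => ref), ?_, ?_⟩
  · rintro (j | j) p
    · exact h1 j p
    · exact h2
  · intro c
    have hsat : ∀ γ, SatF (Sum.elim lit (fun (_ : Unit) _ => ref)) c γ ↔
        (SatF lit c γ ∧ ∀ v, holds γ (ref c v)) := by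
      intro γ
      unfold SatF
      rw [Sum.forall]
      refine and_congr Iff.rfl ?_
      constructor
      · intro h v
        obtain ⟨p, hp⟩ := h () v
        exact hp
      · intro h u v
        exact ⟨0, h v⟩
    have hne : Nonempty (Fin N → (ordCls σ).car c) := inferInstance
    rw [hφ c.1]
    constructor
    · rintro ⟨s, hs⟩
      let γ₀ : (Σ n, σ'.Relations n) × (Fin N → (ordCls σ).car c) → Bool := fun x =>
        decide (@Structure.RelMap σ' _ s _ x.1.2 (fun i => x.2 (Fin.castLE (hN2 _ x.1.2) i)))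
      have hstr : strOf (σ := σ) hσ'.1 c γ₀ = s := by
        apply Structure.ext
        · funext n f
          exact ((hσ'.1 n).false f).elim
        · funext n R x
          change (γ₀ (⟨n, R⟩, padT N c x) = true) = @Structure.RelMap σ' _ s _ R x
          simp only [γ₀, decide_eq_true_eq]
          congr 1
          funext i
          have hi : (Fin.castLE (hN2 n R) i).1 < n := i.2
          simp only [padT, dif_pos hi]
          rfl
      obtain ⟨γ, hγ, hsatγ⟩ := (h3 c).1 γ₀
      refine ⟨γ, (hsat γ).2 ⟨hsatγ, fun v => ?_⟩⟩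
      refine ((h3 c).2 γ hsatγ v).2 ?_
      rw [hγ]
      change Real hσ'.1 φ c γ₀ (fun i => v (Fin.castLE ((le_bd φ).trans hN1) i))
      unfold Real
      rw [hstr]
      have e1 : (fun e : Empty => (e.elim : (ordCls σ).car c)) = default := Subsingleton.elim _ _
      have e2 : (fun i : Fin 0 => v (Fin.castLE ((le_bd φ).trans hN1) i)) = default :=
        Subsingleton.elim _ _
      rw [e1, e2]
      exact hs
    · rintro ⟨γ, hγ⟩
      obtain ⟨s1, s2⟩ := (hsat γ).1 hγ
      refine ⟨strOf (σ := σ) hσ'.1 c (pull Sum.inl γ), ?_⟩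
      obtain ⟨v⟩ := hne
      have s3 := ((h3 c).2 γ s1 v).1 (s2 v)
      have s4 : Real hσ'.1 φ c (pull Sum.inl γ)
        (fun i => v (Fin.castLE ((le_bd φ).trans hN1) i)) := s3
      unfold Real at s4
      have e1 : (fun e : Empty => (e.elim : (ordCls σ).car c)) = default := Subsingleton.elim _ _
      have e2 : (fun i : Fin 0 => v (Fin.castLE ((le_bd φ).trans hN1) i)) = default :=
        Subsingleton.elim _ _
      rw [e1, e2] at s4
      exact s4

end Pool.Agent.H92.Desc
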