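import Pool.Agent.H92.Desc.SatV
import Pool.Agent.H92.Desc.NPEnc
import Pool.Agent.H92.Desc.PSpace
import Pool.Agent.H92.Click.Rank

/-!
Uniform CNF encodings of the alternating games that define PSPACE.
-/

set_option linter.unusedSectionVars false

namespace Pool.Agent.H92.Desc.V

open FirstOrder FirstOrder.Language

variable {σ : FirstOrder.Language.{0, 0}} {ν : Type} [Finite ν] [DecidableEq ν]

/-! Boolean combinations -/

section bool

variable {B : Type} {Φ Ψ : ∀ c : (ordCls σ).ι, (B × (ν → (ordCls σ).car c) → Bool) →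
      (ν → (ordCls σ).car c) → Prop}

theorem Enc.not [Finite B] (h : Enc Φ) : Enc (fun c γ v => ¬ Φ c γ v) :=
  (h.imp (Enc.ofDef (UDef.const False))).congr fun _ _ _ => Iff.rfl

theorem Enc.or [Finite B] (h : Enc Φ) (h' : Enc Ψ) : Enc (fun c γ v => Φ c γ v ∨ Ψ c γ v) :=
  (h.not.imp h').congr fun c γ v => by tauto

theorem Enc.and [Finite B] (h : Enc Φ) (h' : Enc Ψ) : Enc (fun c γ v => Φ c γ v ∧ Ψ c γ v) :=
  (h.imp h'.not).not.congr fun c γ v => by tauto

theorem Enc.allS [Finite B] (C : Finset ν) (h : Enc Φ) :
    Enc (fun c γ v => ∀ v', (∀ n ∉ C, v' n = v n) → Φ c γ v') := by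
  induction C using Finset.induction_on with
  | empty =>
    refine h.congr fun c γ v => ⟨fun h v' hv' => ?_, fun h => h v fun _ _ => rfl⟩
    have : v' = v := funext fun n => hv' n (by simp)
    rwa [this]
  | insert a C _ ih =>
    refine (Enc.all a ih).congr fun c γ v => ⟨fun h v' hv' => ?_, fun h x v' hv' => ?_⟩
    · refine h (v' a) v' fun n hn => ?_
      by_cases hna : n = a
      · subst hna
        rw [Function.update_self]
      · rw [Function.update_of_ne hna]
        exact hv' n (by simp [hna, hn])
    · refine h v' fun n hn => ?_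
      rw [Finset.mem_insert, not_or] at hn
      rw [hv' n hn.2, Function.update_of_ne hn.1]

end bool

/-! formulas -/

section formula

variable {L' : FirstOrder.Language.{0, 0}} {B : Type} [Finite B] {m : ℕ} (q : Fin m → ν)
  (hq : Function.Injective q)
  (At : ∀ c : (ordCls σ).ι, (B × (ν → (ordCls σ).car c) → Bool) → (ν → (ordCls σ).car c) →
    L'.Structure ((ordCls σ).car c))

/-- realization -/
def RealA {n : ℕ} (φ : ((σ.sum FirstOrder.Language.order).sum L').BoundedFormula Empty n)
    (c : (ordCls σ).ι) (γ : B × (ν → (ordCls σ).car c) → Bool) (v : ν → (ordCls σ).car c)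
    (x : Fin n → (ordCls σ).car c) : Prop :=
  @BoundedFormula.Realize ((σ.sum FirstOrder.Language.order).sum L') ((ordCls σ).car c)
    (@sumStructure (σ.sum FirstOrder.Language.order) L' ((ordCls σ).car c)
      (ordStr c.1.str c.2) (At c γ v)) Empty n φ (fun e => e.elim) x

include hq

theorem enc_formula' (hσ : σ.IsRelational) (hL' : L'.IsRelational)
    (hat : ∀ {n : ℕ} (R : L'.Relations n) (t : Fin n → Fin m), Enc (σ := σ) (B := B)
      (fun c γ v => @Structure.RelMap L' _ (At c γ v) _ R (fun k => v (q (t k)))))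
    (hinv : ∀ c γ v i x, At c γ (Function.update v (q i) x) = At c γ v) {n : ℕ}
    (φ : ((σ.sum FirstOrder.Language.order).sum L').BoundedFormula Empty n) :
    ∀ hn : bd φ ≤ m, Enc (σ := σ) (B := B) (fun c γ v =>
      RealA At φ c γ v (fun i => v (q (Fin.castLE ((le_bd φ).trans hn) i)))) := by
  have hrel : ((σ.sum FirstOrder.Language.order).sum L').IsRelational := fun n =>
    ⟨fun f => by
      rcases f with (f | f) | f
      · exact (hσ n).false f
      · exact f.elim
      · exact (hL' n).false f⟩
  induction φ with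
  | falsum =>
    intro hn
    refine (Enc.ofDef (UDef.const (𝒞 := ordCls σ) False)).congr fun c γ v => ?_
    exact Iff.rfl
  | @equal n t₁ t₂ =>
    intro hn
    obtain ⟨i, rfl⟩ := term_var hrel t₁
    obtain ⟨j, rfl⟩ := term_var hrel t₂
    refine (Enc.ofDef (UDef.eq (𝒞 := ordCls σ) (q (Fin.castLE hn i))
      (q (Fin.castLE hn j)))).congr fun c γ v => ?_
    exact Iff.rfl
  | @rel n l R ts =>
    intro hn
    have hts : ∀ k, ∃ i, ts k = Term.var (Sum.inr i) := fun k => term_var hrel (ts k)
    choose t ht using hts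
    obtain rfl : ts = fun k => Term.var (Sum.inr (t k)) := funext ht
    rcases R with R | R
    · refine (Enc.ofDef (UDef.rel (𝒞 := ordCls σ) R (fun k => q (Fin.castLE hn (t k))))).congr
        fun c γ v => ?_
      exact Iff.rfl
    · refine (hat R (fun k => Fin.castLE hn (t k))).congr fun c γ v => ?_
      exact Iff.rfl
  | @imp n φ ψ h1 h2 =>
    intro hn
    exact (Enc.imp (h1 ((le_max_left _ _).trans hn)) (h2 ((le_max_right _ _).trans hn))).congr
      fun c γ v => Iff.rfl
  | @all n φ ih =>
    intro hn
    have hn' : bd φ ≤ m := hn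
    have hlt : n < m := lt_of_lt_of_le (Nat.lt_succ_self n) ((le_bd φ).trans hn')
    refine (Enc.all (q ⟨n, hlt⟩) (ih hn')).congr fun c γ v => ?_
    refine forall_congr' fun x => ?_
    have : (fun i : Fin (n + 1) => Function.update v (q ⟨n, hlt⟩) x
        (q (Fin.castLE ((le_bd φ).trans hn') i))) =
        Fin.snoc (α := fun _ => (ordCls σ).car c)
          (fun i : Fin n => v (q (Fin.castLE (Nat.le_of_lt hlt) i))) x := by
      funext i
      refine Fin.lastCases ?_ (fun i => ?_) i
      · rw [Fin.snoc_last]
        have : Fin.castLE ((le_bd φ).trans hn') (Fin.last n) = (⟨n, hlt⟩ : Fin m) := rfl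
        rw [this, Function.update_self]
      · rw [Fin.snoc_castSucc]
        rw [Function.update_of_ne]
        · rfl
        · intro h
          have := congrArg Fin.val (hq h)
          simp at this
          omega
    unfold RealA at ih ⊢
    rw [this, hinv]

end formula

end Pool.Agent.H92.Desc.V
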