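import Pool.Agent.H92.Desc.AltTr

/-!
Alternating games as quantified Boolean formulas.
-/

set_option linter.unusedSectionVars false

namespace Pool.Agent.H92.Desc.V

open FirstOrder FirstOrder.Language Click Classical

/-! quantifying variables one after the other -/

section QQ

variable {V : Type}

/-- quantifying the variables of the list one after the other; `side p = true` means that `p` is
universally quantified -/
def QQ (side : V → Bool) (F : (V → Bool) → Prop) : List V → (V → Bool) → Prop
  | [], γ => F γ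
  | p :: P, γ => if side p = true then ∀ b, QQ side F P (Function.update γ p b)
      else ∃ b, QQ side F P (Function.update γ p b)

variable {side : V → Bool} {F : (V → Bool) → Prop}

theorem QQ_append (P P' : List V) (γ : V → Bool) :
    QQ side F (P ++ P') γ ↔ QQ side (QQ side F P') P γ := by
  induction P generalizing γ with
  | nil => exact Iff.rfl
  | cons p P ih =>
    rw [List.cons_append]
    unfold QQ
    split_ifs
    · exact forall_congr' fun b => ih _
    · exact exists_congr fun b => ih _

theorem QQ_congr {F' : (V → Bool) → Prop} (h : ∀ γ, F γ ↔ F' γ) (P : List V) (γ : V → Bool) :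
    QQ side F P γ ↔ QQ side F' P γ := by
  have : F = F' := funext fun γ => propext (h γ)
  rw [this]

theorem QQ_ex {P : List V} (hP : ∀ p ∈ P, side p = false) (γ : V → Bool) :
    QQ side F P γ ↔ ∃ γ', (∀ p, p ∉ P → γ' p = γ p) ∧ F γ' := by
  induction P generalizing γ with
  | nil =>
    constructor
    · exact fun h => ⟨γ, fun _ _ => rfl, h⟩
    · rintro ⟨γ', h1, h2⟩
      have : γ' = γ := funext fun p => h1 p (by simp)
      rwa [this] at h2
  | cons p P ih =>
    have hp : ¬ side p = true := by simp [hP p (by simp)]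
    unfold QQ
    rw [if_neg hp]
    constructor
    · rintro ⟨b, hb⟩
      obtain ⟨γ', h1, h2⟩ := (ih (fun p' hp' => hP p' (by simp [hp'])) _).1 hb
      refine ⟨γ', fun p' hp' => ?_, h2⟩
      rw [List.mem_cons, not_or] at hp'
      rw [h1 p' hp'.2, Function.update_of_ne hp'.1]
    · rintro ⟨γ', h1, h2⟩
      refine ⟨γ' p, (ih (fun p' hp' => hP p' (by simp [hp'])) _).2 ⟨γ', fun p' hp' => ?_, h2⟩⟩
      by_cases h : p' = p
      · subst h
        rw [Function.update_self]
      · rw [Function.update_of_ne h]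
        exact h1 p' (by simp [h, hp'])

theorem QQ_all {P : List V} (hP : ∀ p ∈ P, side p = true) (γ : V → Bool) :
    QQ side F P γ ↔ ∀ γ', (∀ p, p ∉ P → γ' p = γ p) → F γ' := by
  induction P generalizing γ with
  | nil =>
    constructor
    · intro h γ' h1
      have : γ' = γ := funext fun p => h1 p (by simp)
      rwa [this]
    · exact fun h => h γ fun _ _ => rfl
  | cons p P ih =>
    have hp : side p = true := hP p (by simp)
    unfold QQ
    rw [if_pos hp]
    constructor
    · intro h γ' h1
      refine (ih (fun p' hp' => hP p' (by simp [hp'])) _).1 (h (γ' p)) γ' fun p' hp' => ?_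
      by_cases h : p' = p
      · subst h
        rw [Function.update_self]
      · rw [Function.update_of_ne h]
        exact h1 p' (by simp [h, hp'])
    · intro h b
      refine (ih (fun p' hp' => hP p' (by simp [hp'])) _).2 fun γ' h1 => ?_
      refine h γ' fun p' hp' => ?_
      rw [List.mem_cons, not_or] at hp'
      rw [h1 p' hp'.2, Function.update_of_ne hp'.1]

end QQ

/-! the rounds -/

variable {σ σ' : FirstOrder.Language.{0, 0}} (hσ' : σ'.IsRelational) (m s : ℕ)
  (φ : ((σ.sum FirstOrder.Language.order).sum (σ'.sum σ')).Sentence)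

theorem blk_canon (c : (ordCls σ).ι) {n : ℕ} (x : Fin n → (ordCls σ).car c)
    (j : Fin s → (ordCls σ).car c) : blk 0 (canon m s c x j) = j := by
  funext i
  simp [blk, canon]

theorem tstr_congr {c : (ordCls σ).ι} {γ γ' : BS σ' × (Nu m s → (ordCls σ).car c) → Bool}
    {h : Bool} {j : Fin s → (ordCls σ).car c}
    (hh : ∀ R w, blk 0 w = j → γ' ((R, h), w) = γ ((R, h), w)) :
    tstr hσ' m s c γ' h j = tstr hσ' m s c γ h j := by
  apply Structure.ext
  · funext n f
    exact ((hσ' n).false f).elim
  · funext n R x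
    change (γ' ((⟨n, R⟩, h), canon m s c x j) = true) = (γ ((⟨n, R⟩, h), canon m s c x j) = true)
    rw [hh _ _ (blk_canon m s c x j)]

/-- `R` is the position before round `j` -/
def Cur (c : (ordCls σ).ι) (γ : BS σ' × (Nu m s → (ordCls σ).car c) → Bool)
    (j : Fin s → (ordCls σ).car c) (R : σ'.Structure ((ordCls σ).car c)) : Prop :=
  ((∀ z, ¬ lexLt z j) → R = emptyStr hσ' _) ∧
    ∀ i, IsPred lexLt i j → R = tstr hσ' m s c γ true i

variable {m s} in
theorem VE_iff {c : (ordCls σ).ι} {γ : BS σ' × (Nu m s → (ordCls σ).car c) → Bool}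
    {j : Fin s → (ordCls σ).car c} {R : σ'.Structure ((ordCls σ).car c)}
    (h : Cur hσ' m s c γ j R) :
    VE hσ' m s φ c γ j ↔ ¬ stepRel φ c.1 c.2 R (tstr hσ' m s c γ false j) := by
  constructor
  · rintro (⟨h1, h2⟩ | ⟨i, h1, h2⟩)
    · rwa [h.1 h1]
    · rwa [h.2 i h1]
  · intro h1
    by_cases h2 : ∀ z, ¬ lexLt z j
    · refine Or.inl ⟨h2, ?_⟩
      rw [h.1 h2] at h1
      exact h1
    · push Not at h2
      obtain ⟨z, hz⟩ := h2
      obtain ⟨i, _, hi, hi'⟩ := (slo_lexLt (s := s) (A := (ordCls σ).car c)).exists_pred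
        Set.univ ⟨z, trivial, hz⟩
      have hp : IsPred lexLt i j := ⟨hi, fun z => hi' z trivial⟩
      exact Or.inr ⟨i, hp, by rwa [← h.2 i hp]⟩

/-- coding a structure in a transcript -/
noncomputable def code {I : Type} (c : (ordCls σ).ι)
    (γ : (BS σ' ⊕ I) × (Nu m s → (ordCls σ).car c) → Bool) (h : Bool)
    (j : Fin s → (ordCls σ).car c) (R : σ'.Structure ((ordCls σ).car c)) :
    (BS σ' ⊕ I) × (Nu m s → (ordCls σ).car c) → Bool := fun p =>
  match p with
  | (.inl (⟨n, S⟩, h'), w) => if h' = h ∧ blk 0 w = j then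
      decide (∃ x : Fin n → (ordCls σ).car c, @Structure.RelMap σ' _ R _ S x ∧
        w = canon m s c x j) else γ (.inl (⟨n, S⟩, h'), w)
  | (.inr i, w) => γ (.inr i, w)

theorem canon_inj (hm : ∀ n (_ : σ'.Relations n), n ≤ m) (c : (ordCls σ).ι) {n : ℕ}
    (S : σ'.Relations n) {x x' : Fin n → (ordCls σ).car c} {j : Fin s → (ordCls σ).car c}
    (h : canon m s c x j = canon m s c x' j) : x = x' := by
  funext i
  have h1 := congrFun h (Sum.inl (Fin.castLE (hm n S) i))
  have h2 : (Fin.castLE (hm n S) i).1 < n := i.2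
  simp only [canon, Sum.elim_inl, padT, dif_pos h2] at h1
  exact h1

theorem tstr_code {I : Type} (hm : ∀ n (_ : σ'.Relations n), n ≤ m) (c : (ordCls σ).ι)
    (γ : (BS σ' ⊕ I) × (Nu m s → (ordCls σ).car c) → Bool) (h : Bool)
    (j : Fin s → (ordCls σ).car c) (R : σ'.Structure ((ordCls σ).car c)) :
    tstr hσ' m s c (pull Sum.inl (code m s c γ h j R)) h j = R := by
  apply Structure.ext
  · funext n f
    exact ((hσ' n).false f).elim
  · funext n S x
    change (code m s c γ h j R (.inl (⟨n, S⟩, h), canon m s c x j) = true) = _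
    unfold code
    simp only [blk_canon, and_self, if_true, decide_eq_true_eq, eq_iff_iff]
    constructor
    · rintro ⟨x', h1, h2⟩
      rwa [canon_inj m s hm c S h2]
    · intro h1
      exact ⟨x, h1, rfl⟩

variable {I : Type}

/-- the player that owns a variable -/
def side {A : Type} : (BS σ' ⊕ I) × (Nu m s → A) → Bool
  | (.inl (_, h), _) => h
  | (.inr _, _) => false

theorem rounds (hm : ∀ n (_ : σ'.Relations n), n ≤ m) (c : (ordCls σ).ι)
    (L : Bool → (Fin s → (ordCls σ).car c) → List ((BS σ' ⊕ I) × (Nu m s → (ordCls σ).car c)))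
    (hL : ∀ h j p, p ∈ L h j ↔ ∃ R w, p = (.inl (R, h), w) ∧ blk 0 w = j) :
    ∀ js : List (Fin s → (ordCls σ).car c), js.Pairwise lexLt →
      (∀ i, i ∉ js → ∀ j ∈ js, lexLt i j) →
      ∀ γ : (BS σ' ⊕ I) × (Nu m s → (ordCls σ).car c) → Bool,
      ((∃ i, i ∉ js ∧ VA hσ' m s φ c (pull Sum.inl γ) i ∧
          ∀ i', (i' = i ∨ lexLt i' i) → ¬ VE hσ' m s φ c (pull Sum.inl γ) i') →
        QQ (side m s) (fun γ => WT hσ' m s φ c (pull Sum.inl γ))
          (js.flatMap fun j => L false j ++ L true j) γ) ∧
      ((∃ i, i ∉ js ∧ VE hσ' m s φ c (pull Sum.inl γ) i ∧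
          ∀ i', lexLt i' i → ¬ VA hσ' m s φ c (pull Sum.inl γ) i') →
        ¬ QQ (side m s) (fun γ => WT hσ' m s φ c (pull Sum.inl γ))
          (js.flatMap fun j => L false j ++ L true j) γ) ∧
      ((∀ i, i ∉ js → ¬ VE hσ' m s φ c (pull Sum.inl γ) i ∧
          ¬ VA hσ' m s φ c (pull Sum.inl γ) i) →
        ∀ R, (∀ j js', js = j :: js' → Cur hσ' m s c (pull Sum.inl γ) j R) →
          (QQ (side m s) (fun γ => WT hσ' m s φ c (pull Sum.inl γ))
            (js.flatMap fun j => L false j ++ L true j) γ ↔
            GWin (stepRel φ c.1 c.2) js.length R)) := by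
  have hslo := slo_lexLt (s := s) (A := (ordCls σ).car c)
  intro js
  induction js with
  | nil =>
    intro _ _ γ
    refine ⟨?_, ?_, ?_⟩
    · rintro ⟨i, _, h1, h2⟩
      exact ⟨i, h1, h2⟩
    · rintro ⟨i, _, h1, h2⟩ ⟨j, h3, h4⟩
      refine h4 i ?_ h1
      rcases hslo.tri i j with h5 | h5 | h5
      · exact Or.inr h5
      · exact Or.inl h5
      · exact absurd h3 (h2 j h5)
    · intro h1 R _
      constructor
      · rintro ⟨j, h3, _⟩
        exact absurd h3 (h1 j (by simp)).2
      · exact fun h => h.elim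
  | cons j js ih =>
    intro hp hlow γ
    have hj : ∀ i ∈ js, lexLt j i := (List.pairwise_cons.1 hp).1
    have hjn : j ∉ js := fun h => hslo.irr _ (hj _ h)
    have hlow' : ∀ i, i ∉ js → ∀ j' ∈ js, lexLt i j' := by
      intro i hi j' hj'
      by_cases h : i = j
      · rw [h]
        exact hj _ hj'
      · exact hlow i (by simp [h, hi]) j' (by simp [hj'])
    have hIH := ih (List.pairwise_cons.1 hp).2 hlow'
    -- unfold the two blocks
    have hQ : QQ (side m s) (fun γ => WT hσ' m s φ c (pull Sum.inl γ))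
        ((j :: js).flatMap fun j => L false j ++ L true j) γ ↔
        ∃ γ' : (BS σ' ⊕ I) × (Nu m s → (ordCls σ).car c) → Bool,
          (∀ p, p ∉ L false j → γ' p = γ p) ∧
          ∀ γ'' : (BS σ' ⊕ I) × (Nu m s → (ordCls σ).car c) → Bool,
            (∀ p, p ∉ L true j → γ'' p = γ' p) →
          QQ (side m s) (fun γ => WT hσ' m s φ c (pull Sum.inl γ))
            (js.flatMap fun j => L false j ++ L true j) γ'' := by
      rw [List.flatMap_cons, QQ_append, QQ_append]
      rw [QQ_ex]
      · refine exists_congr fun γ' => and_congr_right fun _ => ?_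
        rw [QQ_all]
        intro p hp
        obtain ⟨R, w, rfl, _⟩ := (hL _ _ _).1 hp
        rfl
      · intro p hp
        obtain ⟨R, w, rfl, _⟩ := (hL _ _ _).1 hp
        rfl
    -- structures that do not change
    have hsame : ∀ γ' γ'' : (BS σ' ⊕ I) × (Nu m s → (ordCls σ).car c) → Bool,
        (∀ p, p ∉ L false j → γ' p = γ p) → (∀ p, p ∉ L true j → γ'' p = γ' p) →
        (∀ h i, i ≠ j → tstr hσ' m s c (pull Sum.inl γ'') h i =
          tstr hσ' m s c (pull Sum.inl γ) h i) ∧
        tstr hσ' m s c (pull Sum.inl γ'') false j = tstr hσ' m s c (pull Sum.inl γ') false j := by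
      intro γ' γ'' h1 h2
      constructor
      · intro h i hij
        refine tstr_congr hσ' m s fun R w hw => ?_
        change γ'' (.inl (R, h), w) = γ (.inl (R, h), w)
        rw [h2, h1]
        · intro hc
          obtain ⟨R', w', h3, h4⟩ := (hL _ _ _).1 hc
          simp only [Prod.mk.injEq] at h3
          exact hij (by rw [← hw, h3.2, h4])
        · intro hc
          obtain ⟨R', w', h3, h4⟩ := (hL _ _ _).1 hc
          simp only [Prod.mk.injEq] at h3
          exact hij (by rw [← hw, h3.2, h4])
      · refine tstr_congr hσ' m s fun R w hw => ?_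
        change γ'' (.inl (R, false), w) = γ' (.inl (R, false), w)
        refine h2 _ fun hc => ?_
        obtain ⟨R', w', h3, h4⟩ := (hL _ _ _).1 hc
        simp at h3
    have hlt_ne : ∀ i, i ∉ j :: js → i ≠ j ∧ (∀ i', lexLt i' i → i' ≠ j) := by
      intro i hi
      have h1 := hlow i hi j (by simp)
      refine ⟨fun h => hslo.irr _ (h ▸ h1), fun i' hi' h => ?_⟩
      subst h
      exact hslo.irr _ (hslo.tr _ _ _ h1 hi')
    have hVA : ∀ γ' γ'' : (BS σ' ⊕ I) × (Nu m s → (ordCls σ).car c) → Bool,
        (∀ p, p ∉ L false j → γ' p = γ p) → (∀ p, p ∉ L true j → γ'' p = γ' p) →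
        ∀ i, i ≠ j → (VA hσ' m s φ c (pull Sum.inl γ'') i ↔
          VA hσ' m s φ c (pull Sum.inl γ) i) := by
      intro γ' γ'' h1 h2 i hi
      unfold VA
      rw [(hsame γ' γ'' h1 h2).1 _ i hi, (hsame γ' γ'' h1 h2).1 _ i hi]
    have hVE : ∀ γ' γ'' : (BS σ' ⊕ I) × (Nu m s → (ordCls σ).car c) → Bool,
        (∀ p, p ∉ L false j → γ' p = γ p) → (∀ p, p ∉ L true j → γ'' p = γ' p) →
        ∀ i, i ∉ j :: js → (VE hσ' m s φ c (pull Sum.inl γ'') i ↔
          VE hσ' m s φ c (pull Sum.inl γ) i) := by
      intro γ' γ'' h1 h2 i hi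
      unfold VE
      rw [(hsame γ' γ'' h1 h2).1 _ i (hlt_ne i hi).1]
      refine or_congr Iff.rfl (exists_congr fun i' => and_congr_right fun hi' => ?_)
      rw [(hsame γ' γ'' h1 h2).1 _ i' ((hlt_ne i hi).2 i' hi'.1)]
    have hdown : ∀ i, i ∉ j :: js → ∀ i', lexLt i' i → i' ∉ j :: js := by
      intro i hi i' hi' hc
      exact hslo.irr _ (hslo.tr _ _ _ hi' (hlow i hi i' hc))
    refine ⟨?_, ?_, ?_⟩
    · rintro ⟨i, hi, h1, h2⟩
      rw [hQ]
      refine ⟨γ, fun _ _ => rfl, fun γ'' hγ'' => (hIH γ'').1 ⟨i, ?_, ?_, ?_⟩⟩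
      · exact fun h => hi (by simp [h])
      · rwa [hVA γ γ'' (fun _ _ => rfl) hγ'' i (hlt_ne i hi).1]
      · intro i' hi'
        have hi'' : i' ∉ j :: js := by
          rcases hi' with rfl | hi'
          · exact hi
          · exact hdown i hi i' hi'
        rw [hVE γ γ'' (fun _ _ => rfl) hγ'' i' hi'']
        exact h2 i' hi'
    · rintro ⟨i, hi, h1, h2⟩ hcon
      rw [hQ] at hcon
      obtain ⟨γ', hγ', hcon⟩ := hcon
      refine (hIH γ').2.1 ⟨i, fun h => hi (by simp [h]), ?_, ?_⟩ (hcon γ' fun _ _ => rfl)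
      · rwa [hVE γ' γ' hγ' (fun _ _ => rfl) i hi]
      · intro i' hi'
        rw [hVA γ' γ' hγ' (fun _ _ => rfl) i' ((hlt_ne i hi).2 i' hi')]
        exact h2 i' hi'
    · intro hno R hR
      have hcur := hR j js rfl
      have hcur' : ∀ γ' γ'' : (BS σ' ⊕ I) × (Nu m s → (ordCls σ).car c) → Bool,
          (∀ p, p ∉ L false j → γ' p = γ p) → (∀ p, p ∉ L true j → γ'' p = γ' p) →
          Cur hσ' m s c (pull Sum.inl γ'') j R := by
        intro γ' γ'' h1 h2
        refine ⟨hcur.1, fun i hi => ?_⟩
        rw [(hsame γ' γ'' h1 h2).1 _ i (fun h => hslo.irr _ (h ▸ hi.1))]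
        exact hcur.2 i hi
      have hless : ∀ i, lexLt i j → i ∉ j :: js := by
        intro i hi hc
        rcases List.mem_cons.1 hc with h | h
        · exact hslo.irr _ (h ▸ hi)
        · exact hslo.irr _ (hslo.tr _ _ _ hi (hj i h))
      -- the situation after a correct round
      have hnext : ∀ γ' γ'' : (BS σ' ⊕ I) × (Nu m s → (ordCls σ).car c) → Bool,
          (∀ p, p ∉ L false j → γ' p = γ p) → (∀ p, p ∉ L true j → γ'' p = γ' p) →
          stepRel φ c.1 c.2 R (tstr hσ' m s c (pull Sum.inl γ') false j) →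
          stepRel φ c.1 c.2 (tstr hσ' m s c (pull Sum.inl γ') false j)
            (tstr hσ' m s c (pull Sum.inl γ'') true j) →
          (QQ (side m s) (fun γ => WT hσ' m s φ c (pull Sum.inl γ))
            (js.flatMap fun j => L false j ++ L true j) γ'' ↔
            GWin (stepRel φ c.1 c.2) js.length (tstr hσ' m s c (pull Sum.inl γ'') true j)) := by
        intro γ' γ'' h1 h2 s1 s2
        refine (hIH γ'').2.2 ?_ _ ?_
        · intro i hi
          by_cases hij : i = j
          · subst hij
            constructor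
            · rw [VE_iff hσ' φ (hcur' γ' γ'' h1 h2), (hsame γ' γ'' h1 h2).2, not_not]
              exact s1
            · unfold VA
              rw [(hsame γ' γ'' h1 h2).2, not_not]
              exact s2
          · have hi' : i ∉ j :: js := by simp [hij, hi]
            rw [hVE γ' γ'' h1 h2 i hi', hVA γ' γ'' h1 h2 i hij]
            exact hno i hi'
        · rintro j' js' rfl
          have hjj' : IsPred lexLt j j' := by
            refine ⟨hj j' (by simp), fun z ⟨hz1, hz2⟩ => ?_⟩
            by_cases hz : z ∈ js'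
            · have := (List.pairwise_cons.1 (List.pairwise_cons.1 hp).2).1 z hz
              exact hslo.irr _ (hslo.tr _ _ _ this hz2)
            · have h3 : z ≠ j := fun h => hslo.irr _ (h ▸ hz1)
              have h4 : z ≠ j' := fun h => hslo.irr _ (h ▸ hz2)
              have := hlow z (by simp [h3, h4, hz]) j (by simp)
              exact hslo.irr _ (hslo.tr _ _ _ this hz1)
          refine ⟨fun h => absurd hjj'.1 (h j), fun i hi => ?_⟩
          have : i = j := by
            rcases hslo.tri i j with h | h | h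
            · exact absurd ⟨h, hjj'.1⟩ (hi.2 j)
            · exact h
            · exact absurd ⟨h, hi.1⟩ (hjj'.2 i)
          rw [this]
      rw [hQ, List.length_cons]
      constructor
      · rintro ⟨γ', h1, h2⟩
        have s1 : stepRel φ c.1 c.2 R (tstr hσ' m s c (pull Sum.inl γ') false j) := by
          by_contra hcon
          refine (hIH γ').2.1 ⟨j, hjn, ?_, ?_⟩ (h2 γ' fun _ _ => rfl)
          · rw [VE_iff hσ' φ (hcur' γ' γ' h1 fun _ _ => rfl)]
            exact hcon
          · intro i hi
            rw [hVA γ' γ' h1 (fun _ _ => rfl) i (fun h => hslo.irr _ (h ▸ hi))]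
            exact (hno i (hless i hi)).2
        refine ⟨_, s1, fun R'' s2 => ?_⟩
        have h3 : ∀ p, p ∉ L true j → code m s c γ' true j R'' p = γ' p := by
          rintro ⟨⟨⟨n, S⟩, h'⟩ | i, w⟩ hp
          · unfold code
            simp only
            rw [if_neg]
            rintro ⟨rfl, h4⟩
            exact hp ((hL _ _ _).2 ⟨_, _, rfl, h4⟩)
          · rfl
        have h4 := tstr_code hσ' m s hm c γ' true j R''
        have h5 := (hnext γ' _ h1 h3 s1 (by rw [h4]; exact s2)).1 (h2 _ h3)
        rwa [h4] at h5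
      · rintro ⟨R', s1, h2⟩
        have h3 : ∀ p, p ∉ L false j → code m s c γ false j R' p = γ p := by
          rintro ⟨⟨⟨n, S⟩, h'⟩ | i, w⟩ hp
          · unfold code
            simp only
            rw [if_neg]
            rintro ⟨rfl, h4⟩
            exact hp ((hL _ _ _).2 ⟨_, _, rfl, h4⟩)
          · rfl
        have h4 := tstr_code hσ' m s hm c γ false j R'
        refine ⟨_, h3, fun γ'' h5 => ?_⟩
        by_cases s2 : stepRel φ c.1 c.2 (tstr hσ' m s c (pull Sum.inl (code m s c γ false j R'))
            false j) (tstr hσ' m s c (pull Sum.inl γ'') true j)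
        · refine (hnext _ _ h3 h5 (by rw [h4]; exact s1) s2).2 (h2 _ ?_)
          rwa [h4] at s2
        · refine (hIH γ'').1 ⟨j, hjn, ?_, ?_⟩
          · unfold VA
            rw [(hsame _ _ h3 h5).2]
            exact s2
          · intro i hi
            by_cases hij : i = j
            · rw [hij, VE_iff hσ' φ (hcur' _ _ h3 h5), (hsame _ _ h3 h5).2, not_not, h4]
              exact s1
            · rcases hi with hi | hi
              · exact absurd hi hij
              · rw [hVE _ _ h3 h5 i (hless i hi)]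
                exact (hno i (hless i hi)).1

end Pool.Agent.H92.Desc.V
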