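import Pool.Agent.H92.Desc.AltEnc

/-!
Transcripts of alternating games and their uniform CNF encodings.
-/

set_option linter.unusedSectionVars false

namespace Pool.Agent.H92.Desc.V

open FirstOrder FirstOrder.Language Click

/-! lexicographic order of tuples -/

/-- lexicographic order -/
def lexLt {s : ℕ} {A : Type} [LinearOrder A] (x y : Fin s → A) : Prop :=
  ∃ i, (∀ k, k < i → x k = y k) ∧ x i < y i

theorem slo_of_lt {A : Type} [LinearOrder A] : SLO (fun x y : A => x < y) :=
  ⟨fun x => lt_irrefl x, fun _ _ _ h h' => h.trans h', fun x y => lt_trichotomy x y⟩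

theorem slo_lexLt {s : ℕ} {A : Type} [LinearOrder A] : SLO (lexLt (s := s) (A := A)) := by
  have h := slo_of_lt (A := Lex (Fin s → A))
  exact ⟨fun x => h.irr (toLex x), fun x y z => h.tr (toLex x) (toLex y) (toLex z),
    fun x y => h.tri (toLex x) (toLex y)⟩

theorem UDef_lexLt {σ : FirstOrder.Language.{0, 0}} {s : ℕ} {α : Type} (g h : Fin s → α) :
    UDef (ordCls σ) (fun _ v => lexLt (v ∘ g) (v ∘ h)) :=
  UDef.existsFin (ι := Fin s) (P := fun i _ v => (∀ k : Fin s, k < i → v (g k) = v (h k)) ∧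
      v (g i) < v (h i)) fun i =>
    (UDef.forallFin (ι := Fin s) (P := fun k _ v => k < i → v (g k) = v (h k))
      (fun k => (UDef.const (k < i)).imp (UDef.eq _ _))).and (UDef.lt _ _)

/-- predecessor -/
def IsPred {X : Type} (r : X → X → Prop) (i j : X) : Prop := r i j ∧ ∀ z, ¬ (r i z ∧ r z j)

theorem UDef_isPred {σ : FirstOrder.Language.{0, 0}} {s : ℕ} {α : Type} (g h : Fin s → α) :
    UDef (ordCls σ) (fun _ v => IsPred lexLt (v ∘ g) (v ∘ h)) := by
  refine (UDef_lexLt g h).and (UDef.all (β := Fin s) (P := fun _ v z =>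
    ¬ (lexLt (v ∘ g) z ∧ lexLt z (v ∘ h))) ?_)
  exact ((UDef_lexLt (Sum.inl ∘ g) Sum.inr).and (UDef_lexLt Sum.inr (Sum.inl ∘ h))).not

theorem UDef_isFirst {σ : FirstOrder.Language.{0, 0}} {s : ℕ} {α : Type} (h : Fin s → α) :
    UDef (ordCls σ) (fun _ v => ∀ z, ¬ lexLt z (v ∘ h)) := by
  refine UDef.all (β := Fin s) (P := fun _ v z => ¬ lexLt z (v ∘ h)) ?_
  exact (UDef_lexLt Sum.inr (Sum.inl ∘ h)).not

/-! transcripts -/

variable {σ σ' : FirstOrder.Language.{0, 0}} (hσ' : σ'.IsRelational) (m s : ℕ)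

/-- coordinates: `m` for the variables of formulas and three blocks of `s` for rounds -/
abbrev Nu (m s : ℕ) := Fin m ⊕ (Fin 3 × Fin s)

/-- the block `k` -/
def blk {m s : ℕ} (k : Fin 3) {A : Type} (v : Nu m s → A) : Fin s → A := fun i => v (Sum.inr (k, i))

/-- setting the block `k` -/
def setB {m s : ℕ} (k : Fin 3) {A : Type} (v : Nu m s → A) (w : Fin s → A) : Nu m s → A :=
  Sum.elim (fun a => v (Sum.inl a)) (fun p => if p.1 = k then w p.2 else v (Sum.inr p))

theorem blk_setB {m s : ℕ} (k : Fin 3) {A : Type} (v : Nu m s → A) (w : Fin s → A) :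
    blk k (setB k v w) = w := by
  funext i
  simp [blk, setB]

theorem blk_setB_ne {m s : ℕ} {k k' : Fin 3} (h : k' ≠ k) {A : Type} (v : Nu m s → A)
    (w : Fin s → A) : blk k' (setB k v w) = blk k' v := by
  funext i
  simp [blk, setB, h]

/-- canonical index of a bit -/
noncomputable def canon (c : (ordCls σ).ι) {n : ℕ} (x : Fin n → (ordCls σ).car c)
    (j : Fin s → (ordCls σ).car c) : Nu m s → (ordCls σ).car c :=
  Sum.elim (padT m c x) (fun p => if p.1 = 0 then j p.2 else mn c)

/-- the symbols of the moves: a relation symbol and the player (`false` for the first) -/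
abbrev BS (σ' : FirstOrder.Language.{0, 0}) := (Σ n, σ'.Relations n) × Bool

/-- the structure chosen in round `j` by player `h` -/
@[instance_reducible]
noncomputable def tstr (c : (ordCls σ).ι) (γ : BS σ' × (Nu m s → (ordCls σ).car c) → Bool)
    (h : Bool) (j : Fin s → (ordCls σ).car c) : σ'.Structure ((ordCls σ).car c) where
  funMap := fun {n} f => ((hσ' n).false f).elim
  RelMap := fun {n} R x => γ ((⟨n, R⟩, h), canon m s c x j) = true

/-- the structure with empty relations, or a structure of the transcript -/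
@[instance_reducible]
noncomputable def src (o : Option (Bool × Fin 3)) (c : (ordCls σ).ι)
    (γ : BS σ' × (Nu m s → (ordCls σ).car c) → Bool) (v : Nu m s → (ordCls σ).car c) :
    σ'.Structure ((ordCls σ).car c) :=
  match o with
  | none => emptyStr hσ' _
  | some (h, k) => tstr hσ' m s c γ h (blk k v)

theorem DefMap_canon {n : ℕ} (t : Fin n → Nu m s) (k : Fin 3) :
    DefMap (fun (c : (ordCls σ).ι) (v : Nu m s → (ordCls σ).car c) =>
      canon m s c (v ∘ t) (blk k v)) := by
  refine (UDef.forallFin (ι := Nu m s) (𝒞 := ordCls σ) (P := fun i c (u : Nu m s ⊕ Nu m s → _) =>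
      canon m s c ((u ∘ Sum.inl) ∘ t) (blk k (u ∘ Sum.inl)) i = u (Sum.inr i))
      (fun i => ?_)).congr fun c u => ?_
  · rcases i with i | ⟨k', i⟩
    · by_cases h : i.1 < n
      · refine (UDef.eq (𝒞 := ordCls σ) (Sum.inl (t ⟨i.1, h⟩)) (Sum.inr (Sum.inl i))).congr
          fun c u => ?_
        simp only [canon, Sum.elim_inl, padT, dif_pos h]
        rfl
      · refine (UDef.isMn (σ := σ) (Sum.inr (Sum.inl i))).congr fun c u => ?_
        simp only [canon, Sum.elim_inl, padT, dif_neg h]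
        exact eq_comm
    · by_cases h : k' = 0
      · refine (UDef.eq (𝒞 := ordCls σ) (Sum.inl (Sum.inr (k, i))) (Sum.inr (Sum.inr (k', i)))).congr
          fun c u => ?_
        simp only [canon, Sum.elim_inr, if_pos h]
        rfl
      · refine (UDef.isMn (σ := σ) (Sum.inr (Sum.inr (k', i)))).congr fun c u => ?_
        simp only [canon, Sum.elim_inr, if_neg h]
        exact eq_comm
  · exact ⟨fun h => funext h, fun h i => congrFun h i⟩

theorem enc_src [Finite (Σ n, σ'.Relations n)] (o : Option (Bool × Fin 3)) {n : ℕ}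
    (R : σ'.Relations n) (t : Fin n → Fin m) :
    Enc (σ := σ) (B := BS σ') (fun c γ v =>
      @Structure.RelMap σ' _ (src hσ' m s o c γ v) _ R
        (fun k => v ((Sum.inl : Fin m → Nu m s) (t k)))) := by
  rcases o with _ | ⟨h, k⟩
  · exact (Enc.ofDef (UDef.const False)).congr fun c γ v => Iff.rfl
  · exact (Enc.atom (σ := σ) (B := BS σ') (⟨n, R⟩, h) (DefMap_canon m s
      (fun k => Sum.inl (t k)) k)).congr fun c γ v => Iff.rfl

theorem enc_step [Finite (Σ n, σ'.Relations n)] (hσ : σ.IsRelational)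
    (o o' : Option (Bool × Fin 3))
    (φ : ((σ.sum FirstOrder.Language.order).sum (σ'.sum σ')).Sentence) (hφ : bd φ ≤ m) :
    Enc (σ := σ) (B := BS σ') (fun c γ v =>
      stepRel φ c.1 c.2 (src hσ' m s o c γ v) (src hσ' m s o' c γ v)) := by
  have h := enc_formula' (σ := σ) (ν := Nu m s) (L' := σ'.sum σ') (B := BS σ')
    (Sum.inl : Fin m → Nu m s) Sum.inl_injective
    (fun c γ v => @sumStructure σ' σ' _ (src hσ' m s o c γ v) (src hσ' m s o' c γ v))
    hσ (fun n => ⟨fun f => by
      rcases f with f | f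
      · exact (hσ' n).false f
      · exact (hσ' n).false f⟩) (fun {n} R t => ?_) (fun c γ v i x => ?_) φ hφ
  · refine h.congr fun c γ v => ?_
    unfold RealA stepRel
    have e1 : (fun e : Empty => (e.elim : (ordCls σ).car c)) = default := Subsingleton.elim _ _
    have e2 : (fun i : Fin 0 => v (Sum.inl (Fin.castLE ((le_bd φ).trans hφ) i))) = default :=
      Subsingleton.elim _ _
    rw [e1, e2]
    exact Iff.rfl
  · rcases R with R | R
    · exact (enc_src hσ' m s o R t).congr fun c γ v => Iff.rfl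
    · exact (enc_src hσ' m s o' R t).congr fun c γ v => Iff.rfl
  · have : ∀ k, blk k (Function.update v (Sum.inl i) x) = blk k v := by
      intro k
      funext b
      simp [blk]
    have h1 : ∀ o, src hσ' m s o c γ (Function.update v (Sum.inl i) x) =
        src hσ' m s o c γ v := by
      intro o
      rcases o with _ | ⟨h, k⟩
      · rfl
      · simp only [src, this]
    rw [h1, h1]

theorem Enc.allB {B : Type} [Finite B] {m s : ℕ} (k : Fin 3)
    {Φ : ∀ c : (ordCls σ).ι, (B × (Nu m s → (ordCls σ).car c) → Bool) →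
      (Nu m s → (ordCls σ).car c) → Prop} (h : Enc Φ) :
    Enc (fun c γ v => ∀ w, Φ c γ (setB k v w)) := by
  refine (h.allS (Finset.univ.filter (fun n : Nu m s => ∃ i, n = Sum.inr (k, i)))).congr
    fun c γ v => ⟨fun h w => ?_, fun h v' hv' => ?_⟩
  · refine h _ fun n hn => ?_
    simp only [Finset.mem_filter, Finset.mem_univ, true_and, not_exists] at hn
    rcases n with n | ⟨k', i⟩
    · rfl
    · have : k' ≠ k := fun h => hn i (by rw [h])
      simp [setB, this]
  · have : v' = setB k v (blk k v') := by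
      funext n
      rcases n with n | ⟨k', i⟩
      · exact hv' _ (by simp)
      · by_cases hk : k' = k
        · subst hk
          simp [setB, blk]
        · rw [hv' _ (by simp [hk])]
          simp [setB, hk]
    rw [this]
    exact h _

theorem Enc.exB {B : Type} [Finite B] {m s : ℕ} (k : Fin 3)
    {Φ : ∀ c : (ordCls σ).ι, (B × (Nu m s → (ordCls σ).car c) → Bool) →
      (Nu m s → (ordCls σ).car c) → Prop} (h : Enc Φ) :
    Enc (fun c γ v => ∃ w, Φ c γ (setB k v w)) :=
  (Enc.allB k h.not).not.congr fun c γ v => by simp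

section game

variable (φ : ((σ.sum FirstOrder.Language.order).sum (σ'.sum σ')).Sentence)

/-- the first player breaks the rules in round `j` -/
def VE (c : (ordCls σ).ι) (γ : BS σ' × (Nu m s → (ordCls σ).car c) → Bool)
    (j : Fin s → (ordCls σ).car c) : Prop :=
  ((∀ z, ¬ lexLt z j) ∧ ¬ stepRel φ c.1 c.2 (emptyStr hσ' _) (tstr hσ' m s c γ false j)) ∨
    ∃ i, IsPred lexLt i j ∧
      ¬ stepRel φ c.1 c.2 (tstr hσ' m s c γ true i) (tstr hσ' m s c γ false j)

/-- the second player breaks the rules in round `j` -/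
def VA (c : (ordCls σ).ι) (γ : BS σ' × (Nu m s → (ordCls σ).car c) → Bool)
    (j : Fin s → (ordCls σ).car c) : Prop :=
  ¬ stepRel φ c.1 c.2 (tstr hσ' m s c γ false j) (tstr hσ' m s c γ true j)

/-- the first player wins -/
def WT (c : (ordCls σ).ι) (γ : BS σ' × (Nu m s → (ordCls σ).car c) → Bool) : Prop :=
  ∃ j, VA hσ' m s φ c γ j ∧ ∀ i, (i = j ∨ lexLt i j) → ¬ VE hσ' m s φ c γ i

theorem enc_VE [Finite (Σ n, σ'.Relations n)] (hσ : σ.IsRelational) (hφ : bd φ ≤ m) :
    Enc (σ := σ) (B := BS σ') (ν := Nu m s) (fun c γ v => VE hσ' m s φ c γ (blk 1 v)) := by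
  refine Enc.or (Enc.and (Enc.ofDef (UDef_isFirst (fun i => Sum.inr (1, i))))
    (enc_step hσ' m s hσ none (some (false, 1)) φ hφ).not) ?_
  refine (Enc.exB 2 (Enc.and (Enc.ofDef (UDef_isPred (fun i => Sum.inr (2, i))
    (fun i => Sum.inr (1, i)))) (enc_step hσ' m s hσ (some (true, 2)) (some (false, 1))
      φ hφ).not)).congr fun c γ v => ?_
  refine exists_congr fun w => ?_
  change (IsPred lexLt (blk 2 (setB 2 v w)) (blk 1 (setB 2 v w)) ∧
    ¬ stepRel φ c.1 c.2 (tstr hσ' m s c γ true (blk 2 (setB 2 v w)))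
      (tstr hσ' m s c γ false (blk 1 (setB 2 v w)))) ↔ _
  rw [blk_setB, blk_setB_ne (by decide)]

theorem enc_WT [Finite (Σ n, σ'.Relations n)] (hσ : σ.IsRelational) (hφ : bd φ ≤ m) :
    Enc (σ := σ) (B := BS σ') (ν := Nu m s) (fun c γ _ => WT hσ' m s φ c γ) := by
  have h1 : Enc (σ := σ) (B := BS σ') (ν := Nu m s) (fun c γ v =>
      ∀ i, (i = blk 0 v ∨ lexLt i (blk 0 v)) → ¬ VE hσ' m s φ c γ i) := by
    refine (Enc.allB 1 (Enc.imp (Enc.ofDef (UDef.or (UDef.eqT (N := Fin s)
      (fun i => Sum.inr (1, i)) (fun i => Sum.inr (0, i)))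
      (UDef_lexLt (fun i => Sum.inr (1, i)) (fun i => Sum.inr (0, i)))))
      (enc_VE hσ' m s φ hσ hφ).not)).congr fun c γ v => ?_
    refine forall_congr' fun w => ?_
    change ((blk 1 (setB 1 v w) = blk 0 (setB 1 v w) ∨
      lexLt (blk 1 (setB 1 v w)) (blk 0 (setB 1 v w))) →
      ¬ VE hσ' m s φ c γ (blk 1 (setB 1 v w))) ↔ _
    rw [blk_setB, blk_setB_ne (by decide)]
  refine (Enc.exB 0 (Enc.and (enc_step hσ' m s hσ (some (false, 0)) (some (true, 0)) φ hφ).not
    h1)).congr fun c γ v => ?_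
  refine exists_congr fun w => ?_
  change (¬ stepRel φ c.1 c.2 (tstr hσ' m s c γ false (blk 0 (setB 0 v w)))
      (tstr hσ' m s c γ true (blk 0 (setB 0 v w))) ∧
    ∀ i, (i = blk 0 (setB 0 v w) ∨ lexLt i (blk 0 (setB 0 v w))) → ¬ VE hσ' m s φ c γ i) ↔ _
  rw [blk_setB]
  rfl

end game

end Pool.Agent.H92.Desc.V
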