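import Pool.Agent.H92.Desc.Ord

/-!
A definable cyclic permutation of the set of all pairs (sort, tuple).
-/

namespace Pool.Agent.H92.Desc

open FirstOrder FirstOrder.Language

/-- the least element above, or the least element altogether if there is none -/
def NextRel {T : Type} (lt : T → T → Prop) (x y : T) : Prop :=
  (lt x y ∧ ∀ z, ¬ (lt x z ∧ lt z y)) ∨ ((∀ z, ¬ lt x z) ∧ (∀ z, ¬ lt z y))

theorem nextRel_fin (n : ℕ) (i j : Fin (n + 1)) :
    j = i + 1 ↔ NextRel (fun a b : Fin (n + 1) => a < b) i j := by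
  unfold NextRel
  by_cases hi : i = Fin.last n
  · subst hi
    rw [Fin.last_add_one]
    constructor
    · rintro rfl
      exact Or.inr ⟨fun z => not_lt.2 (Fin.le_last z), fun z => not_lt.2 (Fin.zero_le z)⟩
    · rintro (⟨h, _⟩ | ⟨_, h⟩)
      · exact absurd h (not_lt.2 (Fin.le_last j))
      · have := h 0
        exact le_antisymm (not_lt.1 this) (Fin.zero_le j)
  · have hlt : i < Fin.last n := lt_of_le_of_ne (Fin.le_last i) hi
    have hv : (i + 1).val = i.val + 1 := Fin.val_add_one_of_lt hlt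
    constructor
    · rintro rfl
      refine Or.inl ⟨?_, ?_⟩
      · change i < i + 1
        rw [Fin.lt_def, hv]
        omega
      · rintro z ⟨h1, h2⟩
        rw [Fin.lt_def] at h1 h2
        omega
    · rintro (⟨h1, h2⟩ | ⟨h1, _⟩)
      · have := h2 (i + 1)
        beta_reduce at this
        rw [Fin.lt_def, Fin.lt_def, hv] at this
        rw [Fin.lt_def] at h1
        apply Fin.ext
        rw [hv]
        by_contra hne
        exact this ⟨by omega, by omega⟩
      · exact absurd hlt (h1 _)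

theorem exists_cyc {T S : Type} [LinearOrder S] [Finite T] [Nonempty T] (e : T ≃ S)
    (lt : T → T → Prop) (hlt : ∀ x y, lt x y ↔ e x < e y) :
    ∃ nxt : Equiv.Perm T, (∀ x y, y = nxt x ↔ NextRel lt x y) ∧
      ∀ P : T → Prop, (∀ c, P c ↔ P (nxt c)) → ∀ c c', P c ↔ P c' := by
  classical
  have hT := Fintype.ofFinite T
  have hS : Fintype S := Fintype.ofEquiv T e
  obtain ⟨n, hn⟩ : ∃ n, Fintype.card S = n + 1 := by
    have : 0 < Fintype.card S := by
      have : Nonempty S := e.nonempty_congr.1 inferInstance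
      exact Fintype.card_pos
    exact ⟨Fintype.card S - 1, by omega⟩
  let o : Fin (n + 1) ≃o S := Fintype.orderIsoFinOfCardEq S hn
  let e' : T ≃ Fin (n + 1) := e.trans o.symm.toEquiv
  have hlt' : ∀ x y, lt x y ↔ e' x < e' y := by
    intro x y
    rw [hlt]
    exact (o.symm.lt_iff_lt (x := e x) (y := e y)).symm
  let nxt : Equiv.Perm T := e'.trans ((finRotate (n + 1)).trans e'.symm)
  have hn' : ∀ x, e' (nxt x) = e' x + 1 := by
    intro x
    simp only [nxt, Equiv.trans_apply, Equiv.apply_symm_apply]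
    exact finRotate_apply _
  refine ⟨nxt, ?_, ?_⟩
  · intro x y
    have h1 : y = nxt x ↔ e' y = e' x + 1 := by
      rw [← hn']
      exact e'.injective.eq_iff.symm
    rw [h1, nextRel_fin]
    unfold NextRel
    have hall : ∀ Q : Fin (n + 1) → Prop, (∀ z, Q z) ↔ ∀ z : T, Q (e' z) := by
      intro Q
      exact ⟨fun h z => h _, fun h z => by simpa using h (e'.symm z)⟩
    rw [hall (fun z => ¬ (e' x < z ∧ z < e' y)), hall (fun z => ¬ e' x < z),
      hall (fun z => ¬ z < e' y)]
    simp only [hlt']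
  · intro P hP
    have hP' : ∀ i : Fin (n + 1), P (e'.symm i) ↔ P (e'.symm (i + 1)) := by
      intro i
      have := hP (e'.symm i)
      have h2 : nxt (e'.symm i) = e'.symm (i + 1) := by
        apply e'.injective
        rw [hn']
        simp
      rwa [h2] at this
    have h0 : ∀ i : Fin (n + 1), P (e'.symm 0) ↔ P (e'.symm i) := by
      intro i
      induction i using Fin.induction with
      | zero => exact Iff.rfl
      | succ i ih =>
        rw [ih, hP' i.castSucc, Fin.coeSucc_eq_succ]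
    intro c c'
    have h1 := h0 (e' c)
    have h2 := h0 (e' c')
    rw [Equiv.symm_apply_apply] at h1 h2
    exact h1.symm.trans h2

variable {σ : FirstOrder.Language.{0, 0}} {N : ℕ} {J : Type}

/-- lexicographic order on pairs (sort, tuple) -/
def ltT [LinearOrder J] {A : Type} [LinearOrder A] (x y : J × (Fin N → A)) : Prop :=
  x.1 < y.1 ∨ (x.1 = y.1 ∧ ∃ i, (∀ k, k < i → x.2 k = y.2 k) ∧ x.2 i < y.2 i)

theorem exists_cyc_tup [LinearOrder J] [Finite J] [Nonempty J] (c : (ordCls σ).ι) :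
    ∃ nxt : Equiv.Perm (J × (Fin N → (ordCls σ).car c)),
      (∀ x y, y = nxt x ↔ NextRel ltT x y) ∧
      ∀ P : J × (Fin N → (ordCls σ).car c) → Prop, (∀ c, P c ↔ P (nxt c)) →
        ∀ c c', P c ↔ P c' := by
  let e : J × (Fin N → (ordCls σ).car c) ≃ J ×ₗ Lex (Fin N → (ordCls σ).car c) :=
    (Equiv.prodCongr (Equiv.refl J) toLex).trans toLex
  refine exists_cyc e ltT ?_
  rintro ⟨j, v⟩ ⟨j', v'⟩
  change _ ↔ toLex (j, toLex v) < toLex (j', toLex v')
  rw [Prod.Lex.toLex_lt_toLex]
  exact Iff.rfl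

/-- the cyclic permutation -/
noncomputable def nxtT (N : ℕ) (J : Type) [LinearOrder J] [Finite J] [Nonempty J]
    (c : (ordCls σ).ι) : Equiv.Perm (J × (Fin N → (ordCls σ).car c)) :=
  (exists_cyc_tup c).choose

theorem nxtT_iff [LinearOrder J] [Finite J] [Nonempty J] (c : (ordCls σ).ι)
    (x y : J × (Fin N → (ordCls σ).car c)) : y = nxtT N J c x ↔ NextRel ltT x y :=
  (exists_cyc_tup c).choose_spec.1 x y

theorem nxtT_trans [LinearOrder J] [Finite J] [Nonempty J] (c : (ordCls σ).ι) :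
    ∀ P : J × (Fin N → (ordCls σ).car c) → Prop, (∀ x, P x ↔ P (nxtT N J c x)) →
      ∀ x y, P x ↔ P y :=
  (exists_cyc_tup c).choose_spec.2

namespace UDef

variable {α : Type}

theorem ltT [LinearOrder J] (j j' : J) (g h : Fin N → α) :
    UDef (ordCls σ) (fun _ v => Desc.ltT (j, v ∘ g) (j', v ∘ h)) := by
  refine ((const (𝒞 := ordCls σ) (j < j')).or ((const (j = j')).and
    (existsFin (ι := Fin N) (P := fun i _ v => (∀ k : Fin N, k < i → v (g k) = v (h k)) ∧
      v (g i) < v (h i)) (fun i => ?_)))).congr fun c v => Iff.rfl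
  exact (forallFin (ι := Fin N) (P := fun k _ v => k < i → v (g k) = v (h k))
    (fun k => (const (k < i)).imp (eq _ _))).and (lt _ _)

theorem nxt [LinearOrder J] [Finite J] [Nonempty J] (j j' : J) (g h : Fin N → α) :
    UDef (ordCls σ) (fun c v => (j', v ∘ h) = nxtT N J c (j, v ∘ g)) := by
  have h1 : UDef (ordCls σ) (fun _ v => ∀ (k : J) (w : Fin N → _),
      ¬ (Desc.ltT (j, v ∘ g) (k, w) ∧ Desc.ltT (k, w) (j', v ∘ h))) := by
    refine forallFin (fun k => all (𝒞 := ordCls σ) (β := Fin N)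
      (P := fun _ v w => ¬ (Desc.ltT (j, v ∘ g) (k, w) ∧ Desc.ltT (k, w) (j', v ∘ h))) ?_)
    exact ((ltT j k (Sum.inl ∘ g) Sum.inr).and (ltT k j' Sum.inr (Sum.inl ∘ h))).not
  have h2 : UDef (ordCls σ) (fun _ v => ∀ (k : J) (w : Fin N → _),
      ¬ Desc.ltT (j, v ∘ g) (k, w)) := by
    refine forallFin (fun k => all (𝒞 := ordCls σ) (β := Fin N)
      (P := fun _ v w => ¬ Desc.ltT (j, v ∘ g) (k, w)) ?_)
    exact (ltT j k (Sum.inl ∘ g) Sum.inr).not
  have h3 : UDef (ordCls σ) (fun _ v => ∀ (k : J) (w : Fin N → _),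
      ¬ Desc.ltT (k, w) (j', v ∘ h)) := by
    refine forallFin (fun k => all (𝒞 := ordCls σ) (β := Fin N)
      (P := fun _ v w => ¬ Desc.ltT (k, w) (j', v ∘ h)) ?_)
    exact (ltT k j' Sum.inr (Sum.inl ∘ h)).not
  refine (((ltT j j' g h).and h1).or (h2.and h3)).congr fun c v => ?_
  rw [nxtT_iff]
  unfold NextRel
  simp only [Prod.forall]

end UDef

end Pool.Agent.H92.Desc
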