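import Mathlib

/-!
Descriptive complexity: the classes NP and P through the theorems of Fagin and of
Immerman and Vardi, and hardness through first-order reductions.
-/

namespace Pool.Agent.H92.Desc

open FirstOrder FirstOrder.Language

/-- A finite nonempty structure for the vocabulary `σ`. -/
structure FinStr (σ : FirstOrder.Language.{0, 0}) where
  carrier : Type
  fin : Finite carrier
  ne : Nonempty carrier
  str : σ.Structure carrier

/-- A decision problem on finite `σ`-structures. -/
abbrev Prob (σ : FirstOrder.Language.{0, 0}) := FinStr σ → Prop

/-- A finite relational vocabulary: no function symbols, finitely many relation symbols. -/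
def FinRel (σ : FirstOrder.Language.{0, 0}) : Prop :=
  σ.IsRelational ∧ Finite (Σ n, σ.Relations n)

/-- NP by Fagin's theorem: `K` is definable by an existential second-order sentence, that is,
there are a finite relational vocabulary `σ'` and a first-order sentence `φ` over `σ ∪ σ'` such
that `A ∈ K` iff `φ` holds in some expansion of `A` by interpretations of the symbols of `σ'`. -/
def InNP {σ : FirstOrder.Language.{0, 0}} (K : Prob σ) : Prop :=
  ∃ σ' : FirstOrder.Language.{0, 0}, FinRel σ' ∧ ∃ φ : (σ.sum σ').Sentence,
    ∀ A : FinStr σ, K A ↔ ∃ s : σ'.Structure A.carrier,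
      @Sentence.Realize (σ.sum σ') A.carrier (@sumStructure σ σ' A.carrier A.str s) φ

/-- The expansion of a `σ`-structure by a linear order (or any relation `≤`). -/
abbrev ordStr {σ : FirstOrder.Language.{0, 0}} {A : Type} (s : σ.Structure A) (o : LinearOrder A) :
    (σ.sum FirstOrder.Language.order).Structure A :=
  @sumStructure σ FirstOrder.Language.order A s (@orderStructure A o.toLE)

/-- A first-order interpretation of `τ`-structures in `σ`-structures: the elements of the
interpreted structure are the pairs `(s, w)` of a sort `s` (finitely many sorts) and a tuple `w`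
indexed by the finite set `Coord s`; each relation symbol of `τ` is defined, for each choice of
the sorts of its arguments, by a first-order formula in the coordinates of the arguments. -/
structure Interp (σ τ : FirstOrder.Language.{0, 0}) where
  S : Type
  fin : Finite S
  ne : Nonempty S
  Coord : S → Type
  cfin : ∀ s, Finite (Coord s)
  form : ∀ {n : ℕ} (_ : τ.Relations n) (s : Fin n → S), σ.Formula (Σ i : Fin n, Coord (s i))

/-- The universe of the interpreted structure. -/
abbrev Interp.Univ {σ τ : FirstOrder.Language.{0, 0}} (I : Interp σ τ) (A : Type) : Type :=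
  Σ s : I.S, (I.Coord s → A)

/-- The interpreted structure (for a relational vocabulary `τ`). -/
@[instance_reducible]
def Interp.map {σ τ : FirstOrder.Language.{0, 0}} (I : Interp σ τ) (hτ : τ.IsRelational) (A : Type)
    (str : σ.Structure A) : τ.Structure (I.Univ A) where
  funMap := fun {n} f => ((hτ n).false f).elim
  RelMap := fun {n} R x =>
    @Formula.Realize σ A str _ (I.form R (fun i : Fin n => (x i).1)) (fun p => (x p.1).2 p.2)

/-- The image of a finite ordered structure under an interpretation. -/
def Interp.image {σ τ : FirstOrder.Language.{0, 0}} (I : Interp (σ.sum FirstOrder.Language.order) τ)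
    (hτ : τ.IsRelational) (A : FinStr σ) (o : LinearOrder A.carrier) : FinStr τ where
  carrier := I.Univ A.carrier
  fin := by
    have := I.fin
    have := I.cfin
    have := A.fin
    exact inferInstance
  ne := by
    obtain ⟨s⟩ := I.ne
    obtain ⟨a⟩ := A.ne
    exact ⟨⟨s, fun _ => a⟩⟩
  str := I.map hτ A.carrier (ordStr A.str o)

/-- `K` is NP-hard under first-order reductions: every NP problem `K'` on the finite structures
of a finite relational vocabulary reduces to `K` by a first-order interpretation in ordered
structures: for every finite structure `A` and every linear order on `A`, `A ∈ K'` iff the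
interpreted structure is in `K`. -/
def NPHard {τ : FirstOrder.Language.{0, 0}} (hτ : τ.IsRelational) (K : Prob τ) : Prop :=
  ∀ σ : FirstOrder.Language.{0, 0}, FinRel σ → ∀ K' : Prob σ, InNP K' →
    ∃ I : Interp (σ.sum FirstOrder.Language.order) τ,
      ∀ (A : FinStr σ) (o : LinearOrder A.carrier), K' A ↔ K (I.image hτ A o)

/-- `K` is NP-complete (membership by Fagin's theorem, hardness under first-order reductions). -/
def NPComplete {τ : FirstOrder.Language.{0, 0}} (hτ : τ.IsRelational) (K : Prob τ) : Prop :=
  InNP K ∧ NPHard hτ K

/-- Symbols of the vocabulary with one `k`-ary relation symbol. -/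
inductive OneRel (k : ℕ) : ℕ → Type
  | sym : OneRel k k

/-- The vocabulary with one `k`-ary relation symbol. -/
def oneRel (k : ℕ) : FirstOrder.Language.{0, 0} := ⟨fun _ => Empty, OneRel k⟩

/-- The interpretation of the `k`-ary symbol by the relation `X`. -/
@[instance_reducible]
def oneStr {A : Type} {k : ℕ} (X : Set (Fin k → A)) : (oneRel k).Structure A where
  funMap := fun f => f.elim
  RelMap := fun {n} (R : OneRel k n) => match n, R with
    | _, OneRel.sym => fun v => v ∈ X

/-- The operator on `k`-ary relations defined by the formula `ψ`. -/
def lfpOp {σ : FirstOrder.Language.{0, 0}} {k : ℕ} (ψ : (σ.sum (oneRel k)).Formula (Fin k)) {A : Type}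
    (str : σ.Structure A) (X : Set (Fin k → A)) : Set (Fin k → A) :=
  {v | @Formula.Realize (σ.sum (oneRel k)) A (@sumStructure σ (oneRel k) A str (oneStr X)) _ ψ v}

/-- The least fixed point of a monotone operator on `k`-ary relations. -/
def lfp {A : Type} {k : ℕ} (F : Set (Fin k → A) → Set (Fin k → A)) : Set (Fin k → A) :=
  ⋂₀ {Y | F Y ⊆ Y}

/-- P by the theorem of Immerman and Vardi: on ordered finite structures, `K` is defined by a
first-order sentence about the least fixed point of a monotone first-order definable operator
on `k`-ary relations. -/
def InP {σ : FirstOrder.Language.{0, 0}} (K : Prob σ) : Prop :=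
  ∃ (k : ℕ) (ψ : ((σ.sum FirstOrder.Language.order).sum (oneRel k)).Formula (Fin k))
    (φ : ((σ.sum FirstOrder.Language.order).sum (oneRel k)).Sentence),
    ∀ (A : FinStr σ) (o : LinearOrder A.carrier),
      Monotone (lfpOp ψ (ordStr A.str o)) ∧
      (K A ↔ @Sentence.Realize _ A.carrier
        (@sumStructure (σ.sum FirstOrder.Language.order) (oneRel k) A.carrier (ordStr A.str o)
          (oneStr (lfp (lfpOp ψ (ordStr A.str o))))) φ)

end Pool.Agent.H92.Desc
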