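import Pool.Agent.H92.Desc.ESat

/-!
Every NEXPTIME property has a uniform encoding by exponentially large constraint systems.
-/

namespace Pool.Agent.H92.Desc

open FirstOrder FirstOrder.Language Simon

variable {σ : FirstOrder.Language.{0, 0}} {r N : ℕ}

/-! atoms -/

/-- the coordinates `i s` are points with a definable tuple of elements, with an extra condition
on the digits -/
def ppat {n : ℕ} (i : Fin n → Fin N) (C : ∀ c : (ordCls σ).ι, (Fin n → (ordCls σ).car c) → Prop)
    (hC : UDef (ordCls σ) (fun c (u : Fin n → (ordCls σ).car c) => C c u))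
    (X : Bool → Fin N → ∀ c : (ordCls σ).ι, (Fin r → (ordCls σ).car c) →
      (Fin n → (ordCls σ).car c) → Prop)
    (hX : ∀ b n', UDef (ordCls σ) (fun c (u : Fin r ⊕ Fin n → (ordCls σ).car c) =>
      X b n' c (u ∘ Sum.inl) (u ∘ Sum.inr))) : Pat σ r N where
  Par := Fin n
  fin := inferInstance
  al b n' c x a := (∀ s, n' = i s → (b = true ↔ ∀ t, x t = a s)) ∧ X b n' c x a
  cond := C
  hal b n' := by
    refine UDef.and (UDef.forallFin fun s => (UDef.const _).imp ((UDef.const _).iff
      (UDef.forallFin fun t => UDef.eq (𝒞 := ordCls σ) (Sum.inl t) (Sum.inr s)))) (hX b n')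
  hcond := hC

theorem ppat_mem {n : ℕ} {i : Fin n → Fin N}
    {C : ∀ c : (ordCls σ).ι, (Fin n → (ordCls σ).car c) → Prop}
    {hC : UDef (ordCls σ) (fun c (u : Fin n → (ordCls σ).car c) => C c u)}
    {X : Bool → Fin N → ∀ c : (ordCls σ).ι, (Fin r → (ordCls σ).car c) →
      (Fin n → (ordCls σ).car c) → Prop}
    {hX : ∀ b n', UDef (ordCls σ) (fun c (u : Fin r ⊕ Fin n → (ordCls σ).car c) =>
      X b n' c (u ∘ Sum.inl) (u ∘ Sum.inr))} {c : (ordCls σ).ι} {v : Fin N → Us r c} :
    (ppat i C hC X hX).Mem c v ↔ ∃ a, C c a ∧ (∀ s, v (i s) = pt r (a s)) ∧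
      ∀ n' x, (x ∈ v n' → X true n' c x a) ∧ (x ∉ v n' → X false n' c x a) := by
  have hpt : ∀ (x : Fin r → (ordCls σ).car c) (e : (ordCls σ).car c),
      x ∈ pt r e ↔ ∀ t, x t = e := by
    intro x e
    unfold pt
    rw [Set.mem_singleton_iff, funext_iff]
  constructor
  · rintro ⟨a, h1, h2⟩
    refine ⟨a, h1, fun s => ?_, fun n' x => ⟨fun h => ((h2 n' x).1 h).2, fun h => ((h2 n' x).2 h).2⟩⟩
    ext x
    rw [hpt]
    by_cases hx : x ∈ v (i s)
    · have := ((h2 (i s) x).1 hx).1 s rfl
      simpa [hx] using this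
    · have := ((h2 (i s) x).2 hx).1 s rfl
      simpa [hx] using this
  · rintro ⟨a, h1, h2, h3⟩
    refine ⟨a, h1, fun n' x => ⟨fun h => ⟨?_, (h3 n' x).1 h⟩, fun h => ⟨?_, (h3 n' x).2 h⟩⟩⟩
    · rintro s rfl
      rw [h2, hpt] at h
      simpa using h
    · rintro s rfl
      rw [h2, hpt] at h
      simpa using h

/-- the coordinate `i` is not a point -/
theorem cov_notPt (i : Fin N) : Cov (σ := σ) (r := r) (N := N)
    (fun c v => ¬ ∃ a : (ordCls σ).car c, v i = pt r a) := by
  classical
  -- a nonconstant element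
  let p1 : Pat σ r N :=
    { Par := Fin r
      fin := inferInstance
      al := fun b n' c x y => n' = i → (∀ t, x t = y t) → b = true
      cond := fun c y => ∃ s t, y s ≠ y t
      hal := fun b n' => (UDef.const _).imp ((UDef.forallFin fun t =>
        UDef.eq (𝒞 := ordCls σ) (Sum.inl t) (Sum.inr t)).imp (UDef.const _))
      hcond := UDef.existsFin fun s => UDef.existsFin fun t => (UDef.eq s t).not }
  let p2 : Pat σ r N :=
    { Par := Fin r ⊕ Fin r
      fin := inferInstance
      al := fun b n' c x y => n' = i → ((∀ t, x t = y (Sum.inl t)) ∨ (∀ t, x t = y (Sum.inr t))) →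
        b = true
      cond := fun c y => ∃ s, y (Sum.inl s) ≠ y (Sum.inr s)
      hal := fun b n' => (UDef.const _).imp ((UDef.or (UDef.forallFin fun t =>
        UDef.eq (𝒞 := ordCls σ) (Sum.inl t) (Sum.inr (Sum.inl t))) (UDef.forallFin fun t =>
        UDef.eq (𝒞 := ordCls σ) (Sum.inl t) (Sum.inr (Sum.inr t)))).imp (UDef.const _))
      hcond := UDef.existsFin fun s => (UDef.eq _ _).not }
  refine ((Cov.of (EncE.cpat false i)).or ((Cov.of p1).or (Cov.of p2))).congr fun c v => ?_
  rw [EncE.cpat_mem]
  have m1 : p1.Mem c v ↔ ∃ y ∈ v i, ∃ s t, y s ≠ y t := by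
    constructor
    · rintro ⟨y, h1, h2⟩
      refine ⟨y, ?_, h1⟩
      by_contra hy
      have := (h2 i y).2 hy rfl (fun _ => rfl)
      simp at this
    · rintro ⟨y, h1, h2⟩
      refine ⟨y, h2, fun n' x => ⟨fun _ _ _ => rfl, ?_⟩⟩
      rintro hx rfl he
      have : x = y := funext he
      rw [this] at hx
      exact absurd h1 hx
  have m2 : p2.Mem c v ↔ ∃ y ∈ v i, ∃ z ∈ v i, y ≠ z := by
    constructor
    · rintro ⟨y, ⟨s, h1⟩, h2⟩
      refine ⟨y ∘ Sum.inl, ?_, y ∘ Sum.inr, ?_, ?_⟩
      · by_contra hy
        have := (h2 i _).2 hy rfl (Or.inl fun _ => rfl)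
        simp at this
      · by_contra hy
        have := (h2 i _).2 hy rfl (Or.inr fun _ => rfl)
        simp at this
      · intro he
        exact h1 (congrFun he s)
    · rintro ⟨y, h1, z, h2, h3⟩
      refine ⟨Sum.elim y z, ?_, fun n' x => ⟨fun _ _ _ => rfl, ?_⟩⟩
      · by_contra hcon
        apply h3
        funext s
        by_contra hs
        exact hcon ⟨s, hs⟩
      · rintro hx rfl (he | he)
        · have : x = y := funext he
          rw [this] at hx
          exact absurd h1 hx
        · have : x = z := funext he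
          rw [this] at hx
          exact absurd h2 hx
  rw [m1, m2]
  constructor
  · rintro (h | ⟨y, h1, s, t, h2⟩ | ⟨y, h1, z, h2, h3⟩) ⟨a, ha⟩
    · rw [h] at ha
      have : (fun _ => a) ∈ (∅ : Us r c) := by
        have h' : (fun _ => a) ∈ pt r a := rfl
        rw [← ha] at h'
        simpa using h'
      exact this
    · rw [ha] at h1
      have h1' : y = fun _ => a := h1
      rw [h1'] at h2
      exact h2 rfl
    · rw [ha] at h1 h2
      have h1' : y = fun _ => a := h1
      have h2' : z = fun _ => a := h2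
      exact h3 (h1'.trans h2'.symm)
  · intro h
    by_cases h0 : v i = ∅
    · exact Or.inl h0
    · right
      obtain ⟨y, hy⟩ := Set.nonempty_iff_ne_empty.2 h0
      by_cases h1 : ∃ s t, y s ≠ y t
      · exact Or.inl ⟨y, hy, h1⟩
      · right
        push Not at h1
        by_contra hcon
        push Not at hcon
        obtain ⟨m⟩ : Nonempty ((ordCls σ).car c) := inferInstance
        have hy' : ∃ a, y = fun _ => a := by
          rcases Nat.eq_zero_or_pos r with hr | hr
          · subst hr
            exact ⟨m, Subsingleton.elim _ _⟩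
          · exact ⟨y ⟨0, hr⟩, funext fun t => h1 _ _⟩
        obtain ⟨a, rfl⟩ := hy'
        refine h ⟨a, ?_⟩
        ext z
        constructor
        · intro hz
          exact (hcon _ hy z hz).symm
        · intro hz
          have : z = fun _ => a := hz
          rw [this]
          exact hy

/-- relation symbols of the structure -/
theorem cov_lift {n : ℕ} (i : Fin n → Fin N)
    {C : ∀ c : (ordCls σ).ι, (Fin n → (ordCls σ).car c) → Prop}
    (hC : UDef (ordCls σ) (fun c (u : Fin n → (ordCls σ).car c) => C c u)) :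
    Cov (σ := σ) (r := r) (N := N) (fun c v => ∃ a, C c a ∧ ∀ s, v (i s) = pt r (a s)) :=
  (Cov.of (ppat i C hC (fun _ _ _ _ _ => True) (fun _ _ => UDef.const _))).congr fun c v => by
    rw [ppat_mem]
    simp

theorem cov_lift' (hr : 1 ≤ r) {n : ℕ} (i : Fin n → Fin N)
    {C : ∀ c : (ordCls σ).ι, (Fin n → (ordCls σ).car c) → Prop}
    (hC : UDef (ordCls σ) (fun c (u : Fin n → (ordCls σ).car c) => C c u)) :
    Cov (σ := σ) (r := r) (N := N) (fun c v => ¬ ∃ a, C c a ∧ ∀ s, v (i s) = pt r (a s)) := by
  refine ((Cov.exists fun s => cov_notPt (i s)).or (cov_lift i hC.not)).congr fun c v => ?_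
  constructor
  · rintro (⟨s, hs⟩ | ⟨a, h1, h2⟩) ⟨b, h3, h4⟩
    · exact hs ⟨_, h4 s⟩
    · have : a = b := funext fun s => pt_inj' hr ((h2 s).symm.trans (h4 s))
      rw [this] at h1
      exact h1 h3
  · intro h
    by_cases h1 : ∃ s, ¬ ∃ a : (ordCls σ).car c, v (i s) = pt r a
    · exact Or.inl h1
    · right
      push Not at h1
      choose a ha using h1
      exact ⟨a, fun h2 => h ⟨a, h2, ha⟩, ha⟩
  where
  pt_inj' {r : ℕ} (hr : 1 ≤ r) {A : Type} {a b : A} (h : pt r a = pt r b) : a = b := by
    unfold pt at h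
    have := Set.singleton_injective h
    exact congrFun this ⟨0, hr⟩

/-- membership -/
theorem cov_mem (b₀ : Bool) (i : Fin r → Fin N) (j : Fin N) :
    Cov (σ := σ) (r := r) (N := N)
      (fun c v => ∃ a : Fin r → (ordCls σ).car c, (a ∈ v j ↔ b₀ = true) ∧
        ∀ s, v (i s) = pt r (a s)) := by
  refine (Cov.of (ppat i (fun _ _ => True) (UDef.const _)
    (fun b n' c x a => n' = j → (∀ t, x t = a t) → b = b₀)
    (fun b n' => (UDef.const _).imp ((UDef.forallFin fun t =>
      UDef.eq (𝒞 := ordCls σ) (Sum.inl t) (Sum.inr t)).imp (UDef.const _))))).congr fun c v => ?_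
  rw [ppat_mem]
  refine exists_congr fun a => ?_
  constructor
  · rintro ⟨_, h1, h2⟩
    refine ⟨?_, h1⟩
    by_cases ha : a ∈ v j
    · have := (h2 j a).1 ha rfl (fun _ => rfl)
      simp [ha, ← this]
    · have := (h2 j a).2 ha rfl (fun _ => rfl)
      simp [ha, ← this]
  · rintro ⟨h1, h2⟩
    refine ⟨trivial, h2, fun n' x => ⟨?_, ?_⟩⟩
    · rintro hx rfl he
      have : x = a := funext he
      rw [this] at hx
      exact (h1.1 hx).symm
    · rintro hx rfl he
      have : x = a := funext he
      rw [this] at hx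
      cases b₀
      · rfl
      · exact absurd (h1.2 rfl) hx

theorem cov_mem' (hr : 1 ≤ r) (i : Fin r → Fin N) (j : Fin N) :
    Cov (σ := σ) (r := r) (N := N)
      (fun c v => ¬ ∃ a : Fin r → (ordCls σ).car c, a ∈ v j ∧ ∀ s, v (i s) = pt r (a s)) := by
  refine ((Cov.exists fun s => cov_notPt (i s)).or (cov_mem false i j)).congr fun c v => ?_
  constructor
  · rintro (⟨s, hs⟩ | ⟨a, h1, h2⟩) ⟨b, h3, h4⟩
    · exact hs ⟨_, h4 s⟩
    · have : a = b := funext fun s => cov_lift'.pt_inj' hr ((h2 s).symm.trans (h4 s))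
      rw [this] at h1
      simpa using h1.1 h3
  · intro h
    by_cases h1 : ∃ s, ¬ ∃ a : (ordCls σ).car c, v (i s) = pt r a
    · exact Or.inl h1
    · right
      push Not at h1
      choose a ha using h1
      refine ⟨a, ?_, ha⟩
      constructor
      · intro h2
        exact absurd ⟨a, h2, ha⟩ h
      · intro h2
        simp at h2

/-- membership of the element coded by a singleton -/
theorem cov_sing (b₀ : Bool) (e j : Fin N) :
    Cov (σ := σ) (r := r) (N := N)
      (fun c v => ∃ a : Fin r → (ordCls σ).car c, v e = {a} ∧ (a ∈ v j ↔ b₀ = true)) := by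
  let p : Pat σ r N :=
    { Par := Fin r
      fin := inferInstance
      al := fun b n' c x a => (n' = e → (b = true ↔ ∀ t, x t = a t)) ∧
        (n' = j → (∀ t, x t = a t) → b = b₀)
      cond := fun _ _ => True
      hal := fun b n' => UDef.and ((UDef.const _).imp ((UDef.const _).iff (UDef.forallFin fun t =>
        UDef.eq (𝒞 := ordCls σ) (Sum.inl t) (Sum.inr t)))) ((UDef.const _).imp
        ((UDef.forallFin fun t =>
        UDef.eq (𝒞 := ordCls σ) (Sum.inl t) (Sum.inr t)).imp (UDef.const _)))
      hcond := UDef.const _ }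
  refine (Cov.of p).congr fun c v => ?_
  refine exists_congr fun a => ?_
  constructor
  · rintro ⟨_, h2⟩
    refine ⟨?_, ?_⟩
    · ext x
      by_cases hx : x ∈ v e
      · have := ((h2 e x).1 hx).1 rfl
        simp only [true_iff] at this
        simp [hx, funext_iff, this]
      · have := ((h2 e x).2 hx).1 rfl
        simp only [Bool.false_eq_true, false_iff] at this
        simp only [hx, false_iff, Set.mem_singleton_iff, funext_iff]
        exact this
    · by_cases ha : a ∈ v j
      · have := ((h2 j a).1 ha).2 rfl (fun _ => rfl)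
        simp [ha, ← this]
      · have := ((h2 j a).2 ha).2 rfl (fun _ => rfl)
        simp [ha, ← this]
  · rintro ⟨h1, h2⟩
    refine ⟨trivial, fun n' x => ⟨fun hx => ⟨?_, ?_⟩, fun hx => ⟨?_, ?_⟩⟩⟩
    · rintro rfl
      rw [h1] at hx
      have hx' : x = a := hx
      simp [hx']
    · rintro rfl he
      have : x = a := funext he
      rw [this] at hx
      exact (h2.1 hx).symm
    · rintro rfl
      rw [h1] at hx
      have hx' : ¬ x = a := hx
      rw [funext_iff] at hx'
      simp only [Bool.false_eq_true, false_iff]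
      exact hx'
    · rintro rfl he
      have : x = a := funext he
      rw [this] at hx
      cases b₀
      · rfl
      · exact absurd (h2.2 rfl) hx

/-- not a singleton -/
theorem cov_notSing (e : Fin N) : Cov (σ := σ) (r := r) (N := N)
    (fun c v => ¬ ∃ a : Fin r → (ordCls σ).car c, v e = {a}) := by
  classical
  let p2 : Pat σ r N :=
    { Par := Fin r ⊕ Fin r
      fin := inferInstance
      al := fun b n' c x y => n' = e → ((∀ t, x t = y (Sum.inl t)) ∨ (∀ t, x t = y (Sum.inr t))) →
        b = true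
      cond := fun c y => ∃ s, y (Sum.inl s) ≠ y (Sum.inr s)
      hal := fun b n' => (UDef.const _).imp ((UDef.or (UDef.forallFin fun t =>
        UDef.eq (𝒞 := ordCls σ) (Sum.inl t) (Sum.inr (Sum.inl t))) (UDef.forallFin fun t =>
        UDef.eq (𝒞 := ordCls σ) (Sum.inl t) (Sum.inr (Sum.inr t)))).imp (UDef.const _))
      hcond := UDef.existsFin fun s => (UDef.eq _ _).not }
  refine ((Cov.of (EncE.cpat false e)).or (Cov.of p2)).congr fun c v => ?_
  rw [EncE.cpat_mem]
  have m2 : p2.Mem c v ↔ ∃ y ∈ v e, ∃ z ∈ v e, y ≠ z := by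
    constructor
    · rintro ⟨y, ⟨s, h1⟩, h2⟩
      refine ⟨y ∘ Sum.inl, ?_, y ∘ Sum.inr, ?_, ?_⟩
      · by_contra hy
        have := (h2 e _).2 hy rfl (Or.inl fun _ => rfl)
        simp at this
      · by_contra hy
        have := (h2 e _).2 hy rfl (Or.inr fun _ => rfl)
        simp at this
      · intro he
        exact h1 (congrFun he s)
    · rintro ⟨y, h1, z, h2, h3⟩
      refine ⟨Sum.elim y z, ?_, fun n' x => ⟨fun _ _ _ => rfl, ?_⟩⟩
      · by_contra hcon
        apply h3
        funext s
        by_contra hs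
        exact hcon ⟨s, hs⟩
      · rintro hx rfl (he | he)
        · have : x = y := funext he
          rw [this] at hx
          exact absurd h1 hx
        · have : x = z := funext he
          rw [this] at hx
          exact absurd h2 hx
  rw [m2]
  constructor
  · rintro (h | ⟨y, h1, z, h2, h3⟩) ⟨a, ha⟩
    · rw [h] at ha
      have h' : a ∈ ({a} : Us r c) := rfl
      rw [← ha] at h'
      simp at h'
    · rw [ha] at h1 h2
      have h1' : y = a := h1
      have h2' : z = a := h2
      exact h3 (h1'.trans h2'.symm)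
  · intro h
    by_cases h0 : v e = ∅
    · exact Or.inl h0
    · right
      obtain ⟨y, hy⟩ := Set.nonempty_iff_ne_empty.2 h0
      by_contra hcon
      push Not at hcon
      refine h ⟨y, ?_⟩
      ext z
      constructor
      · intro hz
        exact (hcon _ hy z hz).symm
      · intro hz
        have : z = y := hz
        rw [this]
        exact hy

theorem cov_sing' (e j : Fin N) :
    Cov (σ := σ) (r := r) (N := N)
      (fun c v => ¬ ∃ a : Fin r → (ordCls σ).car c, v e = {a} ∧ a ∈ v j) := by
  refine ((cov_notSing e).or (cov_sing false e j)).congr fun c v => ?_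
  constructor
  · rintro (h | ⟨a, h1, h2⟩) ⟨b, h3, h4⟩
    · exact h ⟨b, h3⟩
    · have : a = b := Set.singleton_injective (h1.symm.trans h3)
      rw [this] at h2
      simpa using h2.1 h4
  · intro h
    by_cases h1 : ∃ a, v e = {a}
    · right
      obtain ⟨a, ha⟩ := h1
      refine ⟨a, ha, ?_⟩
      constructor
      · intro h2
        exact absurd ⟨a, ha, h2⟩ h
      · intro h2
        simp at h2
    · exact Or.inl h1

end Pool.Agent.H92.Desc
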