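import Pool.Agent.H92.Desc.EEnc

/-!
Encoding of first-order formulas over the structures of all `r`-ary relations.
-/

namespace Pool.Agent.H92.Desc

open FirstOrder FirstOrder.Language Simon

variable {σ σ' : FirstOrder.Language.{0, 0}} {r b a : ℕ}

/-- the relations `γ₀ · S` only depend on the argument coordinates -/
def GoodE (r b a : ℕ) (c : (ordCls σ).ι)
    (γ₀ : (Fin (b + a + 1) → Us r c) → (Σ n, σ'.Relations n) → Bool) : Prop :=
  ∀ (S : Σ n, σ'.Relations n) (v v' : Fin (b + a + 1) → Us r c),
    (∀ i : Fin (b + a + 1), b ≤ i.1 → i.1 < b + S.1 → v i = v' i) → γ₀ v S = γ₀ v' S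

/-- padding -/
def padE (b a : ℕ) (c : (ordCls σ).ι) {n : ℕ} (x : Fin n → Us r c) : Fin (b + a + 1) → Us r c :=
  fun i => if h : b ≤ i.1 ∧ i.1 < b + n then x ⟨i.1 - b, by omega⟩ else ∅

/-- the structure coded by a base assignment -/
@[instance_reducible]
def strE (hσ' : σ'.IsRelational) (c : (ordCls σ).ι)
    (γ₀ : (Fin (b + a + 1) → Us r c) → (Σ n, σ'.Relations n) → Bool) :
    σ'.Structure (Us r c) where
  funMap := fun {n} f => ((hσ' n).false f).elim
  RelMap := fun {n} S x => γ₀ (padE b a c x) ⟨n, S⟩ = true

/-- realization in the expansion coded by a base assignment -/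
def RealE (hσ' : σ'.IsRelational) {n : ℕ}
    (φ : ((powLang σ r).sum σ').BoundedFormula Empty n) (c : (ordCls σ).ι)
    (γ₀ : (Fin (b + a + 1) → Us r c) → (Σ n, σ'.Relations n) → Bool) (x : Fin n → Us r c) : Prop :=
  @BoundedFormula.Realize ((powLang σ r).sum σ') (Us r c)
    (@sumStructure (powLang σ r) σ' (Us r c) (powStr r c.1.str) (strE hσ' c γ₀)) Empty n φ
    (fun e => e.elim) x

variable {Good : ∀ c : (ordCls σ).ι, ((Fin (b + a + 1) → Us r c) → (Σ n, σ'.Relations n) → Bool) →
    Prop}

/-- equality of two coordinates -/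
theorem encE_eq (i j : Fin (b + a + 1)) (hi : i.1 < b + a) (hj : j.1 < b + a) :
    EncE Good (fun _ _ v => v i = v j) := by
  let e : Fin (b + a + 1) := ⟨b + a, by omega⟩
  have hie : i ≠ e := by
    intro h
    have := congrArg Fin.val h
    simp only [e] at this
    omega
  have hje : j ≠ e := by
    intro h
    have := congrArg Fin.val h
    simp only [e] at this
    omega
  have h1 : ∀ k : Fin (b + a + 1), EncE Good (fun c _ v =>
      ∃ x : Fin r → (ordCls σ).car c, v e = {x} ∧ x ∈ v k) := fun k =>
    EncE.ofCov ((cov_sing true e k).congr fun c v => by simp) (cov_sing' e k)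
  refine (EncE.all e ((h1 i).iff (h1 j))).congr fun c γ₀ _ v => ?_
  simp only [Function.update_self, Function.update_of_ne hie, Function.update_of_ne hje]
  constructor
  · intro h
    ext x
    have := h {x}
    simp only [Set.singleton_eq_singleton_iff, exists_eq_left'] at this
    exact this
  · intro h X
    rw [h]

theorem enc_formulaE (hr : 1 ≤ r) (hσ : σ.IsRelational) (hσ' : FinRel σ')
    (ha : ∀ S : Σ n, σ'.Relations n, S.1 ≤ a) {n : ℕ}
    (φ : ((powLang σ r).sum σ').BoundedFormula Empty n) :
    ∀ hn : bd φ ≤ b, EncE (σ := σ) (r := r) (GoodE (σ' := σ') r b a) (fun c γ₀ v =>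
      RealE hσ'.1 φ c γ₀ (fun i => v (Fin.castLE (by
        have := le_bd φ
        omega) i))) := by
  have hrel : ((powLang σ r).sum σ').IsRelational := fun n =>
    ⟨fun f => by
      rcases f with f | f
      · exact Empty.elim f
      · exact (hσ'.1 n).false f⟩
  induction φ with
  | falsum =>
    intro hn
    exact (EncE.const False).congr fun c γ v _ => Iff.rfl
  | @equal n t₁ t₂ =>
    intro hn
    obtain ⟨i, rfl⟩ := term_var hrel t₁
    obtain ⟨j, rfl⟩ := term_var hrel t₂
    have hn' : n ≤ b := hn
    refine (encE_eq (Fin.castLE (by omega) i) (Fin.castLE (by omega) j)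
      (by simp only [Fin.val_castLE]; omega) (by simp only [Fin.val_castLE]; omega)).congr
      fun c γ _ v => ?_
    exact Iff.rfl
  | @rel n l R ts =>
    intro hn
    have hn' : n ≤ b := hn
    have hts : ∀ k, ∃ i, ts k = Term.var (Sum.inr i) := fun k => term_var hrel (ts k)
    choose t ht using hts
    obtain rfl : ts = fun k => Term.var (Sum.inr (t k)) := funext ht
    rcases R with R | S
    · cases R with
      | @lift l R =>
        refine (EncE.ofCov (cov_lift (fun k => Fin.castLE (by omega) (t k))
          (UDef.srel (σ := σ) R id)) (cov_lift' hr (fun k => Fin.castLE (by omega) (t k))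
          (UDef.srel (σ := σ) R id))).congr fun c γ _ v => ?_
        exact Iff.rfl
      | mem =>
        refine (EncE.ofCov ((cov_mem true (fun s : Fin r => Fin.castLE (by omega) (t s.castSucc))
          (Fin.castLE (by omega) (t (Fin.last r)))).congr fun c v => ?_)
          (cov_mem' hr (fun s : Fin r => Fin.castLE (by omega) (t s.castSucc))
          (Fin.castLE (by omega) (t (Fin.last r))))).congr fun c γ _ v => ?_
        · simp only [iff_true]
        · exact Iff.rfl
    · have hl : l ≤ a := ha ⟨l, S⟩
      let arg : Fin l → Fin (b + a + 1) := fun j => ⟨b + j.1, by omega⟩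
      let cast : Fin n → Fin (b + a + 1) := fun i => Fin.castLE (by omega) i
      classical
      let T : Finset (Fin (b + a + 1)) := Finset.univ.image arg
      have hT : ∀ i, i ∈ T ↔ b ≤ i.1 ∧ i.1 < b + l := by
        intro i
        simp only [T, Finset.mem_image, Finset.mem_univ, true_and]
        constructor
        · rintro ⟨j, rfl⟩
          simp only [arg]
          omega
        · rintro ⟨h1, h2⟩
          exact ⟨⟨i.1 - b, by omega⟩, Fin.ext (by simp only [arg]; omega)⟩
      have hcT : ∀ i, cast i ∉ T := by
        intro i hi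
        have := ((hT _).1 hi).1
        simp only [cast, Fin.val_castLE] at this
        omega
      refine (EncE.enc_allT T (EncE.impFin (ι := Fin l)
        (P := fun j _ _ v => v (arg j) = v (cast (t j)))
        (fun j => encE_eq (arg j) (cast (t j)) (by simp only [arg]; omega)
          (by simp only [cast, Fin.val_castLE]; omega)) (EncE.atom ⟨l, S⟩))).congr
          fun c γ₀ hg v => ?_
      change (∀ y, (∀ i, i ∉ T → y i = v i) → (∀ j, y (arg j) = y (cast (t j))) →
        γ₀ y ⟨l, S⟩ = true) ↔ γ₀ (padE b a c (fun k => v (cast (t k)))) ⟨l, S⟩ = true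
      have key : ∀ y : Fin (b + a + 1) → Us r c, (∀ j, y (arg j) = v (cast (t j))) →
          γ₀ y ⟨l, S⟩ = γ₀ (padE b a c (fun k => v (cast (t k)))) ⟨l, S⟩ := by
        intro y hy
        apply hg
        intro i h1 h2
        have h2' : i.1 < b + l := h2
        have e1 : i = arg ⟨i.1 - b, by omega⟩ := Fin.ext (by simp only [arg]; omega)
        have e2 : padE b a c (fun k => v (cast (t k))) i = v (cast (t ⟨i.1 - b, by omega⟩)) := by
          unfold padE
          rw [dif_pos ⟨h1, h2'⟩]
        rw [e2, ← hy, ← e1]
      constructor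
      · intro h
        let y : Fin (b + a + 1) → Us r c := fun i =>
          if hi : b ≤ i.1 ∧ i.1 < b + l then v (cast (t ⟨i.1 - b, by omega⟩)) else v i
        have hyarg : ∀ j, y (arg j) = v (cast (t j)) := by
          intro j
          have hj : b ≤ (arg j).1 ∧ (arg j).1 < b + l := by
            simp only [arg]
            omega
          simp only [y, dif_pos hj]
          congr 3
          apply Fin.ext
          simp only [arg]
          omega
        have hyT : ∀ i, i ∉ T → y i = v i := by
          intro i hi
          rw [hT] at hi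
          simp only [y, dif_neg hi]
        rw [← key y hyarg]
        refine h y hyT fun j => ?_
        rw [hyarg, hyT _ (hcT _)]
      · intro h y hyT hyarg
        rw [key y (fun j => (hyarg j).trans (hyT _ (hcT _)))]
        exact h
  | @imp n φ ψ h1 h2 =>
    intro hn
    exact (EncE.imp (h1 ((le_max_left _ _).trans hn)) (h2 ((le_max_right _ _).trans hn))).congr
      fun c γ _ v => Iff.rfl
  | @all n φ ih =>
    intro hn
    have hn' : bd φ ≤ b := hn
    have hlt : n < b := lt_of_lt_of_le (Nat.lt_succ_self n) ((le_bd φ).trans hn')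
    refine (EncE.all ⟨n, by omega⟩ (ih hn')).congr fun c γ _ v => ?_
    refine forall_congr' fun x => ?_
    have : (fun i : Fin (n + 1) => Function.update v (⟨n, by omega⟩ : Fin (b + a + 1)) x
        (Fin.castLE (by omega) i)) =
        Fin.snoc (α := fun _ => Us r c)
          (fun i : Fin n => v (Fin.castLE (by omega) i)) x := by
      funext i
      refine Fin.lastCases ?_ (fun i => ?_) i
      · rw [Fin.snoc_last]
        have : Fin.castLE (by omega) (Fin.last n) = (⟨n, by omega⟩ : Fin (b + a + 1)) := rfl
        rw [this, Function.update_self]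
      · rw [Fin.snoc_castSucc]
        rw [Function.update_of_ne]
        · rfl
        · intro h
          have := congrArg Fin.val h
          simp at this
          omega
    rw [this]
    exact Iff.rfl

/-- invariance in one coordinate -/
theorem inv_coord {K : Type} {N : ℕ} {c : (ordCls σ).ι} {γ : (Fin N → Us r c) → K → Bool} {q : K}
    {n : Fin N} (h : ∀ v X, nv c X = nv c (v n) + 1 → γ v q = γ (Function.update v n X) q) :
    ∀ v X, γ v q = γ (Function.update v n X) q := by
  have hrt : ∀ (d : ℕ) (v : Fin N → Us r c), nv c (v n) + d = nv c (Set.univ : Us r c) →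
      γ v q = γ (Function.update v n Set.univ) q := by
    intro d
    induction d with
    | zero =>
      intro v hv
      have : v n = Set.univ := nv_inj (by omega)
      have h4 : Function.update v n Set.univ = v := by
        rw [← this]
        exact Function.update_eq_self n v
      rw [h4]
    | succ d ih =>
      intro v hv
      obtain ⟨X, hX⟩ := exists_nv (r := r) (c := c) (n := nv c (v n) + 1) (by omega)
      rw [h v X hX, ih (Function.update v n X) (by rw [Function.update_self]; omega),
        Function.update_idem]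
  intro v X
  have h1 := nv_le_univ (v n)
  have h2 := nv_le_univ X
  rw [hrt (nv c (Set.univ : Us r c) - nv c (v n)) v (by omega),
    hrt (nv c (Set.univ : Us r c) - nv c X) (Function.update v n X)
      (by rw [Function.update_self]; omega), Function.update_idem]

/-- the pattern matched by all tuples -/
def tpat (σ : FirstOrder.Language.{0, 0}) (r N : ℕ) : Pat σ r N :=
  ⟨Empty, inferInstance, fun _ _ _ _ _ => True, fun _ _ => True, fun _ _ => UDef.const _,
    UDef.const _⟩

/-- Uniform encoding of NEXPTIME problems. -/
theorem nexp_con (hr : 1 ≤ r) (hσ : σ.IsRelational) {K' : Prob (powLang σ r)} (hK : InNP K') :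
    ∃ (N : ℕ) (K J : Type) (_ : Finite K) (_ : Finite J) (con : J → Con σ r N K),
      ∀ c : (ordCls σ).ι, K' (pow r c.1) ↔
        ∃ γ : (Fin N → Us r c) → K → Bool, ∀ j, (con j).Sat c γ := by
  classical
  obtain ⟨σ', hσ', φ, hφ⟩ := hK
  have hfin := hσ'.2
  have hfin' := Fintype.ofFinite (Σ n, σ'.Relations n)
  let a := Finset.univ.sup (fun r : Σ n, σ'.Relations n => r.1)
  have ha : ∀ S : Σ n, σ'.Relations n, S.1 ≤ a := fun S =>
    Finset.le_sup (f := fun r : Σ n, σ'.Relations n => r.1) (Finset.mem_univ S)
  let b := bd φ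
  obtain ⟨I, J, hI, hJ, con, ref, h1⟩ := enc_formulaE (a := a) (b := b) hr hσ hσ' ha φ le_rfl
  let N := b + a + 1
  -- invariance constraints
  let JI := {x : (Σ n, σ'.Relations n) × Fin N // x.2.1 < b ∨ b + x.1.1 ≤ x.2.1}
  let con' : (J ⊕ Unit) ⊕ JI → Con σ r N ((Σ n, σ'.Relations n) ⊕ I) :=
    Sum.elim (Sum.elim con (fun _ => Con.single (tpat σ r N) ref))
      (fun x => Con.pair x.1.2 (fun β β' => β (Sum.inl x.1.1) = β' (Sum.inl x.1.1)))
  refine ⟨N, (Σ n, σ'.Relations n) ⊕ I, (J ⊕ Unit) ⊕ JI, inferInstance, inferInstance, con', ?_⟩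
  intro c
  have hgood : ∀ γ : (Fin N → Us r c) → (Σ n, σ'.Relations n) ⊕ I → Bool,
      (∀ x : JI, (Con.pair x.1.2 (fun β β' : (Σ n, σ'.Relations n) ⊕ I → Bool =>
        β (Sum.inl x.1.1) = β' (Sum.inl x.1.1))).Sat c γ) ↔
      GoodE (σ' := σ') r b a c (fun v b => γ v (Sum.inl b)) := by
    intro γ
    constructor
    · intro h S v v' hv
      have inv : ∀ i : Fin N, (i.1 < b ∨ b + S.1 ≤ i.1) → ∀ v X,
          γ v (Sum.inl S) = γ (Function.update v i X) (Sum.inl S) := by
        intro i hi
        exact inv_coord (fun v X hX => h ⟨(S, i), hi⟩ v X hX)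
      -- change the coordinates one after the other
      have key : ∀ T : Finset (Fin N), (∀ i ∈ T, i.1 < b ∨ b + S.1 ≤ i.1) →
          γ v (Sum.inl S) = γ (fun i => if i ∈ T then v' i else v i) (Sum.inl S) := by
        intro T
        induction T using Finset.induction with
        | empty =>
          intro _
          simp
        | insert t T ht ih =>
          intro hT
          rw [ih (fun i hi => hT i (Finset.mem_insert_of_mem hi)),
            inv t (hT t (Finset.mem_insert_self _ _)) _ (v' t)]
          congr 1
          funext i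
          by_cases hit : i = t
          · subst hit
            rw [Function.update_self, if_pos (Finset.mem_insert_self _ _)]
          · rw [Function.update_of_ne hit]
            simp only [Finset.mem_insert, hit, false_or]
      have := key (Finset.univ.filter (fun i : Fin N => i.1 < b ∨ b + S.1 ≤ i.1)) (by simp)
      beta_reduce
      rw [this]
      congr 1
      funext i
      by_cases hi : i.1 < b ∨ b + S.1 ≤ i.1
      · simp [hi]
      · simp only [Finset.mem_filter, Finset.mem_univ, true_and, hi, if_false]
        exact hv i (by omega) (by omega)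
    · intro h x v X _
      refine h x.1.1 v _ fun i h2 h3 => ?_
      rw [Function.update_of_ne]
      intro he
      rw [he] at h2 h3
      rcases x.2 with h4 | h4
      · omega
      · omega
  have hsat : ∀ γ : (Fin N → Us r c) → (Σ n, σ'.Relations n) ⊕ I → Bool,
      (∀ j, (con' j).Sat c γ) ↔
      (∀ j, (con j).Sat c γ) ∧ (∀ v, ref (γ v)) ∧
        GoodE (σ' := σ') r b a c (fun v b => γ v (Sum.inl b)) := by
    intro γ
    rw [← hgood]
    constructor
    · intro h
      refine ⟨fun j => h (Sum.inl (Sum.inl j)), fun v => ?_, fun x => h (Sum.inr x)⟩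
      exact h (Sum.inl (Sum.inr ())) v ⟨fun e => e.elim, trivial, fun _ _ =>
        ⟨fun _ => trivial, fun _ => trivial⟩⟩
    · rintro ⟨h2, h3, h4⟩ ((j | j) | j)
      · exact h2 j
      · exact fun v _ => h3 v
      · exact h4 j
  rw [hφ (pow r c.1)]
  constructor
  · rintro ⟨s, hs⟩
    let γ₀ : (Fin N → Us r c) → (Σ n, σ'.Relations n) → Bool := fun v S =>
      decide (@Structure.RelMap σ' (Us r c) s _ S.2 (fun j => v ⟨b + j.1, by
        have := ha S
        have := j.2
        omega⟩))
    have hg : GoodE (σ' := σ') r b a c γ₀ := by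
      intro S v v' hv
      simp only [γ₀]
      congr 2
      funext j
      refine hv _ ?_ ?_
      · simp
      · simp
    have hstr : strE (σ := σ) (b := b) (a := a) hσ'.1 c γ₀ = s := by
      apply Structure.ext
      · funext n f
        exact ((hσ'.1 n).false f).elim
      · funext n R x
        change (γ₀ (padE b a c x) ⟨n, R⟩ = true) = @Structure.RelMap σ' _ s _ R x
        simp only [γ₀, decide_eq_true_eq]
        congr 1
        funext j
        have hj : b ≤ b + j.1 ∧ b + j.1 < b + n := by
          have := j.2
          omega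
        simp only [padE, dif_pos hj]
        congr 1
        apply Fin.ext
        simp
    obtain ⟨γ, hγ, hsatγ⟩ := (h1 c).1 γ₀ hg
    have hγ' : (fun v b => γ v (Sum.inl b)) = γ₀ := by
      funext v b
      exact hγ v b
    refine ⟨γ, (hsat γ).2 ⟨hsatγ, fun v => ?_, by rw [hγ']; exact hg⟩⟩
    refine ((h1 c).2 γ (by rw [hγ']; exact hg) hsatγ v).2 ?_
    rw [hγ']
    change RealE hσ'.1 φ c γ₀ (fun i : Fin 0 => v (Fin.castLE (by omega) i))
    unfold RealE
    rw [hstr]
    have key : ∀ (v1 : Empty → Us r c) (v2 : Fin 0 → Us r c),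
        @BoundedFormula.Realize ((powLang σ r).sum σ') (Us r c)
        (@sumStructure (powLang σ r) σ' (Us r c) (powStr r c.1.str) s) Empty 0 φ v1 v2 := by
      intro v1 v2
      have gen : ∀ (w1 : Empty → Us r c) (w2 : Fin 0 → Us r c),
          @BoundedFormula.Realize ((powLang σ r).sum σ') (Us r c)
          (@sumStructure (powLang σ r) σ' (Us r c) (powStr r c.1.str) s) Empty 0 φ w1 w2 →
          @BoundedFormula.Realize ((powLang σ r).sum σ') (Us r c)
          (@sumStructure (powLang σ r) σ' (Us r c) (powStr r c.1.str) s) Empty 0 φ v1 v2 := by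
        intro w1 w2 h
        rw [Subsingleton.elim v1 w1, Subsingleton.elim v2 w2]
        exact h
      exact gen _ _ hs
    exact key _ _
  · rintro ⟨γ, hγ⟩
    obtain ⟨s1, s2, s3⟩ := (hsat γ).1 hγ
    refine ⟨strE (σ := σ) (b := b) (a := a) hσ'.1 c (fun v b => γ v (Sum.inl b)), ?_⟩
    let v : Fin N → Us r c := fun _ => ∅
    have s4 := ((h1 c).2 γ s3 s1 v).1 (s2 v)
    have s5 : RealE hσ'.1 φ c (fun v b => γ v (Sum.inl b))
      (fun i => v (Fin.castLE (by omega) i)) := s4
    unfold RealE at s5
    have key : ∀ (v1 : Empty → Us r c) (v2 : Fin 0 → Us r c),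
        @BoundedFormula.Realize ((powLang σ r).sum σ') (Us r c)
        (@sumStructure (powLang σ r) σ' (Us r c) (powStr r c.1.str)
          (strE (σ := σ) (b := b) (a := a) hσ'.1 c (fun v b => γ v (Sum.inl b)))) Empty 0 φ
          v1 v2 := by
      intro v1 v2
      have e2 : (fun i : Fin 0 => v (Fin.castLE (by omega) i)) = v2 := Subsingleton.elim _ _
      have e3 : (fun e : Empty => (e.elim : Us r c)) = v1 := Subsingleton.elim _ _
      rw [e2, e3] at s5
      exact s5
    exact key _ _

end Pool.Agent.H92.Desc
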