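import Pool.Agent.H92.Desc.Defs

/-!
Descriptive complexity: the class NEXPTIME through power structures, and completeness for
coNEXPTIME under first-order reductions.
-/

namespace Pool.Agent.H92.Desc

open FirstOrder FirstOrder.Language

/-- Symbols of the vocabulary of the structures `pow r A`: the symbols of `σ` and a symbol for
membership. -/
inductive PowRel (σ : FirstOrder.Language.{0, 0}) (r : ℕ) : ℕ → Type
  | lift {n : ℕ} (R : σ.Relations n) : PowRel σ r n
  | mem : PowRel σ r (r + 1)

/-- The vocabulary of the structures `pow r A`. -/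
def powLang (σ : FirstOrder.Language.{0, 0}) (r : ℕ) : FirstOrder.Language.{0, 0} :=
  ⟨fun _ => Empty, PowRel σ r⟩

/-- The set `{(a, ..., a)}`, which stands for the element `a`. -/
def pt (r : ℕ) {A : Type} (a : A) : Set (Fin r → A) := {fun _ => a}

/-- The structure on the set of all `r`-ary relations on `A`: the symbols of `σ` are interpreted
on the sets `pt a`, and `mem (pt a₁) ... (pt aᵣ) X` says that `(a₁, ..., aᵣ) ∈ X`. -/
@[instance_reducible]
def powStr {σ : FirstOrder.Language.{0, 0}} (r : ℕ) {A : Type} (s : σ.Structure A) :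
    (powLang σ r).Structure (Set (Fin r → A)) where
  funMap := fun f => f.elim
  RelMap := fun {n} (R : PowRel σ r n) => match n, R with
    | _, PowRel.lift R => fun X =>
        ∃ a, @Structure.RelMap σ A s _ R a ∧ ∀ i, X i = pt r (a i)
    | _, PowRel.mem => fun X =>
        ∃ a, a ∈ X (Fin.last r) ∧ ∀ i : Fin r, X i.castSucc = pt r (a i)

/-- The structure of all `r`-ary relations on `A`; it has `2 ^ (n ^ r)` elements if `A` has `n`
elements. -/
def pow {σ : FirstOrder.Language.{0, 0}} (r : ℕ) (A : FinStr σ) : FinStr (powLang σ r) where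
  carrier := Set (Fin r → A.carrier)
  fin := by
    have := A.fin
    exact inferInstance
  ne := inferInstance
  str := powStr r A.str

/-- NEXPTIME: for some `r`, membership of `A` in `K` is an NP property of the structure
`pow r A`, whose size is `2 ^ (n ^ r)`. (By Fagin's theorem this is nondeterministic time
`2 ^ O(n ^ r)`. Equivalently, `K` is definable by an existential third-order sentence.) -/
def InNEXP {σ : FirstOrder.Language.{0, 0}} (K : Prob σ) : Prop :=
  ∃ r : ℕ, 1 ≤ r ∧ ∃ K' : Prob (powLang σ r), InNP K' ∧ ∀ A : FinStr σ, K A ↔ K' (pow r A)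

/-- coNEXPTIME. -/
def InCoNEXP {σ : FirstOrder.Language.{0, 0}} (K : Prob σ) : Prop := InNEXP (fun A => ¬ K A)

/-- `K` is coNEXPTIME-hard under first-order reductions: every coNEXPTIME problem `K'` on the
finite structures of a finite relational vocabulary reduces to `K` by a first-order
interpretation in ordered structures. -/
def CoNEXPHard {τ : FirstOrder.Language.{0, 0}} (hτ : τ.IsRelational) (K : Prob τ) : Prop :=
  ∀ σ : FirstOrder.Language.{0, 0}, FinRel σ → ∀ K' : Prob σ, InCoNEXP K' →
    ∃ I : Interp (σ.sum FirstOrder.Language.order) τ,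
      ∀ (A : FinStr σ) (o : LinearOrder A.carrier), K' A ↔ K (I.image hτ A o)

/-- `K` is coNEXPTIME-complete. -/
def CoNEXPComplete {τ : FirstOrder.Language.{0, 0}} (hτ : τ.IsRelational) (K : Prob τ) : Prop :=
  InCoNEXP K ∧ CoNEXPHard hτ K

end Pool.Agent.H92.Desc
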