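import Pool.Agent.H92.Desc.NPEnc
import Pool.Agent.H92.Desc.Exp
import Pool.Agent.H92.Simon.Val

/-!
Exponentially large constraint systems: the variables are pairs of a sort and a tuple of
`r`-ary relations, ordered as binary counters.
-/

namespace Pool.Agent.H92.Desc

open FirstOrder FirstOrder.Language Simon

/-- the lexicographic order -/
def leL {A : Type} [LinearOrder A] {r : ℕ} (x y : Fin r → A) : Prop :=
  x = y ∨ ∃ i, (∀ k, k < i → x k = y k) ∧ x i < y i

theorem isLin_leL {A : Type} [LinearOrder A] {r : ℕ} : IsLin (leL : (Fin r → A) → (Fin r → A) → Prop) := by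
  have h : ∀ x y : Fin r → A, leL x y ↔ toLex x ≤ toLex y := by
    intro x y
    rw [le_iff_eq_or_lt]
    exact Iff.rfl
  refine ⟨fun x => Or.inl rfl, fun x y z => ?_, fun x y => ?_, fun x y => ?_⟩
  · rw [h, h, h]
    exact le_trans
  · rw [h, h]
    exact le_antisymm
  · rw [h, h]
    exact le_total _ _

variable {σ : FirstOrder.Language.{0, 0}} {r N : ℕ} {K K' : Type}

/-- the set of all `r`-ary relations -/
abbrev Us (r : ℕ) (c : (ordCls σ).ι) : Type := Set (Fin r → (ordCls σ).car c)

/-- the number coded by a relation -/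
noncomputable def nv (c : (ordCls σ).ι) (X : Us r c) : ℕ := val leL X

theorem nv_inj {c : (ordCls σ).ι} {X Y : Us r c} (h : nv c X = nv c Y) : X = Y :=
  val_inj isLin_leL h

theorem nv_zero {c : (ordCls σ).ι} {X : Us r c} : nv c X = 0 ↔ X = ∅ := val_eq_zero isLin_leL

theorem nv_univ {c : (ordCls σ).ι} :
    nv c (Set.univ : Us r c) + 1 = 2 ^ Nat.card (Fin r → (ordCls σ).car c) := val_univ isLin_leL

theorem nv_lt {c : (ordCls σ).ι} (X : Us r c) :
    nv c X < 2 ^ Nat.card (Fin r → (ordCls σ).car c) := val_lt isLin_leL X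

theorem nv_le_univ {c : (ordCls σ).ι} (X : Us r c) : nv c X ≤ nv c (Set.univ : Us r c) := by
  have h1 := nv_lt X
  have h2 := nv_univ (r := r) (c := c)
  omega

theorem exists_nv {c : (ordCls σ).ι} {n : ℕ} (h : n ≤ nv c (Set.univ : Us r c)) :
    ∃ X : Us r c, nv c X = n := by
  refine exists_val isLin_leL ?_
  have h2 := nv_univ (r := r) (c := c)
  omega

/-- a pattern: a condition on the digits of a tuple of relations, with parameters -/
structure Pat (σ : FirstOrder.Language.{0, 0}) (r N : ℕ) where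
  Par : Type
  fin : Finite Par
  al : Bool → Fin N → ∀ c : (ordCls σ).ι, (Fin r → (ordCls σ).car c) →
    (Par → (ordCls σ).car c) → Prop
  cond : ∀ c : (ordCls σ).ι, (Par → (ordCls σ).car c) → Prop
  hal : ∀ b n, UDef (ordCls σ) (fun c (u : Fin r ⊕ Par → (ordCls σ).car c) =>
    al b n c (u ∘ Sum.inl) (u ∘ Sum.inr))
  hcond : UDef (ordCls σ) (fun c (u : Par → (ordCls σ).car c) => cond c u)

/-- the tuple `v` matches the pattern with the parameters `π` -/
def Pat.At (p : Pat σ r N) (c : (ordCls σ).ι) (π : p.Par → (ordCls σ).car c)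
    (v : Fin N → Us r c) : Prop :=
  p.cond c π ∧ ∀ n x, (x ∈ v n → p.al true n c x π) ∧ (x ∉ v n → p.al false n c x π)

/-- the tuple `v` matches the pattern -/
def Pat.Mem (p : Pat σ r N) (c : (ordCls σ).ι) (v : Fin N → Us r c) : Prop := ∃ π, p.At c π v

/-- constraints -/
inductive Con (σ : FirstOrder.Language.{0, 0}) (r N : ℕ) (K : Type)
  | single (p : Pat σ r N) (F : (K → Bool) → Prop)
  | pair (n : Fin N) (F : (K → Bool) → (K → Bool) → Prop)

/-- satisfaction of a constraint -/
def Con.Sat : Con σ r N K → ∀ c : (ordCls σ).ι, ((Fin N → Us r c) → K → Bool) → Prop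
  | .single p F => fun c γ => ∀ v, p.Mem c v → F (γ v)
  | .pair n F => fun c γ => ∀ v X, nv c X = nv c (v n) + 1 → F (γ v) (γ (Function.update v n X))

/-- reindexing -/
def Con.map (e : K → K') : Con σ r N K → Con σ r N K'
  | .single p F => .single p (fun β => F (β ∘ e))
  | .pair n F => .pair n (fun β β' => F (β ∘ e) (β' ∘ e))

theorem Con.sat_map (e : K → K') (κ : Con σ r N K) (c : (ordCls σ).ι)
    (γ : (Fin N → Us r c) → K' → Bool) :
    (κ.map e).Sat c γ ↔ κ.Sat c (fun v => γ v ∘ e) := by
  cases κ <;> exact Iff.rfl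

/-- the set of all patterns whose union is `P` -/
def Cov (P : ∀ c : (ordCls σ).ι, (Fin N → Us r c) → Prop) : Prop :=
  ∃ (J : Type) (_ : Finite J) (p : J → Pat σ r N), ∀ c v, P c v ↔ ∃ j, (p j).Mem c v

theorem Cov.congr {P Q : ∀ c : (ordCls σ).ι, (Fin N → Us r c) → Prop} (h : Cov P)
    (h' : ∀ c v, P c v ↔ Q c v) : Cov Q := by
  obtain ⟨J, hJ, p, hp⟩ := h
  exact ⟨J, hJ, p, fun c v => (h' c v).symm.trans (hp c v)⟩

theorem Cov.of (p : Pat σ r N) : Cov (fun c v => p.Mem c v) :=
  ⟨Unit, inferInstance, fun _ => p, fun _ _ => ⟨fun h => ⟨(), h⟩, fun ⟨_, h⟩ => h⟩⟩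

theorem Cov.or {P Q : ∀ c : (ordCls σ).ι, (Fin N → Us r c) → Prop} (h : Cov P) (h' : Cov Q) :
    Cov (fun c v => P c v ∨ Q c v) := by
  obtain ⟨J, hJ, p, hp⟩ := h
  obtain ⟨J', hJ', p', hp'⟩ := h'
  refine ⟨J ⊕ J', inferInstance, Sum.elim p p', fun c v => ?_⟩
  beta_reduce
  rw [hp, hp', Sum.exists]
  exact Iff.rfl

theorem Cov.exists {ι : Type} [Finite ι] {P : ι → ∀ c : (ordCls σ).ι, (Fin N → Us r c) → Prop}
    (h : ∀ i, Cov (P i)) : Cov (fun c v => ∃ i, P i c v) := by
  choose J hJ p hp using h
  refine ⟨Σ i, J i, inferInstance, fun x => p x.1 x.2, fun c v => ?_⟩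
  constructor
  · rintro ⟨i, hi⟩
    obtain ⟨j, hj⟩ := (hp i c v).1 hi
    exact ⟨⟨i, j⟩, hj⟩
  · rintro ⟨⟨i, j⟩, hj⟩
    exact ⟨i, (hp i c v).2 ⟨j, hj⟩⟩

/-! The encodings -/

/-- encoding of a property of base assignments and tuples by constraints -/
def EncE {B : Type} (Good : ∀ c : (ordCls σ).ι, ((Fin N → Us r c) → B → Bool) → Prop)
    (Φ : ∀ c : (ordCls σ).ι, ((Fin N → Us r c) → B → Bool) → (Fin N → Us r c) → Prop) : Prop :=
  ∃ (I J : Type) (_ : Finite I) (_ : Finite J) (con : J → Con σ r N (B ⊕ I))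
    (ref : (B ⊕ I → Bool) → Prop), ∀ c : (ordCls σ).ι,
      (∀ γ₀, Good c γ₀ → ∃ γ : (Fin N → Us r c) → B ⊕ I → Bool,
        (∀ v b, γ v (Sum.inl b) = γ₀ v b) ∧ ∀ j, (con j).Sat c γ) ∧
      (∀ γ : (Fin N → Us r c) → B ⊕ I → Bool, Good c (fun v b => γ v (Sum.inl b)) →
        (∀ j, (con j).Sat c γ) → ∀ v, (ref (γ v) ↔ Φ c (fun v b => γ v (Sum.inl b)) v))

namespace EncE

variable {B : Type} {Good : ∀ c : (ordCls σ).ι, ((Fin N → Us r c) → B → Bool) → Prop}
  {Φ Ψ : ∀ c : (ordCls σ).ι, ((Fin N → Us r c) → B → Bool) → (Fin N → Us r c) → Prop}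

theorem congr (h : EncE Good Φ) (h' : ∀ c γ₀, Good c γ₀ → ∀ v, (Φ c γ₀ v ↔ Ψ c γ₀ v)) :
    EncE Good Ψ := by
  obtain ⟨I, J, hI, hJ, con, ref, h1⟩ := h
  refine ⟨I, J, hI, hJ, con, ref, fun c => ⟨(h1 c).1, fun γ hg hs v => ?_⟩⟩
  rw [← h' c _ hg v]
  exact (h1 c).2 γ hg hs v

theorem const (p : Prop) : EncE Good (fun _ _ _ => p) := by
  refine ⟨Empty, Empty, inferInstance, inferInstance, fun j => j.elim, fun _ => p,
    fun c => ⟨fun γ₀ _ => ⟨fun v => Sum.elim (γ₀ v) (fun i => i.elim), fun _ _ => rfl,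
      fun j => j.elim⟩, fun γ _ _ v => Iff.rfl⟩⟩

theorem atom (b : B) : EncE Good (fun _ γ₀ v => γ₀ v b = true) := by
  refine ⟨Empty, Empty, inferInstance, inferInstance, fun j => j.elim,
    fun β => β (Sum.inl b) = true,
    fun c => ⟨fun γ₀ _ => ⟨fun v => Sum.elim (γ₀ v) (fun i => i.elim), fun _ _ => rfl,
      fun j => j.elim⟩, fun γ _ _ v => Iff.rfl⟩⟩

theorem ofCov {P : ∀ c : (ordCls σ).ι, (Fin N → Us r c) → Prop} (h : Cov P)
    (h' : Cov (fun c v => ¬ P c v)) : EncE Good (fun c _ v => P c v) := by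
  classical
  obtain ⟨J, hJ, p, hp⟩ := h
  obtain ⟨J', hJ', p', hp'⟩ := h'
  refine ⟨Unit, J ⊕ J', inferInstance, inferInstance,
    Sum.elim (fun j => Con.single (p j) (fun β => β (Sum.inr ()) = true))
      (fun j => Con.single (p' j) (fun β => β (Sum.inr ()) = false)),
    fun β => β (Sum.inr ()) = true, fun c => ⟨fun γ₀ _ => ?_, fun γ _ hs v => ?_⟩⟩
  · refine ⟨fun v => Sum.elim (γ₀ v) (fun _ => decide (P c v)), fun _ _ => rfl, ?_⟩
    rintro (j | j) v hv
    · have := (hp c v).2 ⟨j, hv⟩
      simp [this]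
    · have := (hp' c v).2 ⟨j, hv⟩
      simp [this]
  · constructor
    · intro h1
      by_contra hcon
      obtain ⟨j, hj⟩ := (hp' c v).1 hcon
      have h2 : γ v (Sum.inr ()) = false := hs (Sum.inr j) v hj
      beta_reduce at h1
      rw [h2] at h1
      exact absurd h1 (by simp)
    · intro h1
      obtain ⟨j, hj⟩ := (hp c v).1 h1
      exact hs (Sum.inl j) v hj

theorem imp (h : EncE Good Φ) (h' : EncE Good Ψ) :
    EncE Good (fun c γ₀ v => Φ c γ₀ v → Ψ c γ₀ v) := by
  obtain ⟨I1, J1, hI1, hJ1, con1, ref1, h1⟩ := h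
  obtain ⟨I2, J2, hI2, hJ2, con2, ref2, h2⟩ := h'
  let e1 : B ⊕ I1 → B ⊕ (I1 ⊕ I2) := Sum.map id Sum.inl
  let e2 : B ⊕ I2 → B ⊕ (I1 ⊕ I2) := Sum.map id Sum.inr
  refine ⟨I1 ⊕ I2, J1 ⊕ J2, inferInstance, inferInstance,
    Sum.elim (fun j => (con1 j).map e1) (fun j => (con2 j).map e2),
    fun β => ref1 (β ∘ e1) → ref2 (β ∘ e2), fun c => ⟨fun γ₀ hg => ?_, fun γ hg hs v => ?_⟩⟩
  · obtain ⟨γ1, a1, b1⟩ := (h1 c).1 γ₀ hg
    obtain ⟨γ2, a2, b2⟩ := (h2 c).1 γ₀ hg
    let γ : (Fin N → Us r c) → B ⊕ (I1 ⊕ I2) → Bool := fun v => Sum.elim (γ₀ v)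
      (Sum.elim (fun i => γ1 v (Sum.inr i)) (fun i => γ2 v (Sum.inr i)))
    have q1 : (fun v => γ v ∘ e1) = γ1 := by
      funext v x
      rcases x with b | i
      · exact (a1 v b).symm
      · rfl
    have q2 : (fun v => γ v ∘ e2) = γ2 := by
      funext v x
      rcases x with b | i
      · exact (a2 v b).symm
      · rfl
    refine ⟨γ, fun _ _ => rfl, ?_⟩
    rintro (j | j)
    · rw [Sum.elim_inl, Con.sat_map, q1]
      exact b1 j
    · rw [Sum.elim_inr, Con.sat_map, q2]
      exact b2 j
  · have s1 : ∀ j, (con1 j).Sat c (fun v => γ v ∘ e1) := fun j => by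
      have := hs (Sum.inl j)
      rwa [Sum.elim_inl, Con.sat_map] at this
    have s2 : ∀ j, (con2 j).Sat c (fun v => γ v ∘ e2) := fun j => by
      have := hs (Sum.inr j)
      rwa [Sum.elim_inr, Con.sat_map] at this
    exact imp_congr ((h1 c).2 (fun v => γ v ∘ e1) hg s1 v) ((h2 c).2 (fun v => γ v ∘ e2) hg s2 v)

theorem not (h : EncE Good Φ) : EncE Good (fun c γ₀ v => ¬ Φ c γ₀ v) :=
  (h.imp (const False)).congr fun _ _ _ _ => Iff.rfl

theorem iff (h : EncE Good Φ) (h' : EncE Good Ψ) :
    EncE Good (fun c γ₀ v => Φ c γ₀ v ↔ Ψ c γ₀ v) := by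
  refine ((h.imp h').imp (h'.imp h).not).not.congr fun _ _ _ _ => ?_
  tauto

/-- the pattern `v n = ∅` or `v n = univ` -/
def cpat (b₀ : Bool) (n : Fin N) : Pat σ r N where
  Par := Empty
  fin := inferInstance
  al b n' _ _ _ := n' = n → b = b₀
  cond _ _ := True
  hal b n' := UDef.const _
  hcond := UDef.const _

theorem cpat_mem {n : Fin N} {c : (ordCls σ).ι} {v : Fin N → Us r c} (b₀ : Bool) :
    (cpat b₀ n : Pat σ r N).Mem c v ↔ v n = (if b₀ then Set.univ else ∅) := by
  constructor
  · rintro ⟨π, _, h⟩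
    ext x
    by_cases hx : x ∈ v n
    · have := (h n x).1 hx rfl
      subst this
      simp [hx]
    · have := (h n x).2 hx rfl
      subst this
      simp [hx]
  · intro h
    refine ⟨fun e => e.elim, trivial, fun n' x => ⟨?_, ?_⟩⟩
    · intro hx hn
      subst hn
      rw [h] at hx
      cases b₀
      · simp at hx
      · rfl
    · intro hx hn
      subst hn
      rw [h] at hx
      cases b₀
      · rfl
      · simp at hx

theorem all (n : Fin N) (h : EncE Good Φ) :
    EncE Good (fun c γ₀ v => ∀ x, Φ c γ₀ (Function.update v n x)) := by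
  classical
  obtain ⟨I1, J1, hI1, hJ1, con1, ref1, h1⟩ := h
  let e1 : B ⊕ I1 → B ⊕ (I1 ⊕ Bool) := Sum.map id Sum.inl
  let su : B ⊕ (I1 ⊕ Bool) := Sum.inr (Sum.inr false)
  let sr : B ⊕ (I1 ⊕ Bool) := Sum.inr (Sum.inr true)
  let kB : Con σ r N (B ⊕ (I1 ⊕ Bool)) :=
    .single (cpat false n) (fun β => β su = true ↔ ref1 (β ∘ e1))
  let kL : Con σ r N (B ⊕ (I1 ⊕ Bool)) :=
    .pair n (fun β β' => β' su = true ↔ (β su = true ∧ ref1 (β' ∘ e1)))
  let kT : Con σ r N (B ⊕ (I1 ⊕ Bool)) :=
    .single (cpat true n) (fun β => β sr = true ↔ β su = true)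
  let kI : Con σ r N (B ⊕ (I1 ⊕ Bool)) :=
    .pair n (fun β β' => β sr = true ↔ β' sr = true)
  refine ⟨I1 ⊕ Bool, J1 ⊕ Fin 4, inferInstance, inferInstance,
    Sum.elim (fun j => (con1 j).map e1) (fun i => match i with
      | 0 => kB
      | 1 => kL
      | 2 => kT
      | 3 => kI),
    fun β => β sr = true, fun c => ⟨fun γ₀ hg => ?_, fun γ hg hs v => ?_⟩⟩
  · obtain ⟨γ1, a1, b1⟩ := (h1 c).1 γ₀ hg
    have r1 : ∀ v, ref1 (γ1 v) ↔ Φ c γ₀ v := by
      intro v
      have e : (fun v b => γ1 v (Sum.inl b)) = γ₀ := by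
        funext v b
        exact a1 v b
      have := (h1 c).2 γ1 (by rw [e]; exact hg) b1 v
      rwa [e] at this
    let γ : (Fin N → Us r c) → B ⊕ (I1 ⊕ Bool) → Bool := fun v => Sum.elim (γ₀ v)
      (Sum.elim (fun i => γ1 v (Sum.inr i)) (fun b => if b then
        decide (∀ y, Φ c γ₀ (Function.update v n y)) else
        decide (∀ y, nv c y ≤ nv c (v n) → Φ c γ₀ (Function.update v n y))))
    have q1 : ∀ v, γ v ∘ e1 = γ1 v := by
      intro v
      funext x
      rcases x with b | i
      · exact (a1 v b).symm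
      · rfl
    have gu : ∀ v, γ v su = true ↔ ∀ y, nv c y ≤ nv c (v n) → Φ c γ₀ (Function.update v n y) := by
      intro v
      change (decide (∀ y, nv c y ≤ nv c (v n) → Φ c γ₀ (Function.update v n y)) = true) ↔ _
      rw [decide_eq_true_eq]
    have gr : ∀ v, γ v sr = true ↔ ∀ y, Φ c γ₀ (Function.update v n y) := by
      intro v
      change (decide (∀ y, Φ c γ₀ (Function.update v n y)) = true) ↔ _
      rw [decide_eq_true_eq]
    refine ⟨γ, fun _ _ => rfl, ?_⟩
    rintro (j | j)
    · rw [Sum.elim_inl, Con.sat_map]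
      have : (fun v => γ v ∘ e1) = γ1 := funext q1
      rw [this]
      exact b1 j
    · fin_cases j
      · intro v hv
        rw [cpat_mem] at hv
        have hv' : v n = ∅ := hv
        rw [gu, q1, r1]
        constructor
        · intro h
          have := h (v n) le_rfl
          rwa [Function.update_eq_self] at this
        · intro h y hy
          have h0 : nv c (v n) = 0 := nv_zero.2 hv'
          have : y = v n := nv_inj (by omega)
          rw [this, Function.update_eq_self]
          exact h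
      · intro v X hX
        rw [gu, gu, q1, r1]
        simp only [Function.update_self, Function.update_idem]
        constructor
        · intro h
          exact ⟨fun y hy => h y (by omega), h X le_rfl⟩
        · rintro ⟨h2, h3⟩ y hy
          by_cases hyX : nv c y = nv c X
          · rw [nv_inj hyX]
            exact h3
          · exact h2 y (by omega)
      · intro v hv
        rw [cpat_mem] at hv
        have hv' : v n = Set.univ := hv
        rw [gu, gr, hv']
        exact ⟨fun h y _ => h y, fun h y => h y (nv_le_univ y)⟩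
      · intro v X hX
        rw [gr, gr]
        simp only [Function.update_idem]
  · have s1 : ∀ j, (con1 j).Sat c (fun v => γ v ∘ e1) := fun j => by
      have := hs (Sum.inl j)
      rwa [Sum.elim_inl, Con.sat_map] at this
    have sB : kB.Sat c γ := hs (Sum.inr 0)
    have sL : kL.Sat c γ := hs (Sum.inr 1)
    have sT : kT.Sat c γ := hs (Sum.inr 2)
    have sI : kI.Sat c γ := hs (Sum.inr 3)
    have r1 : ∀ v, ref1 (γ v ∘ e1) ↔ Φ c (fun v b => γ v (Sum.inl b)) v := fun v =>
      (h1 c).2 (fun v => γ v ∘ e1) hg s1 v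
    have key : ∀ (t : ℕ) (v : Fin N → Us r c), nv c (v n) = t → (γ v su = true ↔
        ∀ y, nv c y ≤ t → Φ c (fun v b => γ v (Sum.inl b)) (Function.update v n y)) := by
      intro t
      induction t with
      | zero =>
        intro v hv
        have hv' : v n = ∅ := nv_zero.1 hv
        have h3 : γ v su = true ↔ ref1 (γ v ∘ e1) := sB v ((cpat_mem false).2 hv')
        rw [h3, r1]
        constructor
        · intro h y hy
          have : y = v n := nv_inj (by omega)
          rw [this, Function.update_eq_self]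
          exact h
        · intro h
          have := h (v n) (by omega)
          rwa [Function.update_eq_self] at this
      | succ t ih =>
        intro v hv
        obtain ⟨X, hX⟩ := exists_nv (r := r) (c := c) (n := t) (by
          have := nv_le_univ (v n)
          omega)
        have h3 := sL (Function.update v n X) (v n) (by
          rw [Function.update_self]
          omega)
        beta_reduce at h3
        rw [Function.update_idem, Function.update_eq_self] at h3
        rw [h3, ih (Function.update v n X) (by rw [Function.update_self]; exact hX), r1]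
        simp only [Function.update_idem]
        constructor
        · rintro ⟨h4, h5⟩ y hy
          by_cases hyt : nv c y = t + 1
          · have : y = v n := nv_inj (by omega)
            rw [this, Function.update_eq_self]
            exact h5
          · exact h4 y (by omega)
        · intro h4
          refine ⟨fun y hy => h4 y (by omega), ?_⟩
          have := h4 (v n) (by omega)
          rwa [Function.update_eq_self] at this
    have hrt : ∀ (d : ℕ) (v : Fin N → Us r c), nv c (v n) + d = nv c (Set.univ : Us r c) →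
        (γ v sr = true ↔ γ (Function.update v n Set.univ) sr = true) := by
      intro d
      induction d with
      | zero =>
        intro v hv
        have : v n = Set.univ := nv_inj (by omega)
        have h4 : Function.update v n Set.univ = v := by
          rw [← this]
          exact Function.update_eq_self n v
        rw [h4]
      | succ d ih =>
        intro v hv
        obtain ⟨X, hX⟩ := exists_nv (r := r) (c := c) (n := nv c (v n) + 1) (by omega)
        have h3 := sI v X hX
        beta_reduce at h3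
        rw [h3, ih (Function.update v n X) (by rw [Function.update_self]; omega),
          Function.update_idem]
    have hle := nv_le_univ (v n)
    beta_reduce
    rw [hrt (nv c (Set.univ : Us r c) - nv c (v n)) v (by omega)]
    have h3 := sT (Function.update v n Set.univ) ((cpat_mem true).2 (by
      rw [Function.update_self]
      rfl))
    beta_reduce at h3
    rw [h3, key _ _ rfl]
    simp only [Function.update_idem, Function.update_self]
    exact ⟨fun h y => h y (nv_le_univ y), fun h y _ => h y⟩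

/-- universal quantification over the coordinates in `T` -/
def allT (T : Finset (Fin N))
    (Φ : ∀ c : (ordCls σ).ι, ((Fin N → Us r c) → B → Bool) → (Fin N → Us r c) → Prop)
    (c : (ordCls σ).ι) (γ₀ : (Fin N → Us r c) → B → Bool) (v : Fin N → Us r c) : Prop :=
  ∀ y, (∀ i, i ∉ T → y i = v i) → Φ c γ₀ y

theorem enc_allT (T : Finset (Fin N)) (h : EncE Good Φ) : EncE Good (allT T Φ) := by
  classical
  induction T using Finset.induction with
  | empty =>
    refine h.congr fun c γ₀ _ v => ?_
    constructor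
    · intro h1 y hy
      have : y = v := funext fun i => hy i (by simp)
      rw [this]
      exact h1
    · intro h1
      exact h1 v (fun _ _ => rfl)
  | insert t T ht ih =>
    refine (all t ih).congr fun c γ₀ _ v => ?_
    constructor
    · intro h1 y hy
      refine h1 (y t) y fun i hi => ?_
      by_cases hit : i = t
      · subst hit
        rw [Function.update_self]
      · rw [Function.update_of_ne hit]
        refine hy i ?_
        rw [Finset.mem_insert, not_or]
        exact ⟨hit, hi⟩
    · intro h1 x y hy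
      refine h1 y fun i hi => ?_
      rw [Finset.mem_insert, not_or] at hi
      rw [hy i hi.2, Function.update_of_ne hi.1]

theorem impFin {ι : Type} [Finite ι]
    {P : ι → ∀ c : (ordCls σ).ι, ((Fin N → Us r c) → B → Bool) → (Fin N → Us r c) → Prop}
    (h : ∀ i, EncE Good (P i)) (h' : EncE Good Ψ) :
    EncE Good (fun c γ₀ v => (∀ i, P i c γ₀ v) → Ψ c γ₀ v) := by
  classical
  have hf := Fintype.ofFinite ι
  have key : ∀ T : Finset ι, EncE Good (fun c γ₀ v => (∀ i ∈ T, P i c γ₀ v) → Ψ c γ₀ v) := by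
    intro T
    induction T using Finset.induction with
    | empty =>
      refine h'.congr fun c γ₀ _ v => ?_
      simp
    | insert t T ht ih =>
      refine ((h t).imp ih).congr fun c γ₀ _ v => ?_
      rw [Finset.forall_mem_insert]
      tauto
  refine (key Finset.univ).congr fun c γ₀ _ v => ?_
  simp

end EncE

end Pool.Agent.H92.Desc
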