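import Pool.Agent.H92.Desc.UDef

/-!
Uniform definability over the class of all finite ordered structures.
-/

namespace Pool.Agent.H92.Desc

open FirstOrder FirstOrder.Language

variable {σ : FirstOrder.Language.{0, 0}}

/-- The class of finite ordered `σ`-structures. -/
def ordCls (σ : FirstOrder.Language.{0, 0}) : Cls (σ.sum FirstOrder.Language.order) where
  ι := Σ' A : FinStr σ, LinearOrder A.carrier
  car c := c.1.carrier
  str c := ordStr c.1.str c.2

instance (c : (ordCls σ).ι) : LinearOrder ((ordCls σ).car c) := c.2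
instance (c : (ordCls σ).ι) : Finite ((ordCls σ).car c) := c.1.fin
instance (c : (ordCls σ).ι) : Nonempty ((ordCls σ).car c) := c.1.ne

namespace UDef

variable {α β : Type}

theorem le (a b : α) : UDef (ordCls σ) (fun _ v => v a ≤ v b) := by
  refine (rel (𝒞 := ordCls σ) (Sum.inr orderRel.le) ![a, b]).congr fun c v => ?_
  exact Iff.rfl

theorem lt (a b : α) : UDef (ordCls σ) (fun _ v => v a < v b) := by
  refine ((le (σ := σ) a b).and (le (σ := σ) b a).not).congr fun c v => ?_
  exact lt_iff_le_not_ge.symm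

theorem srel {n : ℕ} (R : σ.Relations n) (t : Fin n → α) :
    UDef (ordCls σ) (fun c v => @Structure.RelMap σ _ c.1.str _ R (v ∘ t)) :=
  (rel (𝒞 := ordCls σ) (Sum.inl R) t).congr fun _ _ => Iff.rfl

end UDef

theorem exists_mn (c : (ordCls σ).ι) : ∃ m : (ordCls σ).car c, ∀ x, m ≤ x :=
  Finite.exists_min (fun x : (ordCls σ).car c => x)

theorem exists_mx (c : (ordCls σ).ι) : ∃ m : (ordCls σ).car c, ∀ x, x ≤ m :=
  Finite.exists_max (fun x : (ordCls σ).car c => x)

/-- the least element -/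
noncomputable def mn (c : (ordCls σ).ι) : (ordCls σ).car c := (exists_mn c).choose
/-- the greatest element -/
noncomputable def mx (c : (ordCls σ).ι) : (ordCls σ).car c := (exists_mx c).choose

theorem mn_le (c : (ordCls σ).ι) (x : (ordCls σ).car c) : mn c ≤ x := (exists_mn c).choose_spec x
theorem le_mx (c : (ordCls σ).ι) (x : (ordCls σ).car c) : x ≤ mx c := (exists_mx c).choose_spec x

theorem eq_mn (c : (ordCls σ).ι) (x : (ordCls σ).car c) : x = mn c ↔ ∀ y, x ≤ y :=
  ⟨fun h y => h ▸ mn_le c y, fun h => le_antisymm (h _) (mn_le c x)⟩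
theorem eq_mx (c : (ordCls σ).ι) (x : (ordCls σ).car c) : x = mx c ↔ ∀ y, y ≤ x :=
  ⟨fun h y => h ▸ le_mx c y, fun h => le_antisymm (le_mx c x) (h _)⟩

theorem exists_pd (c : (ordCls σ).ι) (a : (ordCls σ).car c) (h : a ≠ mn c) :
    ∃ b, b < a ∧ ∀ x, x < a → x ≤ b := by
  have hlt : mn c < a := lt_of_le_of_ne (mn_le c a) (Ne.symm h)
  have hne : Nonempty {x : (ordCls σ).car c // x < a} := ⟨⟨_, hlt⟩⟩
  obtain ⟨b, hb⟩ := Finite.exists_max (fun x : {x : (ordCls σ).car c // x < a} => x.1)
  exact ⟨b.1, b.2, fun x hx => hb ⟨x, hx⟩⟩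

open Classical in
/-- the predecessor -/
noncomputable def pd (c : (ordCls σ).ι) (a : (ordCls σ).car c) : (ordCls σ).car c :=
  if h : a ≠ mn c then (exists_pd c a h).choose else a

theorem pd_lt (c : (ordCls σ).ι) (a : (ordCls σ).car c) (h : a ≠ mn c) : pd c a < a := by
  unfold pd
  rw [dif_pos h]
  exact (exists_pd c a h).choose_spec.1

theorem le_pd (c : (ordCls σ).ι) (a : (ordCls σ).car c) (h : a ≠ mn c) (x : (ordCls σ).car c)
    (hx : x < a) : x ≤ pd c a := by
  unfold pd
  rw [dif_pos h]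
  exact (exists_pd c a h).choose_spec.2 x hx

theorem eq_pd (c : (ordCls σ).ι) (a b : (ordCls σ).car c) :
    b = pd c a ↔ ((a = mn c ∧ b = a) ∨ (b < a ∧ ∀ x, ¬ (b < x ∧ x < a))) := by
  by_cases h : a = mn c
  · constructor
    · intro hb
      refine Or.inl ⟨h, ?_⟩
      rw [hb]
      unfold pd
      rw [dif_neg (by simpa using h)]
    · rintro (⟨_, hb⟩ | ⟨hb, _⟩)
      · rw [hb]
        unfold pd
        rw [dif_neg (by simpa using h)]
      · exact absurd hb (by rw [h]; exact not_lt.2 (mn_le c b))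
  · constructor
    · rintro rfl
      refine Or.inr ⟨pd_lt c a h, fun x hx => ?_⟩
      exact absurd hx.1 (not_lt.2 (le_pd c a h x hx.2))
    · rintro (⟨h', _⟩ | ⟨hb, hx⟩)
      · exact absurd h' h
      · refine le_antisymm (le_pd c a h b hb) ?_
        by_contra hlt
        exact hx (pd c a) ⟨not_le.1 hlt, pd_lt c a h⟩

theorem le_iff_pd (c : (ordCls σ).ι) (a : (ordCls σ).car c) (x : (ordCls σ).car c) :
    x ≤ a ↔ x = a ∨ (a ≠ mn c ∧ x ≤ pd c a) := by
  constructor
  · intro h
    rcases h.eq_or_lt with h | h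
    · exact Or.inl h
    · have : a ≠ mn c := by
        rintro rfl
        exact absurd h (not_lt.2 (mn_le c x))
      exact Or.inr ⟨this, le_pd c a this x h⟩
  · rintro (rfl | ⟨h, h'⟩)
    · exact le_rfl
    · exact h'.trans (pd_lt c a h).le

namespace UDef

variable {α β : Type}

theorem isMn (a : α) : UDef (ordCls σ) (fun c v => v a = mn c) := by
  refine (all1 (𝒞 := ordCls σ) (P := fun c v x => v a ≤ x) (le (Sum.inl a) (Sum.inr ()))).congr
    fun c v => ?_
  exact (eq_mn c (v a)).symm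

theorem isMx (a : α) : UDef (ordCls σ) (fun c v => v a = mx c) := by
  refine (all1 (𝒞 := ordCls σ) (P := fun c v x => x ≤ v a) (le (Sum.inr ()) (Sum.inl a))).congr
    fun c v => ?_
  exact (eq_mx c (v a)).symm

theorem isPd (a b : α) : UDef (ordCls σ) (fun c v => v b = pd c (v a)) := by
  have h : UDef (ordCls σ) (fun c v => (v a = mn c ∧ v b = v a) ∨
      (v b < v a ∧ ∀ x, ¬ (v b < x ∧ x < v a))) := by
    refine ((isMn a).and (eq b a)).or ((lt b a).and ?_)
    exact all1 (𝒞 := ordCls σ) (P := fun c v x => ¬ (v b < x ∧ x < v a))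
      ((lt (Sum.inl b) (Sum.inr ())).and (lt (Sum.inr ()) (Sum.inl a))).not
  exact h.congr fun c v => (eq_pd c (v a) (v b)).symm

end UDef

end Pool.Agent.H92.Desc
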