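import Pool.Agent.H92.Desc.Ord

/-!
Uniform 3-CNF encodings of first-order properties over finite ordered structures.
-/

namespace Pool.Agent.H92.Desc

open FirstOrder FirstOrder.Language

variable {σ : FirstOrder.Language.{0, 0}} {N : ℕ} {K K' : Type}

/-- A family of literals indexed by tuples; a propositional variable is a pair of a sort in `K`
and a tuple. -/
abbrev LitF (σ : FirstOrder.Language.{0, 0}) (N : ℕ) (K : Type) :=
  ∀ c : (ordCls σ).ι, (Fin N → (ordCls σ).car c) → (K × (Fin N → (ordCls σ).car c)) × Bool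

/-- Uniform definability of a family of literals. -/
def DefLit (l : LitF σ N K) : Prop :=
  ∀ k s, UDef (ordCls σ) (fun c (u : Fin N ⊕ Fin N → (ordCls σ).car c) =>
    l c (u ∘ Sum.inl) = ((k, u ∘ Sum.inr), s))

/-- Uniform definability of a map on tuples. -/
def DefMap (g : ∀ c : (ordCls σ).ι, (Fin N → (ordCls σ).car c) → (Fin N → (ordCls σ).car c)) :
    Prop :=
  UDef (ordCls σ) (fun c (u : Fin N ⊕ Fin N → (ordCls σ).car c) =>
    g c (u ∘ Sum.inl) = u ∘ Sum.inr)

theorem DefLit.at {l : LitF σ N K} (hl : DefLit l) {α : Type} (g h : Fin N → α) (k : K)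
    (s : Bool) : UDef (ordCls σ) (fun c (v : α → (ordCls σ).car c) =>
      l c (v ∘ g) = ((k, v ∘ h), s)) :=
  ((hl k s).comp (Sum.elim g h)).congr fun _ _ => Iff.rfl

theorem DefMap.at {m : ∀ c : (ordCls σ).ι, (Fin N → (ordCls σ).car c) →
      (Fin N → (ordCls σ).car c)} (hm : DefMap m) {α : Type} (g h : Fin N → α) :
    UDef (ordCls σ) (fun c (v : α → (ordCls σ).car c) => m c (v ∘ g) = v ∘ h) :=
  (UDef.comp hm (Sum.elim g h)).congr fun _ _ => Iff.rfl

/-- variable literal -/
def LitF.var (k : K) (s : Bool) : LitF σ N K := fun _ v => ((k, v), s)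

theorem DefLit.var (k : K) (s : Bool) : DefLit (LitF.var k s : LitF σ N K) := by
  intro k' s'
  refine ((UDef.const (k = k' ∧ s = s')).and
    (UDef.eqT (N := Fin N) (𝒞 := ordCls σ) Sum.inl Sum.inr)).congr fun c u => ?_
  simp only [LitF.var, Prod.mk.injEq]
  tauto

/-- negation -/
def LitF.neg (l : LitF σ N K) : LitF σ N K := fun c v => ((l c v).1, !(l c v).2)

theorem DefLit.neg {l : LitF σ N K} (hl : DefLit l) : DefLit l.neg := by
  intro k s
  refine (hl k (!s)).congr fun c u => ?_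
  simp only [LitF.neg, Prod.ext_iff]
  cases (l c (u ∘ Sum.inl)).2 <;> cases s <;> simp

/-- change of sorts -/
def LitF.map (e : K → K') (l : LitF σ N K) : LitF σ N K' :=
  fun c v => ((e (l c v).1.1, (l c v).1.2), (l c v).2)

theorem DefLit.map [Finite K] (e : K → K') {l : LitF σ N K} (hl : DefLit l) :
    DefLit (l.map e) := by
  intro k' s
  refine (UDef.existsFin (fun k : K => (UDef.const (e k = k')).and (hl k s))).congr
    fun c u => ?_
  simp only [LitF.map, Prod.ext_iff]
  constructor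
  · rintro ⟨k, h1, ⟨h2, h3⟩, h4⟩
    exact ⟨⟨by rw [h2]; exact h1, h3⟩, h4⟩
  · rintro ⟨⟨h1, h2⟩, h3⟩
    exact ⟨_, h1, ⟨rfl, h2⟩, h3⟩

open Classical in
/-- variable with definable sign -/
noncomputable def LitF.sgn (k : K)
    (P : ∀ c : (ordCls σ).ι, (Fin N → (ordCls σ).car c) → Prop) : LitF σ N K :=
  fun c v => ((k, v), decide (P c v))

theorem DefLit.sgn (k : K) {P : ∀ c : (ordCls σ).ι, (Fin N → (ordCls σ).car c) → Prop}
    (hP : UDef (ordCls σ) P) : DefLit (LitF.sgn k P : LitF σ N K) := by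
  intro k' s
  refine (((UDef.const (k = k')).and
    (UDef.eqT (N := Fin N) (𝒞 := ordCls σ) Sum.inl Sum.inr)).and
    ((hP.comp Sum.inl).iff (UDef.const (s = true)))).congr fun c u => ?_
  simp only [LitF.sgn, Prod.mk.injEq]
  cases s <;> simp

/-- substitution -/
def LitF.sub (l : LitF σ N K)
    (g : ∀ c : (ordCls σ).ι, (Fin N → (ordCls σ).car c) → (Fin N → (ordCls σ).car c)) :
    LitF σ N K := fun c v => l c (g c v)

theorem DefLit.sub {l : LitF σ N K} (hl : DefLit l)
    {g : ∀ c : (ordCls σ).ι, (Fin N → (ordCls σ).car c) → (Fin N → (ordCls σ).car c)}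
    (hg : DefMap g) : DefLit (l.sub g) := by
  intro k s
  refine (UDef.ex (𝒞 := ordCls σ) (β := Fin N)
    (P := fun c u w => g c (u ∘ Sum.inl) = w ∧ l c w = ((k, u ∘ Sum.inr), s)) ?_).congr
    fun c u => ?_
  · exact (hg.at (Sum.inl ∘ Sum.inl) Sum.inr).and (hl.at Sum.inr (Sum.inl ∘ Sum.inr) k s)
  · constructor
    · rintro ⟨w, rfl, h⟩
      exact h
    · intro h
      exact ⟨_, rfl, h⟩

open Classical in
/-- case distinction -/
noncomputable def LitF.ite (P : ∀ c : (ordCls σ).ι, (Fin N → (ordCls σ).car c) → Prop)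
    (l l' : LitF σ N K) : LitF σ N K :=
  fun c v => if P c v then l c v else l' c v

theorem DefLit.ite {P : ∀ c : (ordCls σ).ι, (Fin N → (ordCls σ).car c) → Prop}
    (hP : UDef (ordCls σ) P) {l l' : LitF σ N K} (hl : DefLit l) (hl' : DefLit l') :
    DefLit (LitF.ite P l l') := by
  intro k s
  refine (((hP.comp Sum.inl).and (hl k s)).or ((hP.comp Sum.inl).not.and (hl' k s))).congr
    fun c u => ?_
  simp only [LitF.ite]
  split_ifs with h <;> simp [h]

/-! Satisfaction -/

/-- the literal is true under the assignment -/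
def holds {T : Type} (γ : T → Bool) (l : T × Bool) : Prop := γ l.1 = l.2

/-- all clauses are satisfied -/
def SatF {J : Type} (lit : J → Fin 3 → LitF σ N K) (c : (ordCls σ).ι)
    (γ : K × (Fin N → (ordCls σ).car c) → Bool) : Prop :=
  ∀ j v, ∃ p, holds γ (lit j p c v)

/-- reindexing assignments -/
def pull (e : K → K') {T : Type} (γ : K' × T → Bool) : K × T → Bool := fun x => γ (e x.1, x.2)

theorem holds_map (e : K → K') (l : LitF σ N K) (c : (ordCls σ).ι)
    (γ : K' × (Fin N → (ordCls σ).car c) → Bool) (v) :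
    holds γ (l.map e c v) ↔ holds (pull e γ) (l c v) := Iff.rfl

theorem holds_neg (l : LitF σ N K) (c : (ordCls σ).ι)
    (γ : K × (Fin N → (ordCls σ).car c) → Bool) (v) :
    holds γ (l.neg c v) ↔ ¬ holds γ (l c v) := by
  simp only [holds, LitF.neg]
  cases γ (l c v).1 <;> cases (l c v).2 <;> simp

/-- The gate `u ↔ a ∧ b` as three clauses. -/
def gate (u a b : LitF σ N K) : Fin 3 → Fin 3 → LitF σ N K :=
  ![![u.neg, a, a], ![u.neg, b, b], ![u, a.neg, b.neg] ]

theorem DefLit.gate {u a b : LitF σ N K} (hu : DefLit u) (ha : DefLit a) (hb : DefLit b)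
    (j p : Fin 3) : DefLit (gate u a b j p) := by
  fin_cases j <;> fin_cases p
  · exact hu.neg
  · exact ha
  · exact ha
  · exact hu.neg
  · exact hb
  · exact hb
  · exact hu
  · exact ha.neg
  · exact hb.neg

theorem clause3 (l0 l1 l2 : LitF σ N K) (c : (ordCls σ).ι)
    (γ : K × (Fin N → (ordCls σ).car c) → Bool) (v) :
    (∃ p, holds γ ((![l0, l1, l2] : Fin 3 → LitF σ N K) p c v)) ↔
      (holds γ (l0 c v) ∨ holds γ (l1 c v) ∨ holds γ (l2 c v)) := by
  constructor
  · rintro ⟨p, hp⟩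
    fin_cases p
    · exact Or.inl hp
    · exact Or.inr (Or.inl hp)
    · exact Or.inr (Or.inr hp)
  · rintro (h | h | h)
    · exact ⟨0, h⟩
    · exact ⟨1, h⟩
    · exact ⟨2, h⟩

theorem satF_gate (u a b : LitF σ N K) (c : (ordCls σ).ι)
    (γ : K × (Fin N → (ordCls σ).car c) → Bool) :
    SatF (gate u a b) c γ ↔ ∀ v, (holds γ (u c v) ↔ holds γ (a c v) ∧ holds γ (b c v)) := by
  constructor
  · intro h v
    have h0 := (clause3 _ _ _ c γ v).1 (h 0 v)
    have h1 := (clause3 _ _ _ c γ v).1 (h 1 v)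
    have h2 := (clause3 _ _ _ c γ v).1 (h 2 v)
    rw [holds_neg] at h0 h1
    rw [holds_neg, holds_neg] at h2
    tauto
  · intro h j v
    have hv := h v
    have h0 : holds γ (u.neg c v) ∨ holds γ (a c v) ∨ holds γ (a c v) := by
      rw [holds_neg]
      tauto
    have h1 : holds γ (u.neg c v) ∨ holds γ (b c v) ∨ holds γ (b c v) := by
      rw [holds_neg]
      tauto
    have h2 : holds γ (u c v) ∨ holds γ (a.neg c v) ∨ holds γ (b.neg c v) := by
      rw [holds_neg, holds_neg]
      tauto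
    fin_cases j
    · exact (clause3 _ _ _ c γ v).2 h0
    · exact (clause3 _ _ _ c γ v).2 h1
    · exact (clause3 _ _ _ c γ v).2 h2

/-- Uniform CNF encoding of a property `Φ` of base assignments and tuples. -/
def Enc {B : Type}
    (Φ : ∀ c : (ordCls σ).ι, (B × (Fin N → (ordCls σ).car c) → Bool) →
      (Fin N → (ordCls σ).car c) → Prop) : Prop :=
  ∃ (I J : Type) (_ : Finite I) (_ : Finite J) (lit : J → Fin 3 → LitF σ N (B ⊕ I))
    (ref : LitF σ N (B ⊕ I)), (∀ j p, DefLit (lit j p)) ∧ DefLit ref ∧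
    ∀ c : (ordCls σ).ι,
      (∀ γ₀ : B × (Fin N → (ordCls σ).car c) → Bool, ∃ γ : (B ⊕ I) × _ → Bool,
        pull Sum.inl γ = γ₀ ∧ SatF lit c γ) ∧
      (∀ γ, SatF lit c γ → ∀ v, (holds γ (ref c v) ↔ Φ c (pull Sum.inl γ) v))

variable {B : Type}

theorem Enc.congr {Φ Ψ : ∀ c : (ordCls σ).ι, (B × (Fin N → (ordCls σ).car c) → Bool) →
      (Fin N → (ordCls σ).car c) → Prop} (h : Enc Φ) (h' : ∀ c γ v, Φ c γ v ↔ Ψ c γ v) :
    Enc Ψ := by
  obtain ⟨I, J, hI, hJ, lit, ref, h1, h2, h3⟩ := h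
  refine ⟨I, J, hI, hJ, lit, ref, h1, h2, fun c => ⟨(h3 c).1, fun γ hγ v => ?_⟩⟩
  rw [← h']
  exact (h3 c).2 γ hγ v

/-- definable properties -/
theorem Enc.ofDef {P : ∀ c : (ordCls σ).ι, (Fin N → (ordCls σ).car c) → Prop}
    (hP : UDef (ordCls σ) P) :
    Enc (B := B) (fun c (_ : B × (Fin N → (ordCls σ).car c) → Bool) v => P c v) := by
  classical
  refine ⟨Unit, Unit, inferInstance, inferInstance, fun _ _ => LitF.sgn (Sum.inr ()) P,
    LitF.var (Sum.inr ()) true, fun _ _ => DefLit.sgn _ hP, DefLit.var _ _, fun c => ⟨?_, ?_⟩⟩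
  · intro γ₀
    refine ⟨fun x => Sum.elim (fun b => γ₀ (b, x.2)) (fun _ => decide (P c x.2)) x.1, rfl, ?_⟩
    intro j v
    refine ⟨0, ?_⟩
    simp [holds, LitF.sgn]
  · intro γ hγ v
    obtain ⟨p, hp⟩ := hγ () v
    simp only [holds, LitF.sgn] at hp
    simp only [holds, LitF.var, hp]
    simp

/-- base atoms -/
theorem Enc.atom (b : B)
    {g : ∀ c : (ordCls σ).ι, (Fin N → (ordCls σ).car c) → (Fin N → (ordCls σ).car c)}
    (hg : DefMap g) :
    Enc (B := B) (fun c (γ₀ : B × (Fin N → (ordCls σ).car c) → Bool) v =>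
      γ₀ (b, g c v) = true) := by
  refine ⟨Empty, Empty, inferInstance, inferInstance, fun j => j.elim,
    (LitF.var (Sum.inl b) true).sub g, fun j => j.elim, (DefLit.var _ _).sub hg,
    fun c => ⟨?_, ?_⟩⟩
  · intro γ₀
    exact ⟨fun x => Sum.elim (fun b => γ₀ (b, x.2)) (fun e => e.elim) x.1, rfl,
      fun j => j.elim⟩
  · intro γ _ v
    exact Iff.rfl

theorem Enc.imp [Finite B] {Φ Ψ : ∀ c : (ordCls σ).ι, (B × (Fin N → (ordCls σ).car c) → Bool) →
      (Fin N → (ordCls σ).car c) → Prop} (hΦ : Enc Φ) (hΨ : Enc Ψ) :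
    Enc (fun c γ v => Φ c γ v → Ψ c γ v) := by
  classical
  obtain ⟨I1, J1, hI1, hJ1, lit1, ref1, a1, b1, c1⟩ := hΦ
  obtain ⟨I2, J2, hI2, hJ2, lit2, ref2, a2, b2, c2⟩ := hΨ
  let e1 : B ⊕ I1 → B ⊕ ((I1 ⊕ I2) ⊕ Unit) := Sum.map id (Sum.inl ∘ Sum.inl)
  let e2 : B ⊕ I2 → B ⊕ ((I1 ⊕ I2) ⊕ Unit) := Sum.map id (Sum.inl ∘ Sum.inr)
  let u : LitF σ N (B ⊕ ((I1 ⊕ I2) ⊕ Unit)) := LitF.var (Sum.inr (Sum.inr ())) true
  let a := ref1.map e1
  let b := (ref2.map e2).neg
  let lit : (J1 ⊕ J2) ⊕ Fin 3 → Fin 3 → LitF σ N (B ⊕ ((I1 ⊕ I2) ⊕ Unit)) :=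
    Sum.elim (Sum.elim (fun j p => (lit1 j p).map e1) (fun j p => (lit2 j p).map e2)) (gate u a b)
  have hu : DefLit u := DefLit.var _ _
  have ha : DefLit a := b1.map e1
  have hb : DefLit b := (b2.map e2).neg
  refine ⟨(I1 ⊕ I2) ⊕ Unit, (J1 ⊕ J2) ⊕ Fin 3, inferInstance, inferInstance, lit, u.neg,
    ?_, hu.neg, fun c => ?_⟩
  · rintro ((j | j) | j) p
    · exact (a1 j p).map e1
    · exact (a2 j p).map e2
    · exact DefLit.gate hu ha hb j p
  have hsat : ∀ γ, SatF lit c γ ↔ SatF lit1 c (pull e1 γ) ∧ SatF lit2 c (pull e2 γ) ∧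
      ∀ v, (holds γ (u c v) ↔ holds γ (a c v) ∧ holds γ (b c v)) := by
    intro γ
    rw [← satF_gate]
    unfold SatF
    simp only [Sum.forall, lit, Sum.elim_inl, Sum.elim_inr]
    exact ⟨fun ⟨⟨h1, h2⟩, h3⟩ => ⟨h1, h2, h3⟩, fun ⟨h1, h2, h3⟩ => ⟨⟨h1, h2⟩, h3⟩⟩
  have hp1 : ∀ γ : (B ⊕ ((I1 ⊕ I2) ⊕ Unit)) × (Fin N → (ordCls σ).car c) → Bool,
      pull Sum.inl (pull e1 γ) = pull Sum.inl γ := fun γ => rfl
  have hp2 : ∀ γ : (B ⊕ ((I1 ⊕ I2) ⊕ Unit)) × (Fin N → (ordCls σ).car c) → Bool,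
      pull Sum.inl (pull e2 γ) = pull Sum.inl γ := fun γ => rfl
  constructor
  · intro γ₀
    obtain ⟨γ1, r1, s1⟩ := (c1 c).1 γ₀
    obtain ⟨γ2, r2, s2⟩ := (c2 c).1 γ₀
    let γ : (B ⊕ ((I1 ⊕ I2) ⊕ Unit)) × (Fin N → (ordCls σ).car c) → Bool := fun x =>
      Sum.elim (fun b => γ₀ (b, x.2)) (Sum.elim (Sum.elim (fun i => γ1 (Sum.inr i, x.2))
        (fun i => γ2 (Sum.inr i, x.2)))
        (fun _ => decide (holds γ1 (ref1 c x.2) ∧ ¬ holds γ2 (ref2 c x.2)))) x.1
    have q1 : pull e1 γ = γ1 := by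
      funext x
      obtain ⟨b | i, w⟩ := x
      · have := congrFun r1 (b, w)
        exact this.symm
      · rfl
    have q2 : pull e2 γ = γ2 := by
      funext x
      obtain ⟨b | i, w⟩ := x
      · have := congrFun r2 (b, w)
        exact this.symm
      · rfl
    refine ⟨γ, rfl, ?_⟩
    rw [hsat, q1, q2]
    refine ⟨s1, s2, fun v => ?_⟩
    have h1 : holds γ (a c v) ↔ holds γ1 (ref1 c v) := by
      rw [holds_map, q1]
    have h2 : holds γ (b c v) ↔ ¬ holds γ2 (ref2 c v) := by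
      rw [holds_neg, holds_map, q2]
    rw [h1, h2]
    simp [holds, u, LitF.var, γ]
  · intro γ hγ v
    rw [hsat] at hγ
    obtain ⟨s1, s2, s3⟩ := hγ
    rw [holds_neg, s3, holds_neg, holds_map, holds_map, (c1 c).2 _ s1 v, (c2 c).2 _ s2 v, hp1,
      hp2]
    tauto

/-- updating the coordinate `n` by a definable value -/
theorem DefMap.update (n : Fin N) {f : ∀ c : (ordCls σ).ι, (ordCls σ).car c → (ordCls σ).car c}
    (hf : UDef (ordCls σ) (fun c (u : Bool → (ordCls σ).car c) => u true = f c (u false))) :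
    DefMap (fun c (v : Fin N → (ordCls σ).car c) => Function.update v n (f c (v n))) := by
  refine (UDef.forallFin (ι := Fin N) (𝒞 := ordCls σ) (P := fun i c (u : Fin N ⊕ Fin N → _) =>
      (i = n → u (Sum.inr n) = f c (u (Sum.inl n))) ∧ (i ≠ n → u (Sum.inl i) = u (Sum.inr i)))
      (fun i => ?_)).congr fun c u => ?_
  · refine ((UDef.const (i = n)).imp ?_).and ((UDef.const (i ≠ n)).imp (UDef.eq _ _))
    exact hf.comp (fun b => if b then Sum.inr n else Sum.inl n)
  · constructor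
    · intro h
      funext i
      beta_reduce
      by_cases hi : i = n
      · subst hi
        simp only [Function.update_self, Function.comp_apply]
        exact ((h i).1 rfl).symm
      · rw [Function.update_of_ne hi]
        exact (h i).2 hi
    · intro h i
      have := congrFun h i
      beta_reduce at this
      refine ⟨?_, ?_⟩
      · rintro rfl
        simpa using this.symm
      · intro hi
        rw [Function.update_of_ne hi] at this
        exact this

theorem Enc.all [Finite B] (n : Fin N)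
    {Φ : ∀ c : (ordCls σ).ι, (B × (Fin N → (ordCls σ).car c) → Bool) →
      (Fin N → (ordCls σ).car c) → Prop} (hΦ : Enc Φ) :
    Enc (fun c γ v => ∀ x, Φ c γ (Function.update v n x)) := by
  classical
  obtain ⟨I1, J1, hI1, hJ1, lit1, ref1, a1, b1, c1⟩ := hΦ
  let e1 : B ⊕ I1 → B ⊕ (I1 ⊕ Unit) := Sum.map id Sum.inl
  let u : LitF σ N (B ⊕ (I1 ⊕ Unit)) := LitF.var (Sum.inr (Sum.inr ())) true
  let a := ref1.map e1
  let b := LitF.ite (fun c v => v n = mn c) a
    (u.sub (fun c v => Function.update v n (pd c (v n))))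
  let lit : J1 ⊕ Fin 3 → Fin 3 → LitF σ N (B ⊕ (I1 ⊕ Unit)) :=
    Sum.elim (fun j p => (lit1 j p).map e1) (gate u a b)
  have hu : DefLit u := DefLit.var _ _
  have ha : DefLit a := b1.map e1
  have hb : DefLit b := DefLit.ite (UDef.isMn n) ha
    (hu.sub (DefMap.update n (UDef.isPd false true)))
  let r : LitF σ N (B ⊕ (I1 ⊕ Unit)) := u.sub (fun c v => Function.update v n (mx c))
  have hr : DefLit r := hu.sub (DefMap.update n (f := fun c _ => mx c) (UDef.isMx true))
  refine ⟨I1 ⊕ Unit, J1 ⊕ Fin 3, inferInstance, inferInstance, lit, r, ?_, hr, fun c => ?_⟩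
  · rintro (j | j) p
    · exact (a1 j p).map e1
    · exact DefLit.gate hu ha hb j p
  have hsat : ∀ γ, SatF lit c γ ↔ SatF lit1 c (pull e1 γ) ∧
      ∀ v, (holds γ (u c v) ↔ holds γ (a c v) ∧ holds γ (b c v)) := by
    intro γ
    rw [← satF_gate]
    unfold SatF
    simp only [Sum.forall, lit, Sum.elim_inl, Sum.elim_inr]
    exact Iff.rfl
  have hp1 : ∀ γ : (B ⊕ (I1 ⊕ Unit)) × (Fin N → (ordCls σ).car c) → Bool,
      pull Sum.inl (pull e1 γ) = pull Sum.inl γ := fun γ => rfl
  constructor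
  · intro γ₀
    obtain ⟨γ1, r1, s1⟩ := (c1 c).1 γ₀
    let γ : (B ⊕ (I1 ⊕ Unit)) × (Fin N → (ordCls σ).car c) → Bool := fun x =>
      Sum.elim (fun b => γ₀ (b, x.2)) (Sum.elim (fun i => γ1 (Sum.inr i, x.2))
        (fun _ => decide (∀ y ≤ x.2 n, Φ c γ₀ (Function.update x.2 n y)))) x.1
    have q1 : pull e1 γ = γ1 := by
      funext x
      obtain ⟨b | i, w⟩ := x
      · have := congrFun r1 (b, w)
        exact this.symm
      · rfl
    refine ⟨γ, rfl, ?_⟩
    rw [hsat, q1]
    refine ⟨s1, fun v => ?_⟩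
    have hu' : ∀ v, holds γ (u c v) ↔ ∀ y ≤ v n, Φ c γ₀ (Function.update v n y) := by
      intro v
      simp [holds, u, LitF.var, γ]
    have h1 : holds γ (a c v) ↔ Φ c γ₀ v := by
      rw [holds_map, q1, (c1 c).2 γ1 s1 v, r1]
    have h2 : holds γ (b c v) ↔ (v n = mn c ∧ Φ c γ₀ v) ∨ (v n ≠ mn c ∧
        ∀ y ≤ pd c (v n), Φ c γ₀ (Function.update v n y)) := by
      simp only [b, LitF.ite]
      split_ifs with h
      · rw [h1]
        simp [h]
      · simp only [LitF.sub]
        rw [hu']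
        simp [h]
    rw [hu', h1, h2]
    constructor
    · intro h
      have hv : Φ c γ₀ v := by
        have := h (v n) le_rfl
        rwa [Function.update_eq_self] at this
      refine ⟨hv, ?_⟩
      by_cases hn : v n = mn c
      · exact Or.inl ⟨hn, hv⟩
      · exact Or.inr ⟨hn, fun y hy => h y (hy.trans (pd_lt c _ hn).le)⟩
    · rintro ⟨hv, h⟩ y hy
      rw [le_iff_pd] at hy
      rcases hy with rfl | ⟨hn, hy⟩
      · rwa [Function.update_eq_self]
      · rcases h with ⟨h, _⟩ | ⟨_, h⟩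
        · exact absurd h hn
        · exact h y hy
  · intro γ hγ
    rw [hsat] at hγ
    obtain ⟨s1, s3⟩ := hγ
    have h1 : ∀ v, holds γ (a c v) ↔ Φ c (pull Sum.inl γ) v := by
      intro v
      rw [holds_map, (c1 c).2 _ s1 v, hp1]
    have hb' : ∀ v, holds γ (b c v) ↔ (v n = mn c ∧ Φ c (pull Sum.inl γ) v) ∨ (v n ≠ mn c ∧
        holds γ (u c (Function.update v n (pd c (v n))))) := by
      intro v
      simp only [b, LitF.ite]
      split_ifs with h
      · rw [h1]
        simp [h]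
      · simp only [LitF.sub]
        simp [h]
    have key : ∀ y : (ordCls σ).car c, ∀ v, v n = y →
        (holds γ (u c v) ↔ ∀ x ≤ v n, Φ c (pull Sum.inl γ) (Function.update v n x)) := by
      intro y
      induction y using (IsWellFounded.wf (r := (fun a b : (ordCls σ).car c => a < b))).induction with
      | _ y ih =>
        intro v hv
        rw [s3, h1, hb']
        by_cases hn : v n = mn c
        · constructor
          · rintro ⟨h, _⟩ x hx
            have : x = v n := le_antisymm hx (hn ▸ mn_le c x)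
            rw [this, Function.update_eq_self]
            exact h
          · intro h
            have hv' := h (v n) le_rfl
            rw [Function.update_eq_self] at hv'
            exact ⟨hv', Or.inl ⟨hn, hv'⟩⟩
        · have hlt : pd c (v n) < y := hv ▸ pd_lt c _ hn
          have ih' := ih (pd c (v n)) hlt (Function.update v n (pd c (v n))) (by simp)
          rw [ih']
          simp only [Function.update_self, Function.update_idem]
          constructor
          · rintro ⟨h, h'⟩ x hx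
            rw [le_iff_pd] at hx
            rcases hx with rfl | ⟨_, hx⟩
            · rwa [Function.update_eq_self]
            · rcases h' with ⟨h', _⟩ | ⟨_, h'⟩
              · exact absurd h' hn
              · exact h' x hx
          · intro h
            have hv' := h (v n) le_rfl
            rw [Function.update_eq_self] at hv'
            exact ⟨hv', Or.inr ⟨hn, fun x hx => h x (hx.trans (pd_lt c _ hn).le)⟩⟩
    intro v
    have := key (mx c) (Function.update v n (mx c)) (by simp)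
    simp only [r, LitF.sub]
    rw [this]
    simp only [Function.update_self, Function.update_idem]
    exact ⟨fun h x => h x (le_mx c x), fun h x _ => h x⟩

end Pool.Agent.H92.Desc
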